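import Pool.Agent.LibHF31.ADefs

/-!
[HF A1] finiteness of the sums.

PLAN.  `hb_lt`: induction on `y` (finite sums of finite numbers; `k' ≥ 1` in `Ioo K k`, so
`((k' : ℝ≥0∞) ^ n)⁻¹ < ⊤`).
`hb_le`: for all `k`: `hb y K k ≤ C` with `C < ⊤` independent of `k` (induction: for letters `n ≥ 2`
`∑_{k' ≥ 1} k' ^ (-n) ≤ ∑' i, ((i+1)^2)⁻¹ < ⊤`).  From it `hG_lt`.
`ph_lt`: induction on `u`: `ph u 1 ≤ C` on `[1, ∞)` (only values at `j + i ≥ 1` occur).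
-/

set_option autoImplicit false

namespace Pool.Agent.HF

open scoped ENNReal
open Finset

/-- The reference sum. -/
private noncomputable def A1_Z : ℝ≥0∞ := ∑' i : ℕ, (((i + 1 : ℕ) : ℝ≥0∞) ^ 2)⁻¹

private theorem A1_Z_lt : A1_Z < ⊤ := by
  rw [lt_top_iff_ne_top]
  have h1 : Summable fun i : ℕ => (((i + 1 : ℕ) : ℝ) ^ 2)⁻¹ :=
    (summable_nat_add_iff 1).2 (Real.summable_nat_pow_inv.2 one_lt_two)
  have h2 : Summable fun i : ℕ => (((i + 1 : ℕ) : NNReal) ^ 2)⁻¹ := by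
    rw [← NNReal.summable_coe]
    refine h1.congr fun i => ?_
    push_cast
    ring
  have h3 := ENNReal.tsum_coe_ne_top_iff_summable.mpr h2
  have h4 : A1_Z = ∑' i : ℕ, (((((i + 1 : ℕ) : NNReal) ^ 2)⁻¹ : NNReal) : ℝ≥0∞) := by
    unfold A1_Z
    refine tsum_congr fun i => ?_
    rw [ENNReal.coe_inv (by positivity)]
    push_cast
    rfl
  rw [h4]
  exact h3

private theorem A1_inv_le {n k i : ℕ} (hn : 2 ≤ n) (hk : i + 1 ≤ k) :
    ((k : ℝ≥0∞) ^ n)⁻¹ ≤ (((i + 1 : ℕ) : ℝ≥0∞) ^ 2)⁻¹ := by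
  rw [ENNReal.inv_le_inv]
  have h1 : (i + 1) ^ 2 ≤ k ^ n :=
    (Nat.pow_le_pow_right (by omega) hn).trans (Nat.pow_le_pow_left hk n)
  exact_mod_cast h1

private theorem A1_tsum_le {n K : ℕ} (hn : 2 ≤ n) (hK : 1 ≤ K) (f : ℕ → ℝ≥0∞) (C : ℝ≥0∞)
    (hf : ∀ i, f i ≤ C) :
    ∑' i : ℕ, (((K + i : ℕ) : ℝ≥0∞) ^ n)⁻¹ * f i ≤ A1_Z * C := by
  unfold A1_Z
  rw [← ENNReal.tsum_mul_right]
  exact ENNReal.tsum_le_tsum fun i => mul_le_mul' (A1_inv_le hn (by omega)) (hf i)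

private theorem A1_hb_le (y : List ℕ) (hy : ∀ x ∈ y, 2 ≤ x) :
    ∃ C : ℝ≥0∞, C < ⊤ ∧ ∀ K k, hb y K k ≤ C := by
  induction y with
  | nil => exact ⟨1, ENNReal.one_lt_top, fun K k => le_of_eq rfl⟩
  | cons n y ih =>
    obtain ⟨C, hC, h⟩ := ih fun x hx => hy x (List.mem_cons_of_mem _ hx)
    have hn : 2 ≤ n := hy n List.mem_cons_self
    refine ⟨A1_Z * C, ENNReal.mul_lt_top A1_Z_lt hC, fun K k => ?_⟩
    have h1 : hb (n :: y) K k = ∑ k' ∈ Ioo K k, ((k' : ℝ≥0∞) ^ n)⁻¹ * hb y K k' := rfl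
    rw [h1]
    have h2 : ∑ k' ∈ Ioo K k, ((k' : ℝ≥0∞) ^ n)⁻¹ * hb y K k' ≤
        ∑ k' ∈ Ico 1 k, ((k' : ℝ≥0∞) ^ n)⁻¹ * hb y K k' := by
      refine Finset.sum_le_sum_of_subset ?_
      intro x hx
      rw [Finset.mem_Ioo] at hx
      rw [Finset.mem_Ico]
      omega
    refine h2.trans ?_
    rw [Finset.sum_Ico_eq_sum_range]
    refine (ENNReal.sum_le_tsum _).trans ?_
    exact A1_tsum_le hn le_rfl (fun i => hb y K (1 + i)) C fun i => h K (1 + i)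

private theorem A1_ph_le (y : List ℕ) (hy : ∀ x ∈ y, 2 ≤ x) :
    ∃ C : ℝ≥0∞, C < ⊤ ∧ ∀ j, 1 ≤ j → ph y (fun _ => 1) j ≤ C := by
  induction y with
  | nil => exact ⟨1, ENNReal.one_lt_top, fun j _ => le_of_eq rfl⟩
  | cons n y ih =>
    obtain ⟨C, hC, h⟩ := ih fun x hx => hy x (List.mem_cons_of_mem _ hx)
    have hn : 2 ≤ n := hy n List.mem_cons_self
    refine ⟨A1_Z * C, ENNReal.mul_lt_top A1_Z_lt hC, fun j hj => ?_⟩
    have h1 : ph (n :: y) (fun _ => 1) j = op n (ph y (fun _ => 1)) j := rfl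
    have h2 : op n (ph y (fun _ => 1)) j = P n (ph y (fun _ => 1)) j := by
      unfold op
      rw [if_neg (by omega)]
    rw [h1, h2]
    exact A1_tsum_le hn hj (fun i => ph y (fun _ => 1) (j + i)) C fun i => h (j + i) (by omega)

theorem hb_lt (y : List ℕ) (K k : ℕ) : hb y K k < ⊤ := by
  induction y generalizing k with
  | nil => exact ENNReal.one_lt_top
  | cons n y ih =>
    have h1 : hb (n :: y) K k = ∑ k' ∈ Ioo K k, ((k' : ℝ≥0∞) ^ n)⁻¹ * hb y K k' := rfl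
    rw [h1, ENNReal.sum_lt_top]
    intro k' hk'
    rw [Finset.mem_Ioo] at hk'
    refine ENNReal.mul_lt_top ?_ (ih k')
    rw [ENNReal.inv_lt_top]
    have h2 : 0 < k' ^ n := Nat.pow_pos (by omega)
    exact_mod_cast h2

theorem hG_lt (y : List ℕ) (hy : ∀ x ∈ y, 2 ≤ x) (K : ℕ) : hG y K < ⊤ := by
  cases y with
  | nil => exact ENNReal.one_lt_top
  | cons n y =>
    obtain ⟨C, hC, h⟩ := A1_hb_le y fun x hx => hy x (List.mem_cons_of_mem _ hx)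
    have hn : 2 ≤ n := hy n List.mem_cons_self
    exact (A1_tsum_le hn (Nat.le_add_left 1 K) (fun i => hb y K (K + 1 + i)) C
      fun i => h K (K + 1 + i)).trans_lt (ENNReal.mul_lt_top A1_Z_lt hC)

theorem ph_lt (y : List ℕ) (hy : ∀ x ∈ y, 2 ≤ x) (j : ℕ) (hj : 1 ≤ j) :
    ph y (fun _ => 1) j < ⊤ := by
  obtain ⟨C, hC, h⟩ := A1_ph_le y hy
  exact (h j hj).trans_lt hC

end Pool.Agent.HF
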