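import Pool.Agent.LibHF31.ADefs
import Pool.Agent.LibHB89.A1

/-!
[HF A1b] `ζ` in terms of `hG`.

PLAN.  Use `Pool.HB89.mzv_eq_co : mzv w = (∑' k, co w k).toReal` (file LibHB89/A1) and
`co w`: for `k ≥ 1`: `∑ j ∈ range k, co w j = hb w 0 k` (induction on `w`, `co [] 0 = 1`), so
`∑' k, co (n :: w) k = ∑' i, ((i+1)^n)⁻¹ * hb w 0 (i+1)` (the term `k = 0` is `0`; use
`tsum_eq_zero_add'` / `ENNReal.tsum_eq_zero_add`-like lemmas).
-/

set_option autoImplicit false

namespace Pool.Agent.HF

open scoped ENNReal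
open Finset

private theorem A1b_sum (w : List ℕ) : ∀ k : ℕ, 1 ≤ k →
    ∑ j ∈ range k, Pool.HB89.co w j = hb w 0 k := by
  induction w with
  | nil =>
    intro k hk
    simp only [Pool.HB89.co, hb]
    rw [sum_ite_eq' (range k) 0 (fun _ => (1 : ℝ≥0∞)), if_pos (mem_range.2 (by omega))]
  | cons n w ih =>
    intro k hk
    obtain ⟨k, rfl⟩ : ∃ m, k = m + 1 := ⟨k - 1, by omega⟩
    rw [sum_range_succ', hb]
    have h0 : Pool.HB89.co (n :: w) 0 = 0 := by simp [Pool.HB89.co]
    rw [h0, add_zero]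
    have h1 : Ioo 0 (k + 1) = (range k).map ⟨fun i => i + 1, fun a b h => by simpa using h⟩ := by
      ext j
      simp only [mem_Ioo, mem_map, mem_range, Function.Embedding.coeFn_mk]
      constructor
      · intro h; exact ⟨j - 1, by omega, by omega⟩
      · rintro ⟨i, hi, rfl⟩; omega
    rw [h1, sum_map]
    refine sum_congr rfl fun i _ => ?_
    simp only [Pool.HB89.co, Function.Embedding.coeFn_mk]
    rw [if_neg (by omega), ih (i + 1) (by omega)]

theorem zt_eq_hG (w : List ℕ) : zt w = (hG w 0).toReal := by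
  unfold zt
  rw [Pool.HB89.mzv_eq_co]
  congr 1
  cases w with
  | nil =>
    simp only [Pool.HB89.co, hG]
    rw [tsum_eq_single 0 (fun b hb => by simp [hb])]
    simp
  | cons n w =>
    rw [tsum_eq_zero_add' ENNReal.summable]
    have h0 : Pool.HB89.co (n :: w) 0 = 0 := by simp [Pool.HB89.co]
    rw [h0, zero_add, hG]
    refine tsum_congr fun i => ?_
    simp only [Pool.HB89.co]
    rw [if_neg (by omega), A1b_sum w (i + 1) (by omega), show 0 + 1 + i = i + 1 by omega]

end Pool.Agent.HF
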