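import Pool.Agent.LibHF31.ADefs
import Pool.Agent.LibHF31.A1

/-!
[HF A2] splitting a multiple zeta value at one letter.

PLAN.  First `hb_split` by induction on `w'` (generalising `k`): for `w' = a :: v`:
`hb (a :: v ++ n :: w'') K₀ k = ∑_{k' ∈ Ioo K₀ k} k'^(-a) hb (v ++ n :: w'') K₀ k'`, insert the induction
hypothesis and exchange the two finite sums (`K < k' < k`).
Then `hG_split`: `w' = []`: `hb [] K k = 1`, definition.  `w' = a :: v`: the same exchange with a `tsum`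
(`ENNReal.tsum_comm`; write everything as `tsum` over all `k', K : ℕ` with `if K₀ < K ∧ K < k'`).
-/

set_option autoImplicit false

namespace Pool.Agent.HF

open scoped ENNReal
open Finset

theorem hb_split (w' w'' : List ℕ) (n K₀ k : ℕ) :
    hb (w' ++ n :: w'') K₀ k =
      ∑ K ∈ Ioo K₀ k, hb w' K k * (((K : ℝ≥0∞) ^ n)⁻¹ * hb w'' K₀ K) := by
  induction w' generalizing k with
  | nil =>
    show ∑ k' ∈ Ioo K₀ k, ((k' : ℝ≥0∞) ^ n)⁻¹ * hb w'' K₀ k' =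
      ∑ K ∈ Ioo K₀ k, 1 * (((K : ℝ≥0∞) ^ n)⁻¹ * hb w'' K₀ K)
    simp only [one_mul]
  | cons a v ih =>
    show ∑ k' ∈ Ioo K₀ k, ((k' : ℝ≥0∞) ^ a)⁻¹ * hb (v ++ n :: w'') K₀ k' =
      ∑ K ∈ Ioo K₀ k, (∑ k' ∈ Ioo K k, ((k' : ℝ≥0∞) ^ a)⁻¹ * hb v K k') *
        (((K : ℝ≥0∞) ^ n)⁻¹ * hb w'' K₀ K)
    simp only [ih, Finset.mul_sum, Finset.sum_mul]
    rw [Finset.sum_comm' (s := Ioo K₀ k) (t := fun k' => Ioo K₀ k') (t' := Ioo K₀ k)
      (s' := fun K => Ioo K k)]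
    · apply Finset.sum_congr rfl
      intro K _
      apply Finset.sum_congr rfl
      intro k' _
      ring
    · intro x y
      simp only [mem_Ioo]
      omega

private theorem A2_ex (φ : ℕ → ℕ → ℝ≥0∞) :
    ∑' i : ℕ, ∑ K ∈ Ioo 0 (i + 1), φ (i + 1) K = ∑' j : ℕ, ∑' i : ℕ, φ (j + 2 + i) (j + 1) := by
  have h1 : ∀ i : ℕ, ∑ K ∈ Ioo 0 (i + 1), φ (i + 1) K =
      ∑' j : ℕ, if j < i then φ (i + 1) (j + 1) else 0 := by
    intro i
    rw [tsum_eq_sum (s := range i)]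
    · have h2 : Ioo 0 (i + 1) = (range i).image (fun j => j + 1) := by
        ext x
        simp only [mem_Ioo, mem_image, mem_range]
        constructor
        · rintro ⟨h3, h4⟩
          exact ⟨x - 1, by omega, by omega⟩
        · rintro ⟨j, h3, rfl⟩
          omega
      rw [h2, Finset.sum_image (fun x _ y _ h => by simpa using h)]
      apply Finset.sum_congr rfl
      intro j hj
      rw [mem_range] at hj
      rw [if_pos hj]
    · intro j hj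
      rw [mem_range] at hj
      rw [if_neg hj]
  simp only [h1]
  rw [ENNReal.tsum_comm]
  apply tsum_congr
  intro j
  have h2 := (Summable.sum_add_tsum_nat_add' (k := j + 1)
    (f := fun i => if j < i then φ (i + 1) (j + 1) else 0) ENNReal.summable)
  rw [← h2, Finset.sum_eq_zero, zero_add]
  · apply tsum_congr
    intro i
    rw [if_pos (by omega)]
    congr 1
    omega
  · intro i hi
    rw [mem_range] at hi
    rw [if_neg (by omega)]

theorem hG_split (w' w'' : List ℕ) (n : ℕ) :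
    hG (w' ++ n :: w'') 0 =
      ∑' i : ℕ, hG w' (i + 1) * ((((i + 1 : ℕ) : ℝ≥0∞) ^ n)⁻¹ * hb w'' 0 (i + 1)) := by
  cases w' with
  | nil =>
    show ∑' i : ℕ, (((0 + 1 + i : ℕ) : ℝ≥0∞) ^ n)⁻¹ * hb w'' 0 (0 + 1 + i) =
      ∑' i : ℕ, 1 * ((((i + 1 : ℕ) : ℝ≥0∞) ^ n)⁻¹ * hb w'' 0 (i + 1))
    apply tsum_congr
    intro i
    rw [one_mul, show 0 + 1 + i = i + 1 by omega]
  | cons a v =>
    show ∑' i : ℕ, (((0 + 1 + i : ℕ) : ℝ≥0∞) ^ a)⁻¹ * hb (v ++ n :: w'') 0 (0 + 1 + i) =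
      ∑' j : ℕ, (∑' i : ℕ, (((j + 1 + 1 + i : ℕ) : ℝ≥0∞) ^ a)⁻¹ * hb v (j + 1) (j + 1 + 1 + i)) *
        ((((j + 1 : ℕ) : ℝ≥0∞) ^ n)⁻¹ * hb w'' 0 (j + 1))
    have h1 := A2_ex (fun k' K => ((k' : ℝ≥0∞) ^ a)⁻¹ *
      (hb v K k' * (((K : ℝ≥0∞) ^ n)⁻¹ * hb w'' 0 K)))
    have h2 : ∀ i : ℕ, (((0 + 1 + i : ℕ) : ℝ≥0∞) ^ a)⁻¹ * hb (v ++ n :: w'') 0 (0 + 1 + i) =
        ∑ K ∈ Ioo 0 (i + 1), (((i + 1 : ℕ) : ℝ≥0∞) ^ a)⁻¹ *
          (hb v K (i + 1) * (((K : ℝ≥0∞) ^ n)⁻¹ * hb w'' 0 K)) := by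
      intro i
      rw [show 0 + 1 + i = i + 1 by omega, hb_split, Finset.mul_sum]
    simp only [h2]
    rw [h1]
    apply tsum_congr
    intro j
    rw [← ENNReal.tsum_mul_right]
    apply tsum_congr
    intro i
    rw [show j + 1 + 1 + i = j + 2 + i by omega]
    ring

end Pool.Agent.HF
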