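import Pool.Agent.LibHF31.ADefs
import Pool.Agent.LibHF31.A1

/-!
[HF A3] first telescoping identity.

PLAN.  Induction on `y`, generalising `K`.  `y = []`: `1 = 1` (`ph [] f = f`).  `y = n :: y'`: split off `j = 0`
(`Finset.sum_range_succ'`); for `j = j' + 1`: `hb (n :: y'.take j') 0 K = ∑_{k ∈ Ioo 0 K} k^(-n) hb (y'.take j') 0 k`;
exchange the finite sums and use the induction hypothesis at every `k` with `1 ≤ k < K`:
the sum is `(ph (n :: y') 1 1).toReal - ∑_{k ∈ Ioo 0 K} k^(-n) (ph y' 1 k).toReal`, and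
`ph (n :: y') 1 1 = ∑_{k ∈ Ioo 0 K} k^(-n) ph y' 1 k + ph (n :: y') 1 K` in `ℝ≥0∞`
(`P n f 1 = ∑_{i < K - 1} + tail`, `op n = P n` for `n ≥ 2`); everything is finite by `ph_lt`, `hb_lt`.
-/

set_option autoImplicit false

namespace Pool.Agent.HF

open scoped ENNReal
open Finset

private theorem A3_hb (n : ℕ) (w : List ℕ) (K : ℕ) :
    (hb (n :: w) 0 K).toReal = ∑ k ∈ Ioo 0 K, ((k : ℝ) ^ n)⁻¹ * (hb w 0 k).toReal := by
  rw [hb, ENNReal.toReal_sum]
  · refine sum_congr rfl fun k _ => ?_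
    rw [ENNReal.toReal_mul, ENNReal.toReal_inv, ENNReal.toReal_pow, ENNReal.toReal_natCast]
  · intro k hk
    have h1 := (mem_Ioo.1 hk).1
    refine ENNReal.mul_ne_top ?_ (hb_lt w 0 k).ne
    refine ENNReal.inv_ne_top.2 (pow_ne_zero _ ?_)
    exact_mod_cast (Nat.pos_iff_ne_zero.1 h1)

private theorem A3_ph (n : ℕ) (hn : 2 ≤ n) (y : List ℕ) (hy : ∀ x ∈ y, 2 ≤ x) (K : ℕ)
    (hK : 1 ≤ K) : (ph (n :: y) (fun _ => 1) 1).toReal =
      ∑ k ∈ Ioo 0 K, ((k : ℝ) ^ n)⁻¹ * (ph y (fun _ => 1) k).toReal +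
        (ph (n :: y) (fun _ => 1) K).toReal := by
  have hy' : ∀ x ∈ n :: y, 2 ≤ x := by
    intro x hx
    rcases List.mem_cons.1 hx with rfl | h
    · exact hn
    · exact hy x h
  have hop : ∀ j, ph (n :: y) (fun _ => 1) j = P n (ph y (fun _ => 1)) j := by
    intro j
    change op n (ph y (fun _ => 1)) j = _
    rw [op, if_neg (by omega)]
  have h1 : ph (n :: y) (fun _ => 1) 1 =
      ∑ k ∈ Ioo 0 K, ((k : ℝ≥0∞) ^ n)⁻¹ * ph y (fun _ => 1) k + ph (n :: y) (fun _ => 1) K := by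
    rw [hop, hop, P, P]
    have h2 : Ioo 0 K = Ico 1 K := by
      ext k
      simp only [mem_Ioo, mem_Ico]
      omega
    rw [h2, sum_Ico_eq_sum_range]
    have h3 := Summable.sum_add_tsum_nat_add'
      (f := fun i : ℕ => (((1 + i : ℕ) : ℝ≥0∞) ^ n)⁻¹ * ph y (fun _ => 1) (1 + i))
      (k := K - 1) ENNReal.summable
    rw [← h3]
    congr 1
    refine tsum_congr fun i => ?_
    have h4 : 1 + (i + (K - 1)) = K + i := by omega
    rw [h4]
  have hfin : ∀ k ∈ Ioo 0 K, ((k : ℝ≥0∞) ^ n)⁻¹ * ph y (fun _ => 1) k ≠ ⊤ := by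
    intro k hk
    have h1 := (mem_Ioo.1 hk).1
    refine ENNReal.mul_ne_top ?_ (ph_lt y hy k h1).ne
    refine ENNReal.inv_ne_top.2 (pow_ne_zero _ ?_)
    exact_mod_cast (Nat.pos_iff_ne_zero.1 h1)
  rw [h1, ENNReal.toReal_add (ENNReal.sum_ne_top.2 hfin) (ph_lt _ hy' K hK).ne,
    ENNReal.toReal_sum hfin]
  congr 1
  refine sum_congr rfl fun k _ => ?_
  rw [ENNReal.toReal_mul, ENNReal.toReal_inv, ENNReal.toReal_pow, ENNReal.toReal_natCast]

theorem T1 (y : List ℕ) (hy : ∀ x ∈ y, 2 ≤ x) (K : ℕ) (hK : 1 ≤ K) :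
    ∑ j ∈ range (y.length + 1), (-1 : ℝ) ^ j * (hb (y.take j) 0 K).toReal * S (y.drop j) =
      (ph y (fun _ => 1) K).toReal := by
  induction y generalizing K with
  | nil =>
    simp [hb, S, ph]
  | cons n y ih =>
    have hn : 2 ≤ n := hy n (by simp)
    have hy' : ∀ x ∈ y, 2 ≤ x := fun x hx => hy x (List.mem_cons_of_mem _ hx)
    rw [List.length_cons, sum_range_succ']
    have h0 : (-1 : ℝ) ^ 0 * (hb (List.take 0 (n :: y)) 0 K).toReal * S (List.drop 0 (n :: y)) =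
        (ph (n :: y) (fun _ => 1) 1).toReal := by
      simp [hb, S]
    have h1 : ∀ j ∈ range (y.length + 1),
        (-1 : ℝ) ^ (j + 1) * (hb (List.take (j + 1) (n :: y)) 0 K).toReal *
          S (List.drop (j + 1) (n :: y)) =
        -∑ k ∈ Ioo 0 K, ((k : ℝ) ^ n)⁻¹ *
          ((-1 : ℝ) ^ j * (hb (y.take j) 0 k).toReal * S (y.drop j)) := by
      intro j _
      rw [List.take_succ_cons, List.drop_succ_cons, A3_hb, mul_sum, sum_mul, ← sum_neg_distrib]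
      refine sum_congr rfl fun k _ => ?_
      ring
    rw [sum_congr rfl h1, h0, sum_neg_distrib, sum_comm, A3_ph n hn y hy' K hK]
    have h2 : ∀ k ∈ Ioo 0 K, ∑ j ∈ range (y.length + 1), ((k : ℝ) ^ n)⁻¹ *
        ((-1 : ℝ) ^ j * (hb (y.take j) 0 k).toReal * S (y.drop j)) =
        ((k : ℝ) ^ n)⁻¹ * (ph y (fun _ => 1) k).toReal := by
      intro k hk
      rw [← mul_sum, ih hy' k (mem_Ioo.1 hk).1]
    rw [sum_congr rfl h2]
    ring

end Pool.Agent.HF
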