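import Pool.Agent.LibHF31.ADefs
import Pool.Agent.LibHF31.A1

/-!
[HF A4] second telescoping identity.

PLAN.  `T2` by induction on `y`, generalising `k`.  `y = []`: both sides `1`.  `y = n :: y'`, `s = y'.length`:
the term `j = 0` is `(-1)^(s+1) * hG (n :: y') K`; for `j = j' + 1` use
`ph (n :: v) 1 k = P n (ph v 1) k = ∑' i, ((k+i)^n)⁻¹ * ph v 1 (k+i)` and exchange the finite sum over `j'` with the
`tsum` (all summable in `ℝ`, by `ph_lt`/`ENNReal.toReal`; `tsum_mul_left`, `Summable.tsum_finsetSum`):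
by the induction hypothesis at `k + i > K` it is `∑' i, ((k+i)^n)⁻¹ * (-1)^s * hb y' K (k+i)`, and
`hG (n :: y') K = ∑_{k' ∈ Ioo K k} k'^(-n) hb y' K k' + ∑' i, ((k+i)^n)⁻¹ * hb y' K (k+i)`; difference
`= (-1)^(s+1) hb (n :: y') K k`.
Here `(-1)^(s - j)` is written `(-1) ^ (y.length - j)` with `j ≤ y.length`.
-/

set_option autoImplicit false

namespace Pool.Agent.HF

open scoped ENNReal
open Finset

private theorem A4_congr {f g : ℕ → ℝ} {a : ℝ} (h : ∀ i, f i = g i) (hf : HasSum f a) :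
    HasSum g a := by
  rwa [show f = g from funext h] at hf

theorem A4_ph (n : ℕ) (hn : 2 ≤ n) (v : List ℕ) (hv : ∀ x ∈ v, 2 ≤ x) (k : ℕ) (hk : 1 ≤ k) :
    HasSum (fun i : ℕ => (((k + i : ℕ) : ℝ) ^ n)⁻¹ * (ph v (fun _ => 1) (k + i)).toReal)
      (ph (n :: v) (fun _ => 1) k).toReal := by
  have h1 : ph (n :: v) (fun _ => 1) k =
      ∑' i : ℕ, (((k + i : ℕ) : ℝ≥0∞) ^ n)⁻¹ * ph v (fun _ => 1) (k + i) := by
    simp only [ph, List.foldr_cons]
    rw [op, if_neg (by omega), P]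
  have h2 : ph (n :: v) (fun _ => 1) k ≠ ⊤ := by
    refine (ph_lt _ ?_ k hk).ne
    intro x hx
    rcases List.mem_cons.1 hx with h | h
    · omega
    · exact hv x h
  rw [h1] at h2 ⊢
  have h3 := ENNReal.hasSum_toReal h2
  rw [← ENNReal.tsum_toReal_eq (fun a => ENNReal.ne_top_of_tsum_ne_top h2 a)] at h3
  refine A4_congr (fun i => ?_) h3
  rw [ENNReal.toReal_mul, ENNReal.toReal_inv, ENNReal.toReal_pow, ENNReal.toReal_natCast]

theorem A4_hG (n : ℕ) (v : List ℕ) (K k : ℕ) (hk : K < k) :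
    hG (n :: v) K = hb (n :: v) K k +
      ∑' i : ℕ, (((k + i : ℕ) : ℝ≥0∞) ^ n)⁻¹ * hb v K (k + i) := by
  obtain ⟨d, rfl⟩ : ∃ d, k = K + 1 + d := ⟨k - K - 1, by omega⟩
  have h1 := (ENNReal.summable (f := fun i : ℕ =>
    (((K + 1 + (i + d) : ℕ) : ℝ≥0∞) ^ n)⁻¹ * hb v K (K + 1 + (i + d)))).sum_add_tsum_nat_add'
      (f := fun i : ℕ => (((K + 1 + i : ℕ) : ℝ≥0∞) ^ n)⁻¹ * hb v K (K + 1 + i)) (k := d)
  rw [hG, ← h1, hb]
  congr 1
  · have h2 : Ioo K (K + 1 + d) = (range d).map ⟨fun i => K + 1 + i, fun a b h => by simpa using h⟩ := by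
      ext j
      simp only [mem_Ioo, mem_map, mem_range, Function.Embedding.coeFn_mk]
      constructor
      · intro h; exact ⟨j - (K + 1), by omega, by omega⟩
      · rintro ⟨i, hi, rfl⟩; omega
    rw [h2, sum_map]
    rfl
  · refine tsum_congr fun i => ?_
    rw [show K + 1 + (i + d) = K + 1 + d + i by omega]

/-- The sum of `T2`. -/
noncomputable def A4_B (y : List ℕ) (K k : ℕ) : ℝ :=
  ∑ j ∈ range (y.length + 1), (-1 : ℝ) ^ (y.length - j) * (ph (y.take j) (fun _ => 1) k).toReal *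
      (hG (y.drop j) K).toReal

theorem A4_step (n : ℕ) (y : List ℕ) (hy : ∀ x ∈ n :: y, 2 ≤ x) (K k : ℕ) (hk : 1 ≤ k) :
    HasSum (fun i : ℕ => (((k + i : ℕ) : ℝ) ^ n)⁻¹ * A4_B y K (k + i))
      (A4_B (n :: y) K k - (-1) ^ (y.length + 1) * (hG (n :: y) K).toReal) := by
  have hn : 2 ≤ n := hy n (by simp)
  have h1 : ∀ j, HasSum (fun i : ℕ => (-1 : ℝ) ^ (y.length - j) * (hG (y.drop j) K).toReal *
      ((((k + i : ℕ) : ℝ) ^ n)⁻¹ * (ph (y.take j) (fun _ => 1) (k + i)).toReal))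
      ((-1 : ℝ) ^ (y.length - j) * (hG (y.drop j) K).toReal *
        (ph (n :: y.take j) (fun _ => 1) k).toReal) := fun j =>
    (A4_ph n hn (y.take j) (fun x hx => hy x (List.mem_cons_of_mem _ (List.mem_of_mem_take hx)))
      k hk).mul_left _
  have h2 := hasSum_sum (s := range (y.length + 1)) fun j _ => h1 j
  have h3 : A4_B (n :: y) K k - (-1) ^ (y.length + 1) * (hG (n :: y) K).toReal =
      ∑ j ∈ range (y.length + 1), (-1 : ℝ) ^ (y.length - j) * (hG (y.drop j) K).toReal *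
        (ph (n :: y.take j) (fun _ => 1) k).toReal := by
    rw [A4_B, List.length_cons, sum_range_succ']
    simp only [List.take_zero, List.drop_zero, List.take_succ_cons, List.drop_succ_cons]
    have h4 : (ph [] (fun _ => 1) k).toReal = 1 := by simp [ph]
    rw [h4, mul_one, Nat.sub_zero, add_sub_cancel_right]
    refine sum_congr rfl fun j _ => ?_
    rw [show y.length + 1 - (j + 1) = y.length - j by omega]
    ring
  rw [h3]
  refine A4_congr (fun i => ?_) h2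
  rw [A4_B, mul_sum]
  refine sum_congr rfl fun j _ => ?_
  ring

theorem T2 (y : List ℕ) (hy : ∀ x ∈ y, 2 ≤ x) (K k : ℕ) (hk : K < k) :
    ∑ j ∈ range (y.length + 1), (-1 : ℝ) ^ (y.length - j) * (ph (y.take j) (fun _ => 1) k).toReal *
      (hG (y.drop j) K).toReal = (-1) ^ y.length * (hb y K k).toReal := by
  change A4_B y K k = _
  induction y generalizing k with
  | nil => simp [A4_B, ph, hG, hb]
  | cons n y ih =>
    have hy' : ∀ x ∈ y, 2 ≤ x := fun x hx => hy x (List.mem_cons_of_mem _ hx)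
    have h1 := A4_step n y hy K k (by omega)
    have h2 : ∀ i : ℕ, (((k + i : ℕ) : ℝ) ^ n)⁻¹ * A4_B y K (k + i) =
        (-1) ^ y.length * ((((k + i : ℕ) : ℝ≥0∞) ^ n)⁻¹ * hb y K (k + i)).toReal := by
      intro i
      rw [ih hy' (k + i) (by omega), ENNReal.toReal_mul, ENNReal.toReal_inv, ENNReal.toReal_pow,
        ENNReal.toReal_natCast]
      ring
    have h3 := A4_hG n y K k hk
    have h4 : ∑' i : ℕ, (((k + i : ℕ) : ℝ≥0∞) ^ n)⁻¹ * hb y K (k + i) ≠ ⊤ := by
      intro h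
      rw [h, add_top] at h3
      exact (hG_lt _ hy K).ne h3
    have h5 := ENNReal.hasSum_toReal h4
    rw [← ENNReal.tsum_toReal_eq (fun a => ENNReal.ne_top_of_tsum_ne_top h4 a)] at h5
    have h6 := h5.mul_left ((-1 : ℝ) ^ y.length)
    have h7 := h1.unique (A4_congr (fun i => (h2 i).symm) h6)
    have h8 : (hG (n :: y) K).toReal = (hb (n :: y) K k).toReal +
        (∑' i : ℕ, (((k + i : ℕ) : ℝ≥0∞) ^ n)⁻¹ * hb y K (k + i)).toReal := by
      rw [h3, ENNReal.toReal_add (hb_lt _ _ _).ne h4]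
    rw [List.length_cons]
    rw [h8] at h7
    rw [pow_succ] at h7 ⊢
    linarith

end Pool.Agent.HF
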