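import Pool.Agent.LibHF31.ADefs
import Pool.Agent.LibHF31.A1
import Pool.Agent.LibHF31.A4

/-!
[HF A4b] second telescoping identity on the diagonal.

PLAN.  Induction on `y` as for `T2` (file A4) (only the head step is needed: at `k' = K` the induction hypothesis of `T2'`, at `k' > K` use `T2`):
`K^(-n) K^(-Σ y') + ∑_{k' > K} k'^(-n) (-1)^s hb y' K k' + (-1)^(s+1) hG (n :: y') K = K^(-n-Σ y')`.
Here `(-1)^(s - j)` is written `(-1) ^ (y.length - j)` with `j ≤ y.length`.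
-/

set_option autoImplicit false

namespace Pool.Agent.HF

open scoped ENNReal
open Finset

theorem T2' (y : List ℕ) (hy : ∀ x ∈ y, 2 ≤ x) (K : ℕ) (hK : 1 ≤ K) :
    ∑ j ∈ range (y.length + 1), (-1 : ℝ) ^ (y.length - j) * (ph (y.take j) (fun _ => 1) K).toReal *
      (hG (y.drop j) K).toReal = ((K : ℝ) ^ y.sum)⁻¹ := by
  change A4_B y K K = _
  induction y with
  | nil => simp [A4_B, ph, hG]
  | cons n y ih =>
    have hy' : ∀ x ∈ y, 2 ≤ x := fun x hx => hy x (List.mem_cons_of_mem _ hx)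
    have h1 := A4_step n y hy K K hK
    have h2 : ∀ i : ℕ, (((K + 1 + i : ℕ) : ℝ) ^ n)⁻¹ * A4_B y K (K + 1 + i) =
        (-1) ^ y.length * ((((K + 1 + i : ℕ) : ℝ≥0∞) ^ n)⁻¹ * hb y K (K + 1 + i)).toReal := by
      intro i
      rw [show A4_B y K (K + 1 + i) = (-1) ^ y.length * (hb y K (K + 1 + i)).toReal from
        T2 y hy' K (K + 1 + i) (by omega), ENNReal.toReal_mul, ENNReal.toReal_inv,
        ENNReal.toReal_pow, ENNReal.toReal_natCast]
      ring
    have h4 : ∑' i : ℕ, (((K + 1 + i : ℕ) : ℝ≥0∞) ^ n)⁻¹ * hb y K (K + 1 + i) ≠ ⊤ :=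
      (hG_lt (n :: y) hy K).ne
    have h5 := ENNReal.hasSum_toReal h4
    rw [← ENNReal.tsum_toReal_eq (fun a => ENNReal.ne_top_of_tsum_ne_top h4 a)] at h5
    have h6 := h5.mul_left ((-1 : ℝ) ^ y.length)
    have h7 : HasSum (fun i : ℕ => (((K + (i + 1) : ℕ) : ℝ) ^ n)⁻¹ * A4_B y K (K + (i + 1)))
        ((-1) ^ y.length * (hG (n :: y) K).toReal) := by
      have e : (fun i : ℕ => (((K + (i + 1) : ℕ) : ℝ) ^ n)⁻¹ * A4_B y K (K + (i + 1))) =
          fun i : ℕ => (-1) ^ y.length *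
            ((((K + 1 + i : ℕ) : ℝ≥0∞) ^ n)⁻¹ * hb y K (K + 1 + i)).toReal := by
        funext i
        rw [← h2 i, show K + (i + 1) = K + 1 + i by omega]
      rw [e]
      exact h6
    have h8 := (hasSum_nat_add_iff (f := fun i : ℕ => (((K + i : ℕ) : ℝ) ^ n)⁻¹ *
      A4_B y K (K + i)) 1).1 h7
    have h9 := h1.unique h8
    rw [sum_range_one, show K + 0 = K from rfl, show A4_B y K K = ((K : ℝ) ^ y.sum)⁻¹ from ih hy'] at h9
    rw [List.sum_cons, pow_add, mul_inv]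
    rw [pow_succ] at h9
    linarith

end Pool.Agent.HF
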