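import Pool.Agent.LibHF31.ADefs
import Pool.Agent.LibHF31.A1
import Pool.Agent.LibHF31.A1b
import Pool.Agent.LibHF31.A3

/-!
[HF A5] left antipode relation.

PLAN.  `y = n :: v`; the term `j = 0` is `S (n :: v)`; for `j = j' + 1`:
`zt (n :: v.take j') = (hG (n :: v.take j') 0).toReal = ∑' i, ((1+i)^n)⁻¹ * (hb (v.take j') 0 (1+i)).toReal`, exchange
with the finite sum over `j'` and use `T1 v` at `K = 1 + i`:
`∑' i, ((1+i)^n)⁻¹ * (ph v 1 (1+i)).toReal = (ph (n :: v) 1 1).toReal = S (n :: v)`.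
-/

set_option autoImplicit false

namespace Pool.Agent.HF

open scoped ENNReal
open Finset

private theorem A5_sum {f : ℕ → ℝ≥0∞} (hf : ∑' i, f i < ⊤) :
    HasSum (fun i => (f i).toReal) (∑' i, f i).toReal := by
  have h1 : ∀ i, f i ≠ ⊤ := fun i => ne_top_of_le_ne_top hf.ne (ENNReal.le_tsum i)
  rw [ENNReal.tsum_toReal_eq h1]
  exact (ENNReal.summable_toReal hf.ne).hasSum

theorem ANl (y : List ℕ) (hy : ∀ x ∈ y, 2 ≤ x) (h0 : y ≠ []) :
    ∑ j ∈ range (y.length + 1), (-1 : ℝ) ^ j * (zt (y.take j) * S (y.drop j)) = 0 := by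
  cases y with
  | nil => exact absurd rfl h0
  | cons n v =>
    have hn : 2 ≤ n := hy n (by simp)
    have hv : ∀ x ∈ v, 2 ≤ x := fun x hx => hy x (by simp [hx])
    have hn0 : n ≠ 0 := by omega
    rw [List.length_cons, sum_range_succ']
    simp only [List.take_succ_cons, List.drop_succ_cons, List.take_zero, List.drop_zero, pow_zero,
      one_mul]
    have hz0 : zt [] = 1 := by
      rw [zt_eq_hG]
      show (1 : ℝ≥0∞).toReal = 1
      exact ENNReal.toReal_one
    rw [hz0, one_mul]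
    -- the sums over the last index
    have hz : ∀ j, HasSum (fun i : ℕ => ((((0 + 1 + i : ℕ) : ℝ≥0∞) ^ n)⁻¹).toReal *
        (hb (v.take j) 0 (0 + 1 + i)).toReal) (zt (n :: v.take j)) := by
      intro j
      rw [zt_eq_hG]
      have h1 : hG (n :: v.take j) 0 < ⊤ := hG_lt _ (by
        intro x hx
        rcases List.mem_cons.1 hx with rfl | hx
        · exact hn
        · exact hv x (List.mem_of_mem_take hx)) 0
      have h2 := A5_sum h1
      simp only [ENNReal.toReal_mul] at h2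
      exact h2
    have hs : HasSum (fun i : ℕ => ((((0 + 1 + i : ℕ) : ℝ≥0∞) ^ n)⁻¹).toReal *
        (ph v (fun _ => 1) (0 + 1 + i)).toReal) (S (n :: v)) := by
      have h1 : ph (n :: v) (fun _ => 1) 1 < ⊤ := ph_lt _ hy 1 le_rfl
      have h2 : ph (n :: v) (fun _ => 1) 1 =
          ∑' i : ℕ, (((1 + i : ℕ) : ℝ≥0∞) ^ n)⁻¹ * ph v (fun _ => 1) (1 + i) := by
        show op n (ph v fun _ => 1) 1 = _
        unfold op
        rw [if_neg hn0]
        rfl
      unfold S
      rw [h2] at h1 ⊢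
      have h3 := A5_sum h1
      simp only [ENNReal.toReal_mul] at h3
      simp only [zero_add]
      exact h3
    have h1 : HasSum (fun i : ℕ => ∑ j ∈ range (v.length + 1), (-1 : ℝ) ^ (j + 1) *
        (((((0 + 1 + i : ℕ) : ℝ≥0∞) ^ n)⁻¹).toReal *
        (hb (v.take j) 0 (0 + 1 + i)).toReal * S (v.drop j)))
        (∑ j ∈ range (v.length + 1), (-1 : ℝ) ^ (j + 1) * (zt (n :: v.take j) * S (v.drop j))) :=
      hasSum_sum fun j _ => ((hz j).mul_right _).mul_left _
    have h2 : (fun i : ℕ => ∑ j ∈ range (v.length + 1), (-1 : ℝ) ^ (j + 1) *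
        (((((0 + 1 + i : ℕ) : ℝ≥0∞) ^ n)⁻¹).toReal *
        (hb (v.take j) 0 (0 + 1 + i)).toReal * S (v.drop j))) =
        fun i : ℕ => -(((((0 + 1 + i : ℕ) : ℝ≥0∞) ^ n)⁻¹).toReal *
        (ph v (fun _ => 1) (0 + 1 + i)).toReal) := by
      funext i
      rw [← T1 v hv (0 + 1 + i) (by omega), mul_sum, ← sum_neg_distrib]
      refine sum_congr rfl fun j _ => ?_
      ring
    rw [h2] at h1
    rw [h1.unique hs.neg]
    ring

end Pool.Agent.HF
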