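import Pool.Agent.LibHF31.ADefs
import Pool.Agent.LibHF31.A1
import Pool.Agent.LibHF31.A1b
import Pool.Agent.LibHF31.A4

/-!
[HF A5b] right antipode relation.

PLAN.  This is `T2` with `K = 0`, `k = 1`: `hb y 0 1 = 0` for `y ≠ []` (empty sum), `zt = hG · 0` (`zt_eq_hG`), multiply by
`(-1)^length`.
-/

set_option autoImplicit false

namespace Pool.Agent.HF

open scoped ENNReal
open Finset

theorem ANr (y : List ℕ) (hy : ∀ x ∈ y, 2 ≤ x) (h0 : y ≠ []) :
    ∑ j ∈ range (y.length + 1), (-1 : ℝ) ^ j * (S (y.take j) * zt (y.drop j)) = 0 := by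
  have h1 := T2 y hy 0 1 one_pos
  have h2 : hb y 0 1 = 0 := by
    cases y with
    | nil => exact absurd rfl h0
    | cons n v =>
      show ∑ k' ∈ Ioo (0 : ℕ) 1, ((k' : ℝ≥0∞) ^ n)⁻¹ * hb v 0 k' = 0
      have h3 : Ioo (0 : ℕ) 1 = ∅ := by decide
      rw [h3, sum_empty]
  rw [h2, ENNReal.toReal_zero, mul_zero] at h1
  have h3 : ∑ j ∈ range (y.length + 1), (-1 : ℝ) ^ j * (S (y.take j) * zt (y.drop j)) =
      (-1 : ℝ) ^ y.length * ∑ j ∈ range (y.length + 1), (-1 : ℝ) ^ (y.length - j) *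
        (ph (y.take j) (fun _ => 1) 1).toReal * (hG (y.drop j) 0).toReal := by
    rw [mul_sum]
    refine sum_congr rfl fun j hj => ?_
    have hj' : j ≤ y.length := Nat.lt_succ_iff.1 (mem_range.1 hj)
    rw [zt_eq_hG]
    have h4 : (-1 : ℝ) ^ j = (-1 : ℝ) ^ y.length * (-1 : ℝ) ^ (y.length - j) := by
      rw [← pow_add]
      have h5 : y.length + (y.length - j) = j + 2 * (y.length - j) := by omega
      rw [h5, pow_add, pow_mul]
      simp
    rw [h4]
    unfold S
    ring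
  rw [h3, h1, mul_zero]

end Pool.Agent.HF
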