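import Pool.Agent.LibHF31.ADefs
import Pool.Agent.LibHF31.A1
import Pool.Agent.LibHF31.A1b
import Pool.Agent.LibHF31.A2
import Pool.Agent.LibHF31.A3
import Pool.Agent.LibHF31.A4b

/-!
[HF A6] the cyclic sum of all arcs through one letter.

PLAN.  Write `zt (y.drop m ++ a :: y.take j) = ∑' i, hG (y.drop m) K * K^(-a) * hb (y.take j) 0 K`, `K = i + 1`
(`zt_eq_hG`, `hG_split`, real version; every term finite and summable by `hG_lt` of the whole word).
For fixed `K`: the inner sum over `j ≤ m` of `(-1)^j hb (y.take j) 0 K * S ((y.take m).drop j)` is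
`(ph (y.take m) 1 K).toReal` by `T1 (y.take m)` (note `(y.take m).take j = y.take j` for `j ≤ m`), and the sum over `m` of
`(-1)^(s-m) hG (y.drop m) K * ph (y.take m) 1 K` is `K^(-Σ y)` by `T2'`.  So the whole sum is
`∑' i, K^(-a) K^(-Σ y) = zt [a + y.sum]` (`zt_eq_hG`; `hG [N] 0 = ∑' i, ((1+i)^N)⁻¹`).
Exchange of the finite sums with the `tsum` over `i`: `Summable.tsum_finsetSum`.
-/

set_option autoImplicit false

namespace Pool.Agent.HF

open scoped ENNReal
open Finset

private theorem A6_hasSum (u v : List ℕ) (a : ℕ) (ha : 2 ≤ a) (hu : ∀ x ∈ u, 2 ≤ x)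
    (hv : ∀ x ∈ v, 2 ≤ x) :
    HasSum (fun i : ℕ => (hG u (i + 1)).toReal *
      ((((i + 1 : ℕ) : ℝ) ^ a)⁻¹ * (hb v 0 (i + 1)).toReal)) (zt (u ++ a :: v)) := by
  have h1 : ∀ x ∈ u ++ a :: v, 2 ≤ x := by
    intro x hx
    rcases List.mem_append.1 hx with h | h
    · exact hu x h
    · rcases List.mem_cons.1 h with h | h
      · rw [h]; exact ha
      · exact hv x h
  have h2 : (∑' i : ℕ, hG u (i + 1) *
      ((((i + 1 : ℕ) : ℝ≥0∞) ^ a)⁻¹ * hb v 0 (i + 1))) ≠ ⊤ := by
    rw [← hG_split]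
    exact (hG_lt _ h1 0).ne
  have h3 := ENNReal.hasSum_toReal h2
  rw [← ENNReal.tsum_toReal_eq (ENNReal.ne_top_of_tsum_ne_top h2), ← hG_split, ← zt_eq_hG] at h3
  simp only [ENNReal.toReal_mul, ENNReal.toReal_inv, ENNReal.toReal_pow,
    ENNReal.toReal_natCast] at h3
  exact h3

private theorem A6_point (a : ℕ) (y : List ℕ) (hy : ∀ x ∈ y, 2 ≤ x) (K : ℕ) (hK : 1 ≤ K) :
    ∑ m ∈ range (y.length + 1), ∑ j ∈ range (m + 1), (-1 : ℝ) ^ (y.length - m + j) *
      (((hG (y.drop m) K).toReal * (((K : ℝ) ^ a)⁻¹ * (hb (y.take j) 0 K).toReal)) *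
        S ((y.take m).drop j)) = ((K : ℝ) ^ (a + y.sum))⁻¹ := by
  have h1 : ∀ m ∈ range (y.length + 1), ∑ j ∈ range (m + 1), (-1 : ℝ) ^ (y.length - m + j) *
      (((hG (y.drop m) K).toReal * (((K : ℝ) ^ a)⁻¹ * (hb (y.take j) 0 K).toReal)) *
        S ((y.take m).drop j)) = ((-1 : ℝ) ^ (y.length - m) *
          (ph (y.take m) (fun _ => 1) K).toReal * (hG (y.drop m) K).toReal) * ((K : ℝ) ^ a)⁻¹ := by
    intro m hm
    have hm' : m ≤ y.length := by
      have := Finset.mem_range.1 hm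
      omega
    have h2 := T1 (y.take m) (fun x hx => hy x (List.mem_of_mem_take hx)) K hK
    rw [List.length_take, min_eq_left hm'] at h2
    rw [← h2, Finset.mul_sum, Finset.sum_mul, Finset.sum_mul]
    refine Finset.sum_congr rfl fun j hj => ?_
    have hj' : j ≤ m := by
      have := Finset.mem_range.1 hj
      omega
    rw [List.take_take, min_eq_left hj', pow_add]
    ring
  rw [Finset.sum_congr rfl h1, ← Finset.sum_mul, T2' y hy K hK, pow_add, mul_inv, mul_comm]

theorem C0 (a : ℕ) (ha : 2 ≤ a) (y : List ℕ) (hy : ∀ x ∈ y, 2 ≤ x) :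
    ∑ m ∈ range (y.length + 1), ∑ j ∈ range (m + 1), (-1 : ℝ) ^ (y.length - m + j) *
      (zt (y.drop m ++ a :: y.take j) * S ((y.take m).drop j)) = zt [a + y.sum] := by
  have h1 : HasSum (fun i : ℕ => ∑ m ∈ range (y.length + 1), ∑ j ∈ range (m + 1),
      (-1 : ℝ) ^ (y.length - m + j) * (((hG (y.drop m) (i + 1)).toReal *
        ((((i + 1 : ℕ) : ℝ) ^ a)⁻¹ * (hb (y.take j) 0 (i + 1)).toReal)) * S ((y.take m).drop j)))
      (∑ m ∈ range (y.length + 1), ∑ j ∈ range (m + 1), (-1 : ℝ) ^ (y.length - m + j) *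
        (zt (y.drop m ++ a :: y.take j) * S ((y.take m).drop j))) := by
    refine hasSum_sum fun m _ => hasSum_sum fun j _ => ?_
    exact ((A6_hasSum _ _ a ha (fun x hx => hy x (List.mem_of_mem_drop hx))
      (fun x hx => hy x (List.mem_of_mem_take hx))).mul_right _).mul_left _
  have h2 := A6_hasSum [] [] (a + y.sum) (by omega) (fun x hx => absurd hx List.not_mem_nil)
    (fun x hx => absurd hx List.not_mem_nil)
  simp only [hG, hb, ENNReal.toReal_one, one_mul, mul_one, List.nil_append] at h2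
  have h3 := fun i : ℕ => A6_point a y hy (i + 1) (Nat.succ_pos i)
  simp only [h3] at h1
  exact h1.unique h2

end Pool.Agent.HF
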