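import Mathlib

/-!
[HF A7] abstract algebra: block inverse of a unitriangular matrix.

`Z`, `A : ℕ → ℕ → R` are unitriangular and inverse to each other on both sides (sums over `Icc i j`).

PLAN.  `R2` (the block inverse): for `i ≤ p < j`.  Use `Σ_{l ∈ Icc k j} Z k l * A l j = 0` (`k < j`) to replace
`∑_{l ∈ Ioc p j} Z k l * A l j` by `- ∑_{l ∈ Icc k p} Z k l * A l j`; exchange the sums
(`∑_{k ∈ Icc i p} ∑_{l ∈ Icc k p} = ∑_{l ∈ Icc i p} ∑_{k ∈ Icc i l}`) and use
`∑_{k ∈ Icc i l} A i k * Z k l = if i = l then 1 else 0`.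
-/

set_option autoImplicit false

namespace Pool.Agent.HF

open Finset

variable {R : Type} [CommRing R]

theorem R2 (Z A : ℕ → ℕ → R) (hZ : ∀ i, Z i i = 1) (hA : ∀ i, A i i = 1)
    (h1 : ∀ i j, i < j → ∑ l ∈ Icc i j, Z i l * A l j = 0)
    (h2 : ∀ i j, i < j → ∑ l ∈ Icc i j, A i l * Z l j = 0) (i p j : ℕ) (hip : i ≤ p) (hpj : p < j) :
    ∑ k ∈ Icc i p, ∑ l ∈ Ioc p j, A i k * Z k l * A l j = - A i j := by
  have e1 : ∀ k ∈ Icc i p, ∑ l ∈ Ioc p j, A i k * Z k l * A l j =
      - ∑ l ∈ Icc k p, A i k * Z k l * A l j := by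
    intro k hk
    rw [mem_Icc] at hk
    have hkj : k < j := lt_of_le_of_lt hk.2 hpj
    have hu : Icc k j = Icc k p ∪ Ioc p j := by
      ext l
      simp only [mem_Icc, mem_union, mem_Ioc]
      omega
    have hd : Disjoint (Icc k p) (Ioc p j) := by
      rw [Finset.disjoint_left]
      intro l hl hl'
      rw [mem_Icc] at hl
      rw [mem_Ioc] at hl'
      omega
    have h := h1 k j hkj
    rw [hu, sum_union hd] at h
    simp only [mul_assoc, ← mul_sum]
    rw [← mul_neg]
    congr 1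
    linear_combination h
  rw [sum_congr rfl e1, sum_neg_distrib]
  congr 1
  rw [sum_comm' (t' := Icc i p) (s' := fun l => Icc i l)
    (by intro k l; simp only [mem_Icc]; omega)]
  rw [sum_eq_single i]
  · rw [Icc_self, sum_singleton, hA, hZ]
    ring
  · intro l hl hli
    rw [mem_Icc] at hl
    have hil : i < l := by omega
    rw [← sum_mul, h2 i l hil, zero_mul]
  · intro h
    exact absurd (mem_Icc.2 ⟨le_refl i, hip⟩) h

end Pool.Agent.HF
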