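import Mathlib

/-!
[HF A7b] abstract algebra: derivative of the inverse of a unitriangular matrix.

`Z`, `A : ℕ → ℕ → R` are unitriangular and inverse to each other on both sides (sums over `Icc i j`).

PLAN.  `dA`: apply `d` to `∑_{l ∈ Icc k j} Z k l * A l j = if k = j then 1 else 0`: `∑_l (d (Z k l) * A l j + Z k l * d (A l j)) = 0`;
multiply by `A i k`, sum over `k ∈ Icc i j`, exchange sums, and
`∑_{k ∈ Icc i l} A i k * Z k l = if i = l then 1 else 0` leaves `d (A i j) = - ∑_{k ∈ Icc i j} ∑_{l ∈ Icc k j} A i k * d (Z k l) * A l j`.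
-/

set_option autoImplicit false

namespace Pool.Agent.HF

open Finset

variable {R : Type} [CommRing R]

theorem dA (d : Derivation ℤ R R) (Z A : ℕ → ℕ → R) (hZ : ∀ i, Z i i = 1) (hA : ∀ i, A i i = 1)
    (h1 : ∀ i j, i < j → ∑ l ∈ Icc i j, Z i l * A l j = 0)
    (h2 : ∀ i j, i < j → ∑ l ∈ Icc i j, A i l * Z l j = 0) (i j : ℕ) (hij : i ≤ j) :
    d (A i j) = - ∑ k ∈ Icc i j, ∑ l ∈ Icc k j, A i k * d (Z k l) * A l j := by
  have e1 : ∀ k ∈ Icc i j, ∑ l ∈ Icc k j, A i k * d (Z k l) * A l j =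
      - ∑ l ∈ Icc k j, A i k * Z k l * d (A l j) := by
    intro k hk
    rw [mem_Icc] at hk
    have h : d (∑ l ∈ Icc k j, Z k l * A l j) = 0 := by
      rcases hk.2.lt_or_eq with hlt | heq
      · rw [h1 k j hlt, map_zero]
      · subst heq
        rw [Icc_self, sum_singleton, hZ, hA, mul_one, d.map_one_eq_zero]
    rw [map_sum] at h
    simp only [Derivation.leibniz, smul_eq_mul, sum_add_distrib] at h
    have a1 : ∑ l ∈ Icc k j, A i k * d (Z k l) * A l j =
        A i k * ∑ l ∈ Icc k j, A l j * d (Z k l) := by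
      rw [mul_sum]
      exact sum_congr rfl fun l _ => by ring
    have a2 : ∑ l ∈ Icc k j, A i k * Z k l * d (A l j) =
        A i k * ∑ l ∈ Icc k j, Z k l * d (A l j) := by
      rw [mul_sum]
      exact sum_congr rfl fun l _ => by ring
    rw [a1, a2]
    linear_combination (A i k) * h
  rw [sum_congr rfl e1, sum_neg_distrib, neg_neg]
  rw [sum_comm' (t' := Icc i j) (s' := fun l => Icc i l)
    (by intro k l; simp only [mem_Icc]; omega)]
  rw [sum_eq_single i]
  · rw [Icc_self, sum_singleton, hA, hZ]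
    ring
  · intro l hl hli
    rw [mem_Icc] at hl
    have hil : i < l := by omega
    rw [← sum_mul, h2 i l hil, zero_mul]
  · intro h
    exact absurd (mem_Icc.2 ⟨le_refl i, hij⟩) h

end Pool.Agent.HF
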