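import Pool.Agent.LibHF31.A7
import Pool.Agent.LibHF31.A7b

/-!
[HF A8] abstract algebra: the derived cyclic identity.

PLAN.  Apply `d` to `hc`: `∑_{k<r} ∑_{l ∈ Icc r (k+r)} (d (Z k l) * A l (k+r) + Z k l * d (A l (k+r))) = d c`.
Insert `dA` for `A l (k+r)`: `- ∑_{a ∈ Icc l (k+r)} ∑_{b ∈ Icc a (k+r)} A l a * d (Z a b) * A b (k+r)`; terms with `a = b` vanish
(`d 1 = 0`).  Exchange all sums: the coefficient of `d (Z a b)`, `r ≤ a < b ≤ 2 r - 1`, is
`- ∑_{k ∈ Ico (b-r) r} ∑_{l ∈ Icc r a} A b (k+r) * Z k l * A l a`, and `A b (k+r) = A (b-r) k` (periodicity), so it is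
`+ A (b - r) a` by `R2` with `i = b - r`, `p = r - 1`, `j = a` (`Ioc (r-1) a = Icc r a`, `Icc (b-r) (r-1) = Ico (b-r) r`).
Put `a = a' + r`, `b = b' + r`: this is `∑_{a' < b' ≤ r - 1} d (Z a' b') * A b' (a' + r)` (periodicity of `Z` and `A`), the arcs
`Ioc k (k+r)` with `l ≤ r - 1`; together with the first part (`l ≥ r`) it is the left side of the claim.
-/

set_option autoImplicit false

namespace Pool.Agent.HF

open Finset

variable {R : Type} [CommRing R]

private theorem A8_swap (r : ℕ) (f : ℕ → ℕ → ℕ → ℕ → R) :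
    ∑ k ∈ range r, ∑ l ∈ Icc r (k + r), ∑ a ∈ Icc l (k + r), ∑ b ∈ Icc a (k + r), f k l a b =
      ∑ a ∈ Ico r (2 * r), ∑ b ∈ Ico a (2 * r), ∑ k ∈ Ico (b - r) r, ∑ l ∈ Icc r a,
        f k l a b := by
  have s1 : ∀ k, ∑ l ∈ Icc r (k + r), ∑ a ∈ Icc l (k + r), ∑ b ∈ Icc a (k + r), f k l a b =
      ∑ a ∈ Icc r (k + r), ∑ b ∈ Icc a (k + r), ∑ l ∈ Icc r a, f k l a b := by
    intro k
    rw [Finset.sum_comm' (t' := Icc r (k + r)) (s' := fun a => Icc r a)]
    · refine Finset.sum_congr rfl fun a _ => ?_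
      rw [Finset.sum_comm]
    · intro x y
      simp only [mem_Icc]
      omega
  rw [Finset.sum_congr rfl fun k _ => s1 k]
  rw [Finset.sum_comm' (t' := Ico r (2 * r)) (s' := fun a => Ico (a - r) r)]
  · refine Finset.sum_congr rfl fun a ha => ?_
    rw [Finset.sum_comm' (t' := Ico a (2 * r)) (s' := fun b => Ico (b - r) r)]
    intro x y
    simp only [mem_Icc, mem_Ico] at ha ⊢
    omega
  · intro x y
    simp only [mem_Icc, mem_Ico, mem_range]
    omega

theorem cyclic_abs (d : Derivation ℤ R R) (Z A : ℕ → ℕ → R) (hZ : ∀ i, Z i i = 1)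
    (hA : ∀ i, A i i = 1)
    (h1 : ∀ i j, i < j → ∑ l ∈ Icc i j, Z i l * A l j = 0)
    (h2 : ∀ i j, i < j → ∑ l ∈ Icc i j, A i l * Z l j = 0) (r : ℕ) (hr : 1 ≤ r)
    (hZr : ∀ i j, Z (i + r) (j + r) = Z i j) (hAr : ∀ i j, A (i + r) (j + r) = A i j) (c : R)
    (hc : ∑ k ∈ range r, ∑ l ∈ Icc r (k + r), Z k l * A l (k + r) = c) :
    ∑ k ∈ range r, ∑ l ∈ Ioc k (k + r), d (Z k l) * A l (k + r) = d c := by
  have hW0 : ∀ i, d (Z i i) = 0 := fun i => by rw [hZ, Derivation.map_one_eq_zero]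
  have hd : d c = ∑ k ∈ range r, ∑ l ∈ Icc r (k + r), d (Z k l) * A l (k + r) +
      ∑ k ∈ range r, ∑ l ∈ Icc r (k + r), Z k l * d (A l (k + r)) := by
    rw [← hc, map_sum, ← Finset.sum_add_distrib]
    refine Finset.sum_congr rfl fun k _ => ?_
    rw [map_sum, ← Finset.sum_add_distrib]
    refine Finset.sum_congr rfl fun l _ => ?_
    rw [Derivation.leibniz, smul_eq_mul, smul_eq_mul]
    ring
  have h3 : ∑ k ∈ range r, ∑ l ∈ Icc r (k + r), Z k l * d (A l (k + r)) =
      - ∑ k ∈ range r, ∑ l ∈ Icc r (k + r), ∑ a ∈ Icc l (k + r), ∑ b ∈ Icc a (k + r),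
        d (Z a b) * (A b (k + r) * Z k l * A l a) := by
    rw [← Finset.sum_neg_distrib]
    refine Finset.sum_congr rfl fun k _ => ?_
    rw [← Finset.sum_neg_distrib]
    refine Finset.sum_congr rfl fun l hl => ?_
    rw [dA d Z A hZ hA h1 h2 l (k + r) (Finset.mem_Icc.1 hl).2, mul_neg, Finset.mul_sum]
    congr 1
    refine Finset.sum_congr rfl fun a _ => ?_
    rw [Finset.mul_sum]
    refine Finset.sum_congr rfl fun b _ => ?_
    ring
  have h4 : ∑ a ∈ Ico r (2 * r), ∑ b ∈ Ico a (2 * r), ∑ k ∈ Ico (b - r) r, ∑ l ∈ Icc r a,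
        d (Z a b) * (A b (k + r) * Z k l * A l a) =
      - ∑ a ∈ Ico r (2 * r), ∑ b ∈ Ico a (2 * r), d (Z a b) * A (b - r) a := by
    rw [← Finset.sum_neg_distrib]
    refine Finset.sum_congr rfl fun a ha => ?_
    rw [← Finset.sum_neg_distrib]
    refine Finset.sum_congr rfl fun b hb => ?_
    rw [Finset.mem_Ico] at ha hb
    rcases Nat.eq_or_lt_of_le hb.1 with hab | hab
    · subst hab
      simp [hW0]
    · have e1 : Icc (b - r) (r - 1) = Ico (b - r) r := by
        ext x; simp only [mem_Icc, mem_Ico]; omega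
      have e2 : Ioc (r - 1) a = Icc r a := by
        ext x; simp only [mem_Icc, mem_Ioc]; omega
      have key := R2 Z A hZ hA h1 h2 (b - r) (r - 1) a (by omega) (by omega)
      rw [e1, e2] at key
      rw [← mul_neg, ← key, Finset.mul_sum]
      refine Finset.sum_congr rfl fun k _ => ?_
      rw [Finset.mul_sum]
      refine Finset.sum_congr rfl fun l _ => ?_
      have : A b (k + r) = A (b - r) k := by
        rw [← hAr (b - r) k]; congr 1; omega
      rw [this]
  have h5 : ∑ a ∈ Ico r (2 * r), ∑ b ∈ Ico a (2 * r), d (Z a b) * A (b - r) a =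
      ∑ k ∈ range r, ∑ l ∈ Ico k r, d (Z k l) * A l (k + r) := by
    rw [Finset.range_eq_Ico]
    have e3 : Ico r (2 * r) = Ico (0 + r) (r + r) := by rw [zero_add, two_mul]
    rw [e3, ← Finset.sum_Ico_add' _ 0 r r]
    refine Finset.sum_congr rfl fun a _ => ?_
    have e4 : Ico (a + r) (2 * r) = Ico (a + r) (r + r) := by rw [two_mul]
    rw [e4, ← Finset.sum_Ico_add' _ a r r]
    refine Finset.sum_congr rfl fun b _ => ?_
    rw [hZr, Nat.add_sub_cancel]
  rw [hd, h3, A8_swap r (fun k l a b => d (Z a b) * (A b (k + r) * Z k l * A l a)), h4, h5, neg_neg,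
    ← Finset.sum_add_distrib]
  refine Finset.sum_congr rfl fun k hk => ?_
  rw [Finset.mem_range] at hk
  have e5 : Icc k (k + r) = Ico k r ∪ Icc r (k + r) := by
    ext x; simp only [mem_Icc, mem_Ico, mem_union]; omega
  have e6 : Disjoint (Ico k r) (Icc r (k + r)) := by
    rw [Finset.disjoint_left]
    intro x; simp only [mem_Icc, mem_Ico]; omega
  have e7 : Icc k (k + r) = insert k (Ioc k (k + r)) := by
    ext x; simp only [mem_Icc, mem_Ioc, mem_insert]; omega
  rw [add_comm (∑ l ∈ Icc r (k + r), _) (∑ l ∈ Ico k r, _), ← Finset.sum_union e6, ← e5, e7,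
    Finset.sum_insert (by simp), hW0, zero_mul, zero_add]

end Pool.Agent.HF
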