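import Pool.Agent.LibHF31.A5
import Pool.Agent.LibHF31.A5b
import Pool.Agent.LibHF31.A6
import Pool.Agent.LibHF31.A8

/-!
[HF A9] the derived cyclic identity for a circular word.
-/

set_option autoImplicit false

namespace Pool.Agent.HF

open Finset

private theorem A9_take (x : ℕ → ℕ) {i l j : ℕ} (hil : i ≤ l) (hlj : l ≤ j) :
    (seg x i j).take (l - i) = seg x i l := by
  unfold seg
  rw [← List.map_take, List.take_range, min_eq_left (by omega)]

private theorem A9_drop (x : ℕ → ℕ) {i l j : ℕ} (hil : i ≤ l) (hlj : l ≤ j) :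
    (seg x i j).drop (l - i) = seg x l j := by
  unfold seg
  apply List.ext_getElem
  · simp; omega
  · intro n h1 h2
    simp only [List.getElem_drop, List.getElem_map, List.getElem_range]
    congr 1; omega

private theorem A9_length (x : ℕ → ℕ) (i j : ℕ) : (seg x i j).length = j - i := by
  simp [seg]

private theorem A9_per (x : ℕ → ℕ) (r : ℕ) (hx : ∀ i, x (i + r) = x i) (i j : ℕ) :
    seg x (i + r) (j + r) = seg x i j := by
  unfold seg
  rw [Nat.add_sub_add_right]
  refine List.map_congr_left fun t _ => ?_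
  rw [← hx (i + t)]
  congr 1; omega

private theorem A9_sum_Icc (f : ℕ → ℂ) {i j : ℕ} (hij : i ≤ j) :
    ∑ l ∈ Icc i j, f l = ∑ n ∈ range (j - i + 1), f (i + n) := by
  have : Icc i j = Ico i (j + 1) := by
    ext x; simp only [mem_Icc, mem_Ico]; omega
  rw [this, Finset.sum_Ico_eq_sum_range]
  congr 2; omega

private theorem A9_par (a b : ℕ) (h : Even (a + b)) : (-1 : ℂ) ^ a = (-1) ^ b := by
  rcases Nat.even_or_odd a with ha | ha
  · have hb : Even b := (Nat.even_add.1 h).1 ha
    rw [ha.neg_one_pow, hb.neg_one_pow]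
  · have hb : Odd b := by
      rw [← Nat.not_even_iff_odd] at ha ⊢
      exact fun hb => ha ((Nat.even_add.1 h).2 hb)
    rw [ha.neg_one_pow, hb.neg_one_pow]

private theorem A9_zt_nil : zt [] = 1 := by
  rw [zt_eq_hG]; simp [hG]

private theorem A9_S_nil : S [] = 1 := by
  simp [S, ph]

/-- The derived cyclic identity. -/
theorem cyclic (d : Derivation ℤ ℂ ℂ) (L : List ℕ) (h0 : L ≠ []) (hL : ∀ x ∈ L, 2 ≤ x) :
    ∑ i ∈ range L.length, ∑ n ∈ range L.length, (-1 : ℂ) ^ n *
      (d (zt (arc L i (n + 1)) : ℂ) * (S (arc L (i + n + 1) (L.length - n - 1)) : ℂ)) =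
        d (zt [L.sum] : ℂ) := by
  obtain ⟨r, hr⟩ : ∃ r, r = L.length := ⟨_, rfl⟩
  have hr1 : 1 ≤ r := by
    rw [hr]; exact List.length_pos_iff.2 h0
  obtain ⟨x, hx⟩ : ∃ x : ℕ → ℕ, x = fun i => L.getD (i % r) 0 := ⟨_, rfl⟩
  have hxr : ∀ i, x (i + r) = x i := by
    intro i; rw [hx]; simp only [Nat.add_mod_right]
  have hx2 : ∀ i, 2 ≤ x i := by
    intro i
    rw [hx]
    have hlt : i % r < L.length := by rw [← hr]; exact Nat.mod_lt _ hr1
    simp only
    rw [List.getD_eq_getElem _ _ hlt]
    exact hL _ (List.getElem_mem hlt)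
  have hseg2 : ∀ i j, ∀ y ∈ seg x i j, 2 ≤ y := by
    intro i j y hy
    unfold seg at hy
    rw [List.mem_map] at hy
    obtain ⟨t, _, rfl⟩ := hy
    exact hx2 _
  have harc : ∀ i n, arc L i n = seg x i (i + n) := by
    intro i n
    unfold arc seg
    rw [Nat.add_sub_cancel_left, hx, hr]
  obtain ⟨Z, hZd⟩ : ∃ Z : ℕ → ℕ → ℂ, Z = fun i j => (zt (seg x i j) : ℂ) := ⟨_, rfl⟩
  obtain ⟨A, hAd⟩ : ∃ A : ℕ → ℕ → ℂ, A = fun i j => (-1) ^ (j - i) * (S (seg x i j) : ℂ) :=
    ⟨_, rfl⟩
  have hseg0 : ∀ i, seg x i i = [] := by intro i; simp [seg]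
  have hZ : ∀ i, Z i i = 1 := by
    intro i; rw [hZd]; simp only [hseg0, A9_zt_nil]; simp
  have hA : ∀ i, A i i = 1 := by
    intro i; rw [hAd]; simp only [hseg0, A9_S_nil]; simp
  have hne : ∀ i j, i < j → seg x i j ≠ [] := by
    intro i j hij h
    have := congrArg List.length h
    rw [A9_length] at this
    simp at this; omega
  have h1 : ∀ i j, i < j → ∑ l ∈ Icc i j, Z i l * A l j = 0 := by
    intro i j hij
    have key := ANl (seg x i j) (hseg2 i j) (hne i j hij)
    rw [A9_length] at key
    have key2 : (-1 : ℂ) ^ (j - i) * (∑ n ∈ range (j - i + 1), (((-1 : ℝ) ^ n *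
        (zt ((seg x i j).take n) * S ((seg x i j).drop n)) : ℝ) : ℂ)) = 0 := by
      rw [← Complex.ofReal_sum, key]; simp
    rw [A9_sum_Icc _ hij.le, ← key2, Finset.mul_sum]
    refine Finset.sum_congr rfl fun n hn => ?_
    rw [Finset.mem_range] at hn
    have t1 := A9_take x (i := i) (l := i + n) (j := j) (by omega) (by omega)
    have t2 := A9_drop x (i := i) (l := i + n) (j := j) (by omega) (by omega)
    rw [Nat.add_sub_cancel_left] at t1 t2
    rw [t1, t2, hZd, hAd]
    simp only
    push_cast
    have e : (-1 : ℂ) ^ (j - (i + n)) = (-1) ^ (j - i) * (-1) ^ n := by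
      rw [← pow_add]
      apply A9_par
      refine ⟨j - i, ?_⟩
      omega
    rw [e]
    ring
  have h2 : ∀ i j, i < j → ∑ l ∈ Icc i j, A i l * Z l j = 0 := by
    intro i j hij
    have key := ANr (seg x i j) (hseg2 i j) (hne i j hij)
    rw [A9_length] at key
    have key2 : (∑ n ∈ range (j - i + 1), (((-1 : ℝ) ^ n *
        (S ((seg x i j).take n) * zt ((seg x i j).drop n)) : ℝ) : ℂ)) = 0 := by
      rw [← Complex.ofReal_sum, key]; simp
    rw [A9_sum_Icc _ hij.le, ← key2]
    refine Finset.sum_congr rfl fun n hn => ?_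
    rw [Finset.mem_range] at hn
    have t1 := A9_take x (i := i) (l := i + n) (j := j) (by omega) (by omega)
    have t2 := A9_drop x (i := i) (l := i + n) (j := j) (by omega) (by omega)
    rw [Nat.add_sub_cancel_left] at t1 t2
    rw [t1, t2, hZd, hAd]
    simp only
    push_cast
    rw [Nat.add_sub_cancel_left]
    ring
  have hZr : ∀ i j, Z (i + r) (j + r) = Z i j := by
    intro i j; rw [hZd]; simp only [A9_per x r hxr]
  have hAr : ∀ i j, A (i + r) (j + r) = A i j := by
    intro i j; rw [hAd]; simp only [A9_per x r hxr, Nat.add_sub_add_right]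
  -- the cyclic sum
  have hsum : x (r - 1) + (seg x r (2 * r - 1)).sum = L.sum := by
    have e1 : seg x r (2 * r - 1) = L.take (r - 1) := by
      apply List.ext_getElem
      · rw [A9_length, List.length_take, ← hr]; omega
      · intro n h1 h2
        rw [A9_length] at h1
        unfold seg
        simp only [List.getElem_map, List.getElem_range, List.getElem_take]
        rw [hx]
        simp only
        rw [Nat.add_mod_left, Nat.mod_eq_of_lt (by omega), List.getD_eq_getElem _ _ (by omega)]
    have e2 : x (r - 1) = (L.drop (r - 1)).sum := by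
      rw [List.drop_eq_getElem_cons (by omega : r - 1 < L.length), List.sum_cons,
        List.drop_eq_nil_of_le (by omega), List.sum_nil, add_zero, hx]
      simp only
      rw [Nat.mod_eq_of_lt (by omega), List.getD_eq_getElem _ _ (by omega)]
    rw [e1, e2, add_comm, ← List.sum_append, List.take_append_drop]
  have hc : ∑ k ∈ range r, ∑ l ∈ Icc r (k + r), Z k l * A l (k + r) =
      (-1) ^ (r - 1) * (zt [L.sum] : ℂ) := by
    have key := C0 (x (r - 1)) (hx2 _) (seg x r (2 * r - 1)) (hseg2 _ _)
    rw [A9_length, hsum, show 2 * r - 1 - r = r - 1 by omega, Nat.sub_add_cancel hr1] at key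
    rw [← key, Complex.ofReal_sum, Finset.mul_sum]
    refine Finset.sum_congr rfl fun k hk => ?_
    rw [Finset.mem_range] at hk
    rw [A9_sum_Icc _ (by omega : r ≤ k + r), Nat.add_sub_cancel, Complex.ofReal_sum,
      Finset.mul_sum]
    refine Finset.sum_congr rfl fun j hj => ?_
    rw [Finset.mem_range] at hj
    have t1 : seg x k (r + j) =
        (seg x r (2 * r - 1)).drop k ++ x (r - 1) :: (seg x r (2 * r - 1)).take j := by
      have a1 := A9_drop x (i := r) (l := r + k) (j := 2 * r - 1) (by omega) (by omega)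
      have a2 := A9_take x (i := r) (l := r + j) (j := 2 * r - 1) (by omega) (by omega)
      rw [Nat.add_sub_cancel_left] at a1 a2
      have a3 : seg x (r + k) (2 * r - 1) = seg x k (r - 1) := by
        rw [← A9_per x r hxr k (r - 1)]
        congr 1 <;> omega
      rw [a1, a2, a3]
      apply List.ext_getElem
      · simp [A9_length]; omega
      · intro n g1 g2
        rw [A9_length] at g1
        rw [List.getElem_append]
        split_ifs with hn
        · unfold seg; simp
        · rw [A9_length] at hn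
          rw [List.getElem_cons]
          split_ifs with hn2
          · unfold seg; simp only [List.getElem_map, List.getElem_range]
            rw [A9_length] at hn2
            congr 1; omega
          · unfold seg at hn2 ⊢
            simp only [List.getElem_map, List.getElem_range, List.length_map, List.length_range]
              at hn2 ⊢
            congr 1; omega
    have t2 : seg x (r + j) (k + r) = ((seg x r (2 * r - 1)).take k).drop j := by
      have a2 := A9_take x (i := r) (l := r + k) (j := 2 * r - 1) (by omega) (by omega)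
      rw [Nat.add_sub_cancel_left] at a2
      rw [a2]
      have a1 := A9_drop x (i := r) (l := r + j) (j := r + k) (by omega) (by omega)
      rw [Nat.add_sub_cancel_left] at a1
      rw [a1, add_comm k r]
    rw [hZd, hAd]
    simp only
    rw [t1, t2]
    push_cast
    have e : (-1 : ℂ) ^ (k + r - (r + j)) = (-1) ^ (r - 1) * (-1) ^ (r - 1 - k + j) := by
      rw [← pow_add]
      apply A9_par
      refine ⟨r - 1, ?_⟩
      omega
    rw [e]
    ring
  have fin := cyclic_abs d Z A hZ hA h1 h2 r hr1 hZr hAr _ hc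
  have hdc : d ((-1) ^ (r - 1) * (zt [L.sum] : ℂ)) = (-1) ^ (r - 1) * d (zt [L.sum] : ℂ) := by
    rcases neg_one_pow_eq_or ℂ (r - 1) with h | h
    · rw [h, one_mul, one_mul]
    · rw [h, neg_one_mul, neg_one_mul, map_neg]
  rw [hdc] at fin
  have fin2 : d (zt [L.sum] : ℂ) = (-1) ^ (r - 1) *
      ∑ k ∈ range r, ∑ l ∈ Ioc k (k + r), d (Z k l) * A l (k + r) := by
    rw [fin, ← mul_assoc, ← pow_add, ← two_mul, pow_mul]
    simp
  rw [fin2, ← hr, Finset.mul_sum]
  refine Finset.sum_congr rfl fun k _ => ?_
  have e8 : Ioc k (k + r) = Ico (k + 1) (k + r + 1) := by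
    ext t; simp only [mem_Ioc, mem_Ico]; omega
  rw [e8, Finset.sum_Ico_eq_sum_range, show k + r + 1 - (k + 1) = r by omega, Finset.mul_sum]
  refine Finset.sum_congr rfl fun n hn => ?_
  rw [Finset.mem_range] at hn
  rw [harc, harc, hZd, hAd]
  simp only
  have e9 : k + n + 1 + (r - n - 1) = k + r := by omega
  rw [e9, show k + 1 + n = k + n + 1 by omega, show k + (n + 1) = k + n + 1 by omega]
  have e : (-1 : ℂ) ^ n = (-1) ^ (r - 1) * (-1) ^ (k + r - (k + n + 1)) := by
    rw [← pow_add]
    apply A9_par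
    refine ⟨r - 1, ?_⟩
    omega
  rw [e]
  ring

end Pool.Agent.HF
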