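import Pool.Agent.LibHF31.Defs

/-!
Definitions for block A (the derived cyclic identity).
-/

set_option autoImplicit false

namespace Pool.Agent.HF

open scoped ENNReal
open Finset

/-- `hb y K k = ∑_{k > k₁ > ⋯ > k_s > K} ∏ k_i ^ (-y_i)`. -/
noncomputable def hb : List ℕ → ℕ → ℕ → ℝ≥0∞
  | [], _, _ => 1
  | n :: y, K, k => ∑ k' ∈ Ioo K k, ((k' : ℝ≥0∞) ^ n)⁻¹ * hb y K k'

/-- `hG y K = ∑_{k₁ > ⋯ > k_s > K} ∏ k_i ^ (-y_i)`. -/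
noncomputable def hG : List ℕ → ℕ → ℝ≥0∞
  | [], _ => 1
  | n :: y, K => ∑' i : ℕ, (((K + 1 + i : ℕ) : ℝ≥0∞) ^ n)⁻¹ * hb y K (K + 1 + i)

end Pool.Agent.HF
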