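import Pool.Agent.LibHF31.Defs

/-!
[HF AL] arcs and complements as lists.

PLAN.  `List.ext_getElem` / `List.ext_get`: lengths (`length_arc`, `List.length_take`, `length_drop`), then compare the entries:
entry `t` of `arc L i n` is `L.getD ((i + t) % L.length) 0`; for `i + t < L.length` it is `L[i+t]`, for
`L.length ≤ i + t < 2 * L.length` it is `L[i + t - L.length]`.
-/

set_option autoImplicit false

namespace Pool.Agent.HF

open Finset

theorem length_arc (L : List ℕ) (i n : ℕ) : (arc L i n).length = n := by
  rw [arc, List.length_map, List.length_range]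

theorem arc_add_length (L : List ℕ) (i n : ℕ) : arc L (i + L.length) n = arc L i n := by
  unfold arc
  refine List.map_congr_left fun j _ => ?_
  have h : i + L.length + j = i + j + L.length := by omega
  rw [h, Nat.add_mod_right]

theorem mem_arc (L : List ℕ) (h0 : L ≠ []) (i n x : ℕ) (hx : x ∈ arc L i n) : x ∈ L := by
  unfold arc at hx
  rw [List.mem_map] at hx
  obtain ⟨j, -, rfl⟩ := hx
  have hlen : 0 < L.length := List.length_pos_iff.2 h0
  have hm : (i + j) % L.length < L.length := Nat.mod_lt _ hlen
  rw [List.getD_eq_getElem _ _ hm]
  exact List.getElem_mem hm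

/-- An arc that does not pass the origin. -/
theorem arc_eq (L : List ℕ) (i n : ℕ) (h : i + n ≤ L.length) : arc L i n = (L.drop i).take n := by
  refine List.ext_getElem ?_ fun t h1 h2 => ?_
  · rw [length_arc, List.length_take, List.length_drop]
    omega
  · rw [length_arc] at h1
    have h3 : i + t < L.length := by omega
    rw [List.getElem_take, List.getElem_drop]
    simp only [arc, List.getElem_map, List.getElem_range]
    rw [Nat.mod_eq_of_lt h3, List.getD_eq_getElem _ _ h3]

end Pool.Agent.HF
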