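import Pool.Agent.LibHF31.Defs
import Pool.Agent.LibHF31.AL

/-!
[HF AM] complements of arcs, splitting and rotation.

PLAN.  `List.ext_getElem`: lengths (`length_arc`), then compare the entries:
entry `t` of `arc L i n` is `L.getD ((i + t) % L.length) 0`; for `i + t < L.length` it is `L[i+t]`, for
`L.length ≤ i + t < 2 * L.length` it is `L[i + t - L.length]`.  For `arc_rotate` use `List.getElem_rotate`.
-/

set_option autoImplicit false

namespace Pool.Agent.HF

open Finset

private theorem AM_length (L : List ℕ) (i n : ℕ) : (arc L i n).length = n := by
  unfold arc
  rw [List.length_map, List.length_range]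

private theorem AM_get (L : List ℕ) (i n t : ℕ) (h : t < (arc L i n).length) :
    (arc L i n)[t] = L.getD ((i + t) % L.length) 0 := by
  unfold arc
  rw [List.getElem_map, List.getElem_range]

private theorem AM_low (L : List ℕ) (a : ℕ) (h : a < L.length) :
    L.getD (a % L.length) 0 = L[a] := by
  rw [Nat.mod_eq_of_lt h, List.getD_eq_getElem _ _ h]

private theorem AM_high (L : List ℕ) (a b : ℕ) (hab : a = b + L.length) (h : b < L.length) :
    L.getD (a % L.length) 0 = L[b] := by
  rw [hab, Nat.add_mod_right, Nat.mod_eq_of_lt h, List.getD_eq_getElem _ _ h]

/-- The complement of an arc that does not pass the origin. -/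
theorem rest_eq (L : List ℕ) (i n : ℕ) (h : i + n ≤ L.length) :
    arc L (i + n) (L.length - n) = L.drop (i + n) ++ L.take i := by
  refine List.ext_getElem ?_ fun t h1 h2 => ?_
  · rw [AM_length, List.length_append, List.length_drop, List.length_take]
    omega
  · have ht : t < L.length - n := by rwa [AM_length] at h1
    rw [AM_get, List.getElem_append]
    split_ifs with hlt
    · rw [List.length_drop] at hlt
      rw [AM_low L (i + n + t) (by omega), List.getElem_drop]
    · rw [List.length_drop] at hlt
      rw [List.getElem_take]
      simp only [List.length_drop]
      exact AM_high L _ _ (by omega) (by omega)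

/-- The complement of an arc that passes the origin. -/
theorem rest_eq' (L : List ℕ) (i n : ℕ) (hi : i < L.length) (hn : n ≤ L.length)
    (h : L.length < i + n) :
    arc L (i + n) (L.length - n) = (L.take i).drop (i + n - L.length) := by
  refine List.ext_getElem ?_ fun t h1 h2 => ?_
  · rw [AM_length, List.length_drop, List.length_take]
    omega
  · have ht : t < L.length - n := by rwa [AM_length] at h1
    rw [AM_get, List.getElem_drop, List.getElem_take]
    exact AM_high L _ _ (by omega) (by omega)

theorem arc_append (L : List ℕ) (i m n : ℕ) : arc L i (m + n) = arc L i m ++ arc L (i + m) n := by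
  refine List.ext_getElem ?_ fun t h1 h2 => ?_
  · rw [AM_length, List.length_append, AM_length, AM_length]
  · have ht : t < m + n := by rwa [AM_length] at h1
    rw [AM_get, List.getElem_append]
    split_ifs with hlt
    · rw [AM_get]
    · rw [AM_get]
      rw [AM_length] at hlt
      have e : i + m + (t - (arc L i m).length) = i + t := by
        rw [AM_length]
        omega
      rw [e]

/-- Arcs of a rotated word. -/
theorem arc_rotate (L : List ℕ) (t i n : ℕ) : arc (L.rotate t) i n = arc L (i + t) n := by
  refine List.ext_getElem ?_ fun s h1 h2 => ?_
  · rw [AM_length, AM_length]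
  · rw [AM_get, AM_get, List.length_rotate]
    by_cases h0 : L.length = 0
    · have hL : L = [] := List.length_eq_zero_iff.1 h0
      subst hL
      simp
    · have hpos : 0 < L.length := Nat.pos_of_ne_zero h0
      have hlt : (i + s) % L.length < (L.rotate t).length := by
        rw [List.length_rotate]
        exact Nat.mod_lt _ hpos
      have hlt' : (i + t + s) % L.length < L.length := Nat.mod_lt _ hpos
      rw [List.getD_eq_getElem _ _ hlt, List.getD_eq_getElem _ _ hlt', List.getElem_rotate]
      congr 1
      rw [Nat.mod_add_mod]
      congr 1
      omega

end Pool.Agent.HF
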