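import Pool.Agent.LibHF31.BDefs

/-!
[HF B1] monotonicity, linearity of the operators.
-/

set_option autoImplicit false

namespace Pool.Agent.HF

open scoped ENNReal
open Finset

theorem P_mono {n : ℕ} {f g : ℕ → ℝ≥0∞} {j : ℕ} (h : ∀ l, j ≤ l → f l ≤ g l) : P n f j ≤ P n g j := by
  unfold P
  refine ENNReal.tsum_le_tsum fun i => ?_
  gcongr
  exact h _ (by omega)

theorem Q_mono {f g : ℕ → ℝ≥0∞} {j : ℕ} (h : ∀ l, j + 1 ≤ l → f l ≤ g l) : Q f j ≤ Q g j := by
  unfold Q
  refine ENNReal.tsum_le_tsum fun i => ENNReal.tsum_le_tsum fun t => ?_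
  gcongr
  exact h _ (by omega)

theorem op_mono {n : ℕ} {f g : ℕ → ℝ≥0∞} {j : ℕ} (h : ∀ l, j ≤ l → f l ≤ g l) :
    op n f j ≤ op n g j := by
  unfold op
  split_ifs
  · exact Q_mono fun l hl => h l (by omega)
  · exact P_mono h

theorem B1_cons (a : ℕ) (u : List ℕ) (f : ℕ → ℝ≥0∞) : ph (a :: u) f = op a (ph u f) := rfl

theorem ph_mono (u : List ℕ) {f g : ℕ → ℝ≥0∞} {j : ℕ} (h : ∀ l, j ≤ l → f l ≤ g l) :
    ph u f j ≤ ph u g j := by
  induction u generalizing j with
  | nil => exact h j le_rfl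
  | cons a u ih =>
    rw [B1_cons, B1_cons]
    exact op_mono fun l hl => ih fun l' hl' => h l' (hl.trans hl')

theorem ph_mono0 (u : List ℕ) {f g : ℕ → ℝ≥0∞} {j : ℕ} (h : ∀ l, j + u.count 0 ≤ l → f l ≤ g l) :
    ph u f j ≤ ph u g j := by
  induction u generalizing j with
  | nil => exact h j (by simp)
  | cons a u ih =>
    rw [B1_cons, B1_cons]
    by_cases ha : a = 0
    · subst ha
      unfold op
      rw [if_pos rfl]
      refine Q_mono fun l hl => ih fun l' hl' => h l' ?_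
      rw [List.count_cons_self]
      omega
    · have hc : (a :: u).count 0 = u.count 0 := List.count_cons_of_ne ha
      rw [hc] at h
      exact op_mono fun l hl => ih fun l' hl' => h l' (by omega)

theorem op_smul (n : ℕ) (c : ℝ≥0∞) (f : ℕ → ℝ≥0∞) (j : ℕ) :
    op n (fun l => c * f l) j = c * op n f j := by
  unfold op
  split_ifs
  · unfold Q
    rw [← ENNReal.tsum_mul_left]
    refine tsum_congr fun i => ?_
    rw [← ENNReal.tsum_mul_left]
    refine tsum_congr fun t => ?_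
    ring
  · unfold P
    rw [← ENNReal.tsum_mul_left]
    refine tsum_congr fun i => ?_
    ring

theorem ph_smul (u : List ℕ) (c : ℝ≥0∞) (f : ℕ → ℝ≥0∞) (j : ℕ) :
    ph u (fun l => c * f l) j = c * ph u f j := by
  have key : ph u (fun l => c * f l) = fun l => c * ph u f l := by
    induction u with
    | nil => rfl
    | cons a u ih =>
      rw [B1_cons, B1_cons, ih]
      funext l
      exact op_smul a c _ l
  rw [key]

theorem op_add (n : ℕ) (f g : ℕ → ℝ≥0∞) (j : ℕ) :
    op n (fun l => f l + g l) j = op n f j + op n g j := by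
  unfold op
  split_ifs
  · unfold Q
    rw [← ENNReal.tsum_add]
    refine tsum_congr fun i => ?_
    rw [← ENNReal.tsum_add]
    refine tsum_congr fun t => ?_
    ring
  · unfold P
    rw [← ENNReal.tsum_add]
    refine tsum_congr fun i => ?_
    ring

theorem ph_add (u : List ℕ) (f g : ℕ → ℝ≥0∞) (j : ℕ) :
    ph u (fun l => f l + g l) j = ph u f j + ph u g j := by
  have key : ph u (fun l => f l + g l) = fun l => ph u f l + ph u g l := by
    induction u with
    | nil => rfl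
    | cons a u ih =>
      rw [B1_cons, B1_cons, B1_cons, ih]
      funext l
      exact op_add a _ _ l
  rw [key]

theorem ph_append (u v : List ℕ) (f : ℕ → ℝ≥0∞) : ph (u ++ v) f = ph u (ph v f) := by
  unfold ph
  rw [List.foldr_append]

theorem ph_le_smul (u : List ℕ) {c : ℝ≥0∞} {f g : ℕ → ℝ≥0∞} {j : ℕ}
    (h : ∀ l, j ≤ l → f l ≤ c * g l) : ph u f j ≤ c * ph u g j := by
  rw [← ph_smul]
  exact ph_mono u h

theorem ph_le_smul0 (u : List ℕ) {c : ℝ≥0∞} {f g : ℕ → ℝ≥0∞} {j : ℕ}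
    (h : ∀ l, j + u.count 0 ≤ l → f l ≤ c * g l) : ph u f j ≤ c * ph u g j := by
  rw [← ph_smul]
  exact ph_mono0 u h

theorem op_anti (n : ℕ) (f : ℕ → ℝ≥0∞) {j j' : ℕ} (h : j ≤ j') : op n f j' ≤ op n f j := by
  obtain ⟨d, rfl⟩ : ∃ d, j' = j + d := ⟨j' - j, by omega⟩
  have hinj : Function.Injective fun i : ℕ => d + i := fun a b hab => by
    simpa using hab
  unfold op
  split_ifs
  · unfold Q
    have h1 := ENNReal.tsum_comp_le_tsum_of_injective hinj (fun i : ℕ =>
      ∑' h : ℕ, ((h + 1 : ℕ) : ℝ≥0∞) *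
        ((((j + i : ℕ) : ℝ≥0∞) ^ 3)⁻¹ * ((((j + i + h + 1 : ℕ) : ℝ≥0∞) ^ 3)⁻¹ * f (j + i + h + 1))))
    refine le_trans (le_of_eq ?_) h1
    refine tsum_congr fun i => ?_
    simp only [← add_assoc]
  · unfold P
    have h1 := ENNReal.tsum_comp_le_tsum_of_injective hinj (fun i : ℕ =>
      (((j + i : ℕ) : ℝ≥0∞) ^ n)⁻¹ * f (j + i))
    refine le_trans (le_of_eq ?_) h1
    refine tsum_congr fun i => ?_
    simp only [← add_assoc]

theorem ph_anti (u : List ℕ) {f : ℕ → ℝ≥0∞} (hf : ∀ j j', j ≤ j' → f j' ≤ f j) {j j' : ℕ}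
    (h : j ≤ j') : ph u f j' ≤ ph u f j := by
  cases u with
  | nil => exact hf j j' h
  | cons a u => exact op_anti a _ h

end Pool.Agent.HF
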