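import Pool.Agent.LibHF31.B1

/-!
[HF B2] the commutator.
-/

set_option autoImplicit false

namespace Pool.Agent.HF

open scoped ENNReal
open Finset

theorem B2_pp (n m : ℕ) (f : ℕ → ℝ≥0∞) (j : ℕ) :
    P n (P m f) j = ∑' i : ℕ, ∑' h : ℕ, (((j + i : ℕ) : ℝ≥0∞) ^ n)⁻¹ *
      ((((j + i + h : ℕ) : ℝ≥0∞) ^ m)⁻¹ * f (j + i + h)) := by
  unfold P
  refine tsum_congr fun i => ?_
  rw [ENNReal.tsum_mul_left]

theorem B2_alg (k h : ℕ) (hk : 1 ≤ k) :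
    (((k : ℕ) : ℝ≥0∞) ^ 3)⁻¹ * (((k + h + 1 : ℕ) : ℝ≥0∞) ^ 2)⁻¹ =
      (((k : ℕ) : ℝ≥0∞) ^ 2)⁻¹ * (((k + h + 1 : ℕ) : ℝ≥0∞) ^ 3)⁻¹ +
        ((h + 1 : ℕ) : ℝ≥0∞) * ((((k : ℕ) : ℝ≥0∞) ^ 3)⁻¹ * (((k + h + 1 : ℕ) : ℝ≥0∞) ^ 3)⁻¹) := by
  have hk0 : (0 : ℝ) < (k : ℝ) := by exact_mod_cast hk
  have hl0 : (0 : ℝ) < ((k + h + 1 : ℕ) : ℝ) := by positivity
  have e1 : ((k : ℕ) : ℝ≥0∞) = ENNReal.ofReal (k : ℝ) := by simp
  have e2 : ((k + h + 1 : ℕ) : ℝ≥0∞) = ENNReal.ofReal ((k + h + 1 : ℕ) : ℝ) := by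
    rw [ENNReal.ofReal_natCast]
  have e3 : ((h + 1 : ℕ) : ℝ≥0∞) = ENNReal.ofReal ((h + 1 : ℕ) : ℝ) := by
    rw [ENNReal.ofReal_natCast]
  rw [e1, e2, e3]
  rw [← ENNReal.ofReal_pow hk0.le, ← ENNReal.ofReal_pow hk0.le, ← ENNReal.ofReal_pow hl0.le,
    ← ENNReal.ofReal_pow hl0.le, ← ENNReal.ofReal_inv_of_pos (by positivity),
    ← ENNReal.ofReal_inv_of_pos (by positivity), ← ENNReal.ofReal_inv_of_pos (by positivity),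
    ← ENNReal.ofReal_inv_of_pos (by positivity), ← ENNReal.ofReal_mul (by positivity),
    ← ENNReal.ofReal_mul (by positivity), ← ENNReal.ofReal_mul (by positivity),
    ← ENNReal.ofReal_mul (by positivity), ← ENNReal.ofReal_add (by positivity) (by positivity)]
  congr 1
  push_cast
  field_simp
  ring

theorem comm (f : ℕ → ℝ≥0∞) (j : ℕ) (hj : 1 ≤ j) : P 3 (P 2 f) j = P 2 (P 3 f) j + Q f j := by
  rw [B2_pp, B2_pp]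
  unfold Q
  rw [← ENNReal.tsum_add]
  refine tsum_congr fun i => ?_
  rw [tsum_eq_zero_add' ENNReal.summable, tsum_eq_zero_add' (f := fun h : ℕ =>
    (((j + i : ℕ) : ℝ≥0∞) ^ 2)⁻¹ * ((((j + i + h : ℕ) : ℝ≥0∞) ^ 3)⁻¹ * f (j + i + h)))
    ENNReal.summable]
  refine Eq.trans ?_ (add_assoc _ _ _).symm
  rw [← ENNReal.tsum_add]
  congr 1
  · simp only [add_zero]
    ring
  · refine tsum_congr fun h => ?_
    have h1 := B2_alg (j + i) h (by omega)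
    have e : j + i + (h + 1) = j + i + h + 1 := by ring
    rw [e, ← mul_assoc, h1]
    ring

theorem Q_le_PP (f : ℕ → ℝ≥0∞) (j : ℕ) (hj : 1 ≤ j) : Q f j ≤ P 3 (P 2 f) j := by
  rw [comm f j hj]
  exact le_add_self

end Pool.Agent.HF
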