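import Pool.Agent.LibHF31.B2

/-!
[HF B3] bounds for the operators.

PLAN.  `tail_le'`: telescoping `1 / l² ≤ 1 / (l - 1/2) - 1 / (l + 1/2)`: `∑_{l ≥ j} 1 / l² ≤ 1 / (j - 1/2) = 2 / (2 j - 1)`; prove it for the partial sums in `ℝ`
(`∑_{i<N} 1/(j+i)² ≤ 2/(2j-1) - 2/(2(j+N)-1)` by induction on `N`) and pass to `ℝ≥0∞` with `ENNReal.tsum_le_of_sum_range_le`; then
`2 / (2j-1) ≤ 2 / j` for `j ≥ 1`, `≤ 2/3` for `j ≥ 2`.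
`P_le`, `P_le2`: `((j+i)^n)⁻¹ ≤ ((j+i)^2)⁻¹` for `n ≥ 2`, `j + i ≥ 1`, and `f ≤ B`.
`P3_le`: `((j+i)^3)⁻¹ ≤ j⁻¹ * ((j+i)^2)⁻¹`.
`Q_le`: `Q f j ≤ P 3 (P 2 f) j` (`Q_le_PP`), and `P 2 f l ≤ 2 * l⁻¹ * f l ≤ 2 * j⁻¹ * f l` for `l ≥ j` (`P_le` with `B = f l`), `P_mono`, `op_smul`.
`P_one`: `tsum_eq_zero_add'`, `1 + (i + 1) = 2 + i`.
-/

set_option autoImplicit false

namespace Pool.Agent.HF

open scoped ENNReal
open Finset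

private theorem B3_real (j : ℕ) (hj : 1 ≤ j) (N : ℕ) :
    ∑ i ∈ range N, (((j + i : ℕ) : ℝ) ^ 2)⁻¹ ≤ 2 / (2 * (j : ℝ) - 1) - 2 / (2 * ((j : ℝ) + N) - 1) := by
  have hj1 : (1 : ℝ) ≤ j := by exact_mod_cast hj
  induction N with
  | zero => simp
  | succ N ih =>
    rw [Finset.sum_range_succ]
    have hN : (0 : ℝ) ≤ N := Nat.cast_nonneg N
    have h1 : (((j + N : ℕ) : ℝ) ^ 2)⁻¹ ≤
        2 / (2 * ((j : ℝ) + N) - 1) - 2 / (2 * ((j : ℝ) + (N + 1 : ℕ)) - 1) := by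
      push_cast
      have h2 : (0 : ℝ) < 2 * ((j : ℝ) + N) - 1 := by linarith
      have h3 : (0 : ℝ) < 2 * ((j : ℝ) + (N + 1)) - 1 := by linarith
      have h4 : (0 : ℝ) < (j : ℝ) + N := by linarith
      rw [div_sub_div _ _ h2.ne' h3.ne', ← one_div, div_le_div_iff₀ (by positivity)
        (mul_pos h2 h3)]
      nlinarith
    linarith

private theorem B3_tail (j : ℕ) (hj : 1 ≤ j) (c : ℝ) (hc : 2 / (2 * (j : ℝ) - 1) ≤ c) :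
    ∑' i : ℕ, (((j + i : ℕ) : ℝ≥0∞) ^ 2)⁻¹ ≤ ENNReal.ofReal c := by
  refine ENNReal.tsum_le_of_sum_range_le fun N => ?_
  have hj1 : (1 : ℝ) ≤ j := by exact_mod_cast hj
  have h1 : ∀ i ∈ range N, (((j + i : ℕ) : ℝ≥0∞) ^ 2)⁻¹ =
      ENNReal.ofReal ((((j + i : ℕ) : ℝ) ^ 2)⁻¹) := by
    intro i _
    have h2 : (0 : ℝ) < ((j + i : ℕ) : ℝ) := by
      exact_mod_cast (by omega : 0 < j + i)
    rw [ENNReal.ofReal_inv_of_pos (by positivity), ENNReal.ofReal_pow h2.le,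
      ENNReal.ofReal_natCast]
  rw [Finset.sum_congr rfl h1, ← ENNReal.ofReal_sum_of_nonneg (fun i _ => by positivity)]
  refine ENNReal.ofReal_le_ofReal ((B3_real j hj N).trans ?_)
  have hN : (0 : ℝ) ≤ N := Nat.cast_nonneg N
  have h3 : (0 : ℝ) ≤ 2 / (2 * ((j : ℝ) + N) - 1) := div_nonneg (by norm_num) (by linarith)
  linarith

theorem tail_le (j : ℕ) (hj : 1 ≤ j) :
    ∑' i : ℕ, (((j + i : ℕ) : ℝ≥0∞) ^ 2)⁻¹ ≤ 2 * (j : ℝ≥0∞)⁻¹ := by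
  have hj1 : (1 : ℝ) ≤ j := by exact_mod_cast hj
  refine (B3_tail j hj (2 * (j : ℝ)⁻¹) ?_).trans (le_of_eq ?_)
  · rw [← div_eq_mul_inv]
    exact div_le_div_of_nonneg_left (by norm_num) (by linarith) (by linarith)
  · rw [ENNReal.ofReal_mul (by norm_num), ENNReal.ofReal_inv_of_pos (by linarith),
      ENNReal.ofReal_natCast, ENNReal.ofReal_ofNat]

theorem tail2_le (j : ℕ) (hj : 2 ≤ j) :
    ∑' i : ℕ, (((j + i : ℕ) : ℝ≥0∞) ^ 2)⁻¹ ≤ 2 / 3 := by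
  have hj1 : (2 : ℝ) ≤ j := by exact_mod_cast hj
  refine (B3_tail j (by omega) (2 / 3) ?_).trans (le_of_eq ?_)
  · exact div_le_div_of_nonneg_left (by norm_num) (by linarith) (by linarith)
  · rw [ENNReal.ofReal_div_of_pos (by norm_num), ENNReal.ofReal_ofNat, ENNReal.ofReal_ofNat]

private theorem B3_P {n : ℕ} (hn : 2 ≤ n) {j : ℕ} (hj : 1 ≤ j) {f : ℕ → ℝ≥0∞} {B c : ℝ≥0∞}
    (h : ∀ l, j ≤ l → f l ≤ B) (hc : ∑' i : ℕ, (((j + i : ℕ) : ℝ≥0∞) ^ 2)⁻¹ ≤ c) :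
    P n f j ≤ c * B := by
  refine le_trans ?_ (mul_le_mul_left hc B)
  rw [P, ← ENNReal.tsum_mul_right]
  refine ENNReal.tsum_le_tsum fun i => ?_
  refine mul_le_mul' (ENNReal.inv_le_inv.2 (pow_le_pow_right₀ ?_ hn)) (h _ (Nat.le_add_right _ _))
  exact_mod_cast (by omega : 1 ≤ j + i)

theorem P_le {n : ℕ} (hn : 2 ≤ n) {j : ℕ} (hj : 1 ≤ j) {f : ℕ → ℝ≥0∞} {B : ℝ≥0∞}
    (h : ∀ l, j ≤ l → f l ≤ B) : P n f j ≤ 2 * (j : ℝ≥0∞)⁻¹ * B :=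
  B3_P hn hj h (tail_le j hj)

theorem P_le2 {n : ℕ} (hn : 2 ≤ n) {j : ℕ} (hj : 2 ≤ j) {f : ℕ → ℝ≥0∞} {B : ℝ≥0∞}
    (h : ∀ l, j ≤ l → f l ≤ B) : P n f j ≤ 2 / 3 * B :=
  B3_P hn (by omega) h (tail2_le j hj)

theorem P3_le (f : ℕ → ℝ≥0∞) (j : ℕ) (hj : 1 ≤ j) : P 3 f j ≤ (j : ℝ≥0∞)⁻¹ * P 2 f j := by
  rw [P, P, ← ENNReal.tsum_mul_left]
  refine ENNReal.tsum_le_tsum fun i => ?_
  rw [← mul_assoc]
  refine mul_le_mul' ?_ le_rfl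
  have h0 : ((j + i : ℕ) : ℝ≥0∞) ≠ 0 := by
    exact_mod_cast (by omega : j + i ≠ 0)
  have ht : ((j + i : ℕ) : ℝ≥0∞) ≠ ∞ := ENNReal.natCast_ne_top _
  rw [pow_succ, ENNReal.mul_inv (Or.inl (pow_ne_zero 2 h0)) (Or.inl (ENNReal.pow_ne_top ht)),
    mul_comm]
  refine mul_le_mul' (ENNReal.inv_le_inv.2 ?_) le_rfl
  exact_mod_cast (Nat.le_add_right j i)

theorem Q_le {f : ℕ → ℝ≥0∞} (hf : ∀ j j', j ≤ j' → f j' ≤ f j) {j : ℕ} (hj : 1 ≤ j) :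
    Q f j ≤ 2 * (j : ℝ≥0∞)⁻¹ * P 3 f j := by
  refine (Q_le_PP f j hj).trans ?_
  have h1 : P 3 (P 2 f) j ≤ P 3 (fun l => 2 * (j : ℝ≥0∞)⁻¹ * f l) j := by
    refine P_mono fun l hl => ?_
    refine (P_le le_rfl (hj.trans hl) (B := f l) fun m hm => hf l m hm).trans ?_
    refine mul_le_mul' (mul_le_mul' le_rfl (ENNReal.inv_le_inv.2 ?_)) le_rfl
    exact_mod_cast hl
  refine h1.trans (le_of_eq ?_)
  have h2 := op_smul 3 (2 * (j : ℝ≥0∞)⁻¹) f j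
  have h3 : op 3 = P 3 := if_neg (by norm_num)
  rwa [h3] at h2

theorem P_one (n : ℕ) (f : ℕ → ℝ≥0∞) : P n f 1 = f 1 + P n f 2 := by
  rw [P, tsum_eq_zero_add' ENNReal.summable, P]
  congr 1
  · rw [Nat.add_zero, Nat.cast_one, one_pow, inv_one, one_mul]
  · refine tsum_congr fun i => ?_
    have h1 : 1 + (i + 1) = 2 + i := by ring
    rw [h1]

end Pool.Agent.HF
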