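import Pool.Agent.LibHF31.B3

/-!
[HF B4] bounds for words.

PLAN.  `ph_bd2`: induction on `u` (for all `j ≥ 2`): letter `2`, `3`: `P_le2`; letter `0`: `Q_le_PP` and `P_le2` twice, `(2/3)^2 ≤ 2/3`.
`ph_begin`: induction on `v`, the stronger bound `ph v g 1 ≤ g 1 + (∑ t ∈ range v.length, (2/3)^(t+1)) * M` (`P_one`, and `P a (ph v g) 2 = ph (a :: v) g 2 ≤ (2/3)^(v.length+1) * M` by `ph_bd2`);
the sum is `≤ 2`.  `ph_begin'`: `P_one`.
`ph_bd23`: `j = 1`: `ph_begin` with `M = B`; `j ≥ 2`: `ph_bd2`, `(2/3)^_ ≤ 1`.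
`ph_bd1`: induction on `u` with the bound `9 ^ (count 0 u) * 3 * B` is awkward; simplest: `ph_bd1` for `u = v ++ 0 :: u'` with `v` free of `0` (`List.takeWhile`), or prove by
strong induction: `ph u f l ≤ 9 ^ (u.count 0) * (3 * B)` where a maximal `0`-free prefix costs `3` and a `0` costs `3` (`Q g l ≤ P 3 (P 2 g) l = ph [3,2] g l ≤ 3 * sup g`, by `ph_bd23`).
`ph_fin`: `ph_bd1` with `f = 1`, `B = 1`.
-/

set_option autoImplicit false

namespace Pool.Agent.HF

open scoped ENNReal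
open Finset

private theorem B4_cons (a : ℕ) (u : List ℕ) (f : ℕ → ℝ≥0∞) : ph (a :: u) f = op a (ph u f) := rfl

private theorem B4_op0 (f : ℕ → ℝ≥0∞) : op 0 f = Q f := by
  simp [op]

private theorem B4_op2 (f : ℕ → ℝ≥0∞) : op 2 f = P 2 f := by
  simp [op]

private theorem B4_op3 (f : ℕ → ℝ≥0∞) : op 3 f = P 3 f := by
  simp [op]

private theorem B4_23 : (2 / 3 : ℝ≥0∞) ≤ 1 := by
  rw [ENNReal.div_le_iff (by norm_num) (by norm_num), one_mul]
  exact_mod_cast (by norm_num : (2 : ℕ) ≤ 3)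

private theorem B4_tail {a : ℕ} {u : List ℕ} (hu : W023 (a :: u)) : W023 u :=
  fun b hb => hu b (List.mem_cons_of_mem a hb)

theorem ph_bd2 {u : List ℕ} (hu : W023 u) {f : ℕ → ℝ≥0∞} {B : ℝ≥0∞} (hf : ∀ l, 2 ≤ l → f l ≤ B)
    {j : ℕ} (hj : 2 ≤ j) : ph u f j ≤ (2 / 3) ^ u.length * B := by
  induction u generalizing j with
  | nil =>
    show f j ≤ _
    rw [List.length_nil, pow_zero, one_mul]
    exact hf j hj
  | cons a u ih =>
    have ih' : ∀ l, 2 ≤ l → ph u f l ≤ (2 / 3) ^ u.length * B := fun l hl => ih (B4_tail hu) hl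
    rw [B4_cons, List.length_cons, pow_succ', mul_assoc]
    rcases hu a (by simp) with h | h | h
    · subst h
      rw [B4_op0]
      have h1 : ∀ l, j ≤ l → P 2 (ph u f) l ≤ 2 / 3 * ((2 / 3) ^ u.length * B) := fun l hl =>
        P_le2 le_rfl (by omega) fun l' hl' => ih' l' (by omega)
      calc Q (ph u f) j ≤ P 3 (P 2 (ph u f)) j := Q_le_PP _ j (by omega)
        _ ≤ 2 / 3 * (2 / 3 * ((2 / 3) ^ u.length * B)) := P_le2 (by norm_num) hj h1
        _ ≤ 2 / 3 * (1 * ((2 / 3) ^ u.length * B)) :=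
            mul_le_mul_right (mul_le_mul_left B4_23 _) _
        _ = 2 / 3 * ((2 / 3) ^ u.length * B) := by rw [one_mul]
    · subst h
      rw [B4_op2]
      exact P_le2 le_rfl hj fun l' hl' => ih' l' (by omega)
    · subst h
      rw [B4_op3]
      exact P_le2 (by norm_num) hj fun l' hl' => ih' l' (by omega)

private theorem B4_op {a : ℕ} (ha : a = 2 ∨ a = 3) (f : ℕ → ℝ≥0∞) : op a f = P a f := by
  rcases ha with rfl | rfl
  · exact B4_op2 f
  · exact B4_op3 f

private theorem B4_sum (N : ℕ) :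
    (∑ t ∈ range N, (2 / 3 : ℝ≥0∞) ^ (t + 1)) + 2 * (2 / 3) ^ N = 2 := by
  induction N with
  | zero => simp
  | succ N ih =>
    have h3 : (3 : ℝ≥0∞) * (2 / 3) = 2 := ENNReal.mul_div_cancel (by norm_num) (by norm_num)
    rw [Finset.sum_range_succ, add_assoc]
    have h1 : (2 / 3 : ℝ≥0∞) ^ (N + 1) + 2 * (2 / 3) ^ (N + 1) = 2 * (2 / 3) ^ N := by
      have h2 : (2 / 3 : ℝ≥0∞) ^ (N + 1) + 2 * (2 / 3) ^ (N + 1) = 3 * (2 / 3) ^ (N + 1) := by
        ring
      rw [h2, pow_succ', ← mul_assoc, h3]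
    rw [h1, ih]

private theorem B4_begin {v : List ℕ} (hv : W23 v) {g : ℕ → ℝ≥0∞} {M : ℝ≥0∞}
    (hg : ∀ l, 2 ≤ l → g l ≤ M) :
    ph v g 1 ≤ g 1 + (∑ t ∈ range v.length, (2 / 3 : ℝ≥0∞) ^ (t + 1)) * M := by
  induction v with
  | nil =>
    show g 1 ≤ _
    simp
  | cons a v ih =>
    have hv' : W23 v := fun b hb => hv b (List.mem_cons_of_mem a hb)
    have ha := hv a (by simp)
    have h1 : ph (a :: v) g 1 = ph v g 1 + ph (a :: v) g 2 := by
      rw [B4_cons, B4_op ha]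
      exact P_one a _
    have h2 : ph (a :: v) g 2 ≤ (2 / 3) ^ (v.length + 1) * M := ph_bd2 hv.to0 hg le_rfl
    rw [h1, List.length_cons, Finset.sum_range_succ, add_mul, ← add_assoc]
    exact add_le_add (ih hv') h2

theorem ph_begin {v : List ℕ} (hv : W23 v) {g : ℕ → ℝ≥0∞} {M : ℝ≥0∞} (hg : ∀ l, 2 ≤ l → g l ≤ M) :
    ph v g 1 ≤ g 1 + 2 * M := by
  refine (B4_begin hv hg).trans ?_
  gcongr
  calc ∑ t ∈ range v.length, (2 / 3 : ℝ≥0∞) ^ (t + 1)
      ≤ (∑ t ∈ range v.length, (2 / 3 : ℝ≥0∞) ^ (t + 1)) + 2 * (2 / 3) ^ v.length := le_self_add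
    _ = 2 := B4_sum _

theorem ph_begin' {v : List ℕ} (hv : W23 v) (g : ℕ → ℝ≥0∞) : g 1 ≤ ph v g 1 := by
  induction v with
  | nil => exact le_rfl
  | cons a v ih =>
    have hv' : W23 v := fun b hb => hv b (List.mem_cons_of_mem a hb)
    have ha := hv a (by simp)
    rw [B4_cons, B4_op ha, P_one]
    exact (ih hv').trans le_self_add

theorem ph_bd23 {u : List ℕ} (hu : W23 u) {f : ℕ → ℝ≥0∞} {B : ℝ≥0∞} (hf : ∀ l, 1 ≤ l → f l ≤ B)
    {j : ℕ} (hj : 1 ≤ j) : ph u f j ≤ 3 * B := by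
  rcases Nat.lt_or_ge j 2 with h | h
  · have hj1 : j = 1 := by omega
    subst hj1
    calc ph u f 1 ≤ f 1 + 2 * B := ph_begin hu fun l hl => hf l (by omega)
      _ ≤ B + 2 * B := by
          gcongr
          exact hf 1 le_rfl
      _ = 3 * B := by ring
  · calc ph u f j ≤ (2 / 3) ^ u.length * B := ph_bd2 hu.to0 (fun l hl => hf l (by omega)) h
      _ ≤ 3 * B := by
          gcongr
          calc (2 / 3 : ℝ≥0∞) ^ u.length ≤ 1 := pow_le_one' B4_23 _
            _ ≤ 3 := by norm_num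

private theorem B4_bd (n : ℕ) : ∀ (u : List ℕ), u.length ≤ n → W023 u →
    ∀ {f : ℕ → ℝ≥0∞} {B : ℝ≥0∞}, (∀ l, 1 ≤ l → f l ≤ B) →
    ∀ j : ℕ, 1 ≤ j → ph u f j ≤ 9 ^ (u.count 0 + 1) * B := by
  induction n with
  | zero =>
    intro u hn hu f B hf j hj
    have h0 : u = [] := List.eq_nil_of_length_eq_zero (by omega)
    subst h0
    calc f j ≤ 1 * B := by rw [one_mul]; exact hf j hj
      _ ≤ 9 ^ (List.count 0 [] + 1) * B := by
          gcongr
          exact one_le_pow₀ (by norm_num)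
  | succ n ih =>
    intro u hn hu f B hf j hj
    by_cases h0 : 0 ∈ u
    · obtain ⟨v, u', rfl, hv⟩ := List.eq_append_cons_of_mem h0
      have hv23 : W23 v := by
        intro a ha
        rcases hu a (List.mem_append_left _ ha) with h | h
        · exact absurd (h ▸ ha) hv
        · exact h
      have hu' : W023 u' := fun a ha => hu a (by simp [ha])
      have hlen : u'.length ≤ n := by
        rw [List.length_append, List.length_cons] at hn
        omega
      have h1 : ∀ l, 1 ≤ l → ph u' f l ≤ 9 ^ (u'.count 0 + 1) * B := fun l hl =>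
        ih u' hlen hu' hf l hl
      have h2 : ∀ l, 1 ≤ l → Q (ph u' f) l ≤ 3 * (9 ^ (u'.count 0 + 1) * B) := fun l hl =>
        (Q_le_PP _ l hl).trans (by
          have h3 := ph_bd23 (u := [3, 2]) (fun a ha => by
            simp at ha
            tauto) h1 hl
          have h4 : ph [3, 2] (ph u' f) = P 3 (P 2 (ph u' f)) := by
            rw [B4_cons, B4_cons, B4_op3, B4_op2]
            rfl
          rw [h4] at h3
          exact h3)
      have h5 : ph (v ++ 0 :: u') f = ph v (Q (ph u' f)) := by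
        rw [ph_append, B4_cons, B4_op0]
      have hc : (v ++ 0 :: u').count 0 = u'.count 0 + 1 := by
        rw [List.count_append, List.count_cons_self, List.count_eq_zero_of_not_mem hv, zero_add]
      rw [h5, hc]
      calc ph v (Q (ph u' f)) j ≤ 3 * (3 * (9 ^ (u'.count 0 + 1) * B)) := ph_bd23 hv23 h2 hj
        _ = 9 ^ (u'.count 0 + 1 + 1) * B := by ring
    · have hu23 : W23 u := by
        intro a ha
        rcases hu a ha with h | h
        · exact absurd (h ▸ ha) h0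
        · exact h
      rw [List.count_eq_zero_of_not_mem h0, zero_add, pow_one]
      refine (ph_bd23 hu23 hf hj).trans ?_
      gcongr
      norm_num

theorem ph_bd1 {u : List ℕ} (hu : W023 u) {f : ℕ → ℝ≥0∞} {B : ℝ≥0∞} (hf : ∀ l, 1 ≤ l → f l ≤ B)
    {j : ℕ} (hj : 1 ≤ j) : ph u f j ≤ 9 ^ (u.count 0 + 1) * B :=
  B4_bd u.length u le_rfl hu hf j hj

theorem ph_fin {u : List ℕ} (hu : W023 u) {j : ℕ} (hj : 1 ≤ j) : ph u (fun _ => 1) j < ⊤ := by
  refine lt_of_le_of_lt (ph_bd1 hu (B := 1) (fun l _ => le_rfl) hj) ?_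
  rw [mul_one]
  exact ENNReal.pow_lt_top (by norm_num)

end Pool.Agent.HF
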