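import Pool.Agent.LibHF31.B4

/-!
[HF B5] star sums: the beginning of a word is irrelevant; a commutator before a long word is negligible.
-/

set_option autoImplicit false

namespace Pool.Agent.HF

open scoped ENNReal
open Finset

theorem S_nonneg (u : List ℕ) : 0 ≤ S u := ENNReal.toReal_nonneg

private theorem B5_pow (n : ℕ) : ((2 / 3 : ℝ≥0∞) ^ n).toReal = (2 / 3 : ℝ) ^ n := by
  rw [ENNReal.toReal_pow, ENNReal.toReal_div]
  norm_num

private theorem B5_23top : (2 / 3 : ℝ≥0∞) ≠ ⊤ := ENNReal.div_ne_top (by norm_num) (by norm_num)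

private theorem B5_one (u : List ℕ) (hu : W023 u) : ∀ l, 2 ≤ l → ph u (fun _ => 1) l ≤ (2 / 3) ^ u.length := by
  intro l hl
  have h := ph_bd2 hu (f := fun _ => 1) (B := 1) (fun _ _ => le_rfl) hl
  rwa [mul_one] at h

theorem S_begin {v u : List ℕ} (hv : W23 v) (hu : W023 u) :
    S u ≤ S (v ++ u) ∧ S (v ++ u) ≤ S u + 2 * (2 / 3 : ℝ) ^ u.length := by
  have hfin : ph (v ++ u) (fun _ => 1) 1 < ⊤ := ph_fin (hv.to0.append hu) le_rfl
  have hfin' : ph u (fun _ => 1) 1 < ⊤ := ph_fin hu le_rfl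
  have happ : ph (v ++ u) (fun _ => 1) 1 = ph v (ph u (fun _ => 1)) 1 := by rw [ph_append]
  refine ⟨?_, ?_⟩
  · refine ENNReal.toReal_mono hfin.ne ?_
    rw [happ]
    exact ph_begin' hv _
  · have h1 : ph (v ++ u) (fun _ => 1) 1 ≤ ph u (fun _ => 1) 1 + 2 * (2 / 3) ^ u.length := by
      rw [happ]
      exact ph_begin hv (B5_one u hu)
    have h2 : (2 * (2 / 3 : ℝ≥0∞) ^ u.length) ≠ ⊤ :=
      ENNReal.mul_ne_top (by norm_num) (ENNReal.pow_ne_top B5_23top)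
    have h3 := ENNReal.toReal_mono (ENNReal.add_ne_top.2 ⟨hfin'.ne, h2⟩) h1
    rw [ENNReal.toReal_add hfin'.ne h2, ENNReal.toReal_mul, B5_pow] at h3
    simpa [S] using h3

theorem S_zero_le {v u : List ℕ} (hv : W23 v) (hu : W023 u) :
    S (v ++ 0 :: u) ≤ 9 * (2 / 3 : ℝ) ^ u.length := by
  have hQ : ∀ l, 1 ≤ l → Q (ph u (fun _ => 1)) l ≤ 3 * (2 / 3) ^ u.length := by
    intro l hl
    have h1 : Q (ph u (fun _ => 1)) l ≤ Q (fun _ => (2 / 3) ^ u.length) l :=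
      Q_mono fun k hk => B5_one u hu k (by omega)
    have h2 : ph [3, 2] (fun _ => (2 / 3 : ℝ≥0∞) ^ u.length) l ≤ 3 * (2 / 3) ^ u.length :=
      ph_bd23 (fun a ha => by
        simp at ha
        tauto) (fun _ _ => le_rfl) hl
    have h3 : ph [3, 2] (fun _ => (2 / 3 : ℝ≥0∞) ^ u.length) =
        P 3 (P 2 (fun _ => (2 / 3 : ℝ≥0∞) ^ u.length)) := by
      simp [ph, op]
    rw [h3] at h2
    exact h1.trans ((Q_le_PP _ l hl).trans h2)
  have happ : ph (v ++ 0 :: u) (fun _ => 1) 1 = ph v (Q (ph u (fun _ => 1))) 1 := by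
    rw [ph_append]
    simp [ph, op]
  have h4 : ph (v ++ 0 :: u) (fun _ => 1) 1 ≤ 3 * (3 * (2 / 3) ^ u.length) := by
    rw [happ]
    exact ph_bd23 hv hQ le_rfl
  have h5 : (3 * (3 * (2 / 3 : ℝ≥0∞) ^ u.length)) ≠ ⊤ :=
    ENNReal.mul_ne_top (by norm_num) (ENNReal.mul_ne_top (by norm_num)
      (ENNReal.pow_ne_top B5_23top))
  have h6 := ENNReal.toReal_mono h5 h4
  rw [ENNReal.toReal_mul, ENNReal.toReal_mul, B5_pow] at h6
  have h7 : S (v ++ 0 :: u) ≤ 3 * (3 * (2 / 3 : ℝ) ^ u.length) := by simpa [S] using h6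
  linarith

private theorem B5_cong (u : List ℕ) {f g : ℕ → ℝ≥0∞} (h : ∀ l, 1 ≤ l → f l = g l) :
    ph u f 1 = ph u g 1 :=
  le_antisymm (ph_mono u fun l hl => (h l hl).le) (ph_mono u fun l hl => (h l hl).ge)

theorem S_comm {u v : List ℕ} (hu : W023 u) (hv : W023 v) :
    S (u ++ 3 :: 2 :: v) = S (u ++ 2 :: 3 :: v) + S (u ++ 0 :: v) := by
  have h32 : ph (u ++ 3 :: 2 :: v) (fun _ => 1) 1 = ph u (P 3 (P 2 (ph v fun _ => 1))) 1 := by
    rw [ph_append]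
    simp [ph, op]
  have h23 : ph (u ++ 2 :: 3 :: v) (fun _ => 1) 1 = ph u (P 2 (P 3 (ph v fun _ => 1))) 1 := by
    rw [ph_append]
    simp [ph, op]
  have h0 : ph (u ++ 0 :: v) (fun _ => 1) 1 = ph u (Q (ph v fun _ => 1)) 1 := by
    rw [ph_append]
    simp [ph, op]
  have hw23 : W023 (u ++ 2 :: 3 :: v) := hu.append (by
    intro a ha
    simp only [List.mem_cons] at ha
    rcases ha with h | h | h
    · exact Or.inr (Or.inl h)
    · exact Or.inr (Or.inr h)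
    · exact hv a h)
  have hf1 : ph (u ++ 2 :: 3 :: v) (fun _ => 1) 1 < ⊤ := ph_fin hw23 le_rfl
  have hf2 : ph (u ++ 0 :: v) (fun _ => 1) 1 < ⊤ := ph_fin (hu.append hv.cons0) le_rfl
  have hmain : ph (u ++ 3 :: 2 :: v) (fun _ => 1) 1 =
      ph (u ++ 2 :: 3 :: v) (fun _ => 1) 1 + ph (u ++ 0 :: v) (fun _ => 1) 1 := by
    rw [h32, h23, h0, ← ph_add]
    exact B5_cong u fun l hl => comm _ l hl
  unfold S
  rw [hmain, ENNReal.toReal_add hf1.ne hf2.ne]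

end Pool.Agent.HF
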