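import Pool.Agent.LibHF31.B5

/-!
[HF B6] lower bounds.

PLAN.  `ph_lower`: induction on `u`, `j` generalised.  Letter `n = 2, 3`: `P n h j ≥ (j^n)⁻¹ * h j` (the term `i = 0`, `ENNReal.le_tsum`), `(j^n)⁻¹ ≥ (K^6)⁻¹` because `1 ≤ j ≤ K`.
Letter `0`: `Q h j ≥ (j^3)⁻¹ * (((j+1)^3)⁻¹ * h (j+1))` (the term `i = h = 0`), `j, j + 1 ≤ K` (`count 0 (0 :: u) = count 0 u + 1`), so `≥ (K^6)⁻¹ * h (j+1)`.
`count_Zw`: induction.  `S_lower`: `ph_append`, `ph_begin'`, `ph_lower` with `j = 1`, `f = 1`, `toReal`.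
-/

set_option autoImplicit false

namespace Pool.Agent.HF

open scoped ENNReal
open Finset

private theorem B6_P {j K a : ℕ} (hj : 1 ≤ j) (hjK : j ≤ K) (ha : a ≤ 6) :
    ((K : ℝ≥0∞) ^ 6)⁻¹ ≤ ((j : ℝ≥0∞) ^ a)⁻¹ := by
  apply ENNReal.inv_le_inv.2
  have h1 : j ^ a ≤ K ^ 6 :=
    (Nat.pow_le_pow_left hjK a).trans (Nat.pow_le_pow_right (by omega) ha)
  exact_mod_cast h1

private theorem B6_Q {j K : ℕ} (hj : 1 ≤ j) (hjK : j + 1 ≤ K) :
    ((K : ℝ≥0∞) ^ 6)⁻¹ ≤ ((j : ℝ≥0∞) ^ 3)⁻¹ * (((j + 1 : ℕ) : ℝ≥0∞) ^ 3)⁻¹ := by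
  rw [← ENNReal.mul_inv (Or.inr (by finiteness)) (Or.inl (by finiteness))]
  apply ENNReal.inv_le_inv.2
  have h1 : j ^ 3 * (j + 1) ^ 3 ≤ K ^ 6 := by
    calc j ^ 3 * (j + 1) ^ 3 ≤ K ^ 3 * K ^ 3 :=
          Nat.mul_le_mul (Nat.pow_le_pow_left (by omega) 3) (Nat.pow_le_pow_left hjK 3)
      _ = K ^ 6 := by ring
  exact_mod_cast h1

theorem ph_lower {u : List ℕ} (hu : W023 u) (f : ℕ → ℝ≥0∞) {j K : ℕ} (hj : 1 ≤ j)
    (hK : j + u.count 0 ≤ K) :
    (((K : ℝ≥0∞) ^ 6)⁻¹) ^ u.length * f (j + u.count 0) ≤ ph u f j := by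
  induction u generalizing j with
  | nil => simp [ph]
  | cons a u ih =>
    have hu' : W023 u := fun b hb => hu b (List.mem_cons_of_mem _ hb)
    have ha := hu a List.mem_cons_self
    by_cases h0 : a = 0
    · subst h0
      have hph : ph (0 :: u) f j = Q (ph u f) j := rfl
      rw [List.count_cons_self] at hK ⊢
      have h1 := ih hu' (j := j + 1) (by omega) (by omega)
      have h2 : ((j : ℝ≥0∞) ^ 3)⁻¹ * ((((j + 1 : ℕ) : ℝ≥0∞) ^ 3)⁻¹ * ph u f (j + 1)) ≤
          Q (ph u f) j := by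
        unfold Q
        refine le_trans ?_ (ENNReal.le_tsum 0)
        refine le_trans ?_ (ENNReal.le_tsum 0)
        simp
      rw [hph]
      refine le_trans ?_ h2
      rw [List.length_cons, pow_succ', ← mul_assoc, mul_assoc,
        show j + (List.count 0 u + 1) = j + 1 + List.count 0 u by ring]
      exact mul_le_mul' (B6_Q hj (by omega)) h1
    · have hph : ph (a :: u) f j = P a (ph u f) j := by
        show op a (ph u f) j = _
        rw [op, if_neg h0]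
      rw [List.count_cons_of_ne h0] at hK ⊢
      have h1 := ih hu' hj hK
      have h2 : ((j : ℝ≥0∞) ^ a)⁻¹ * ph u f j ≤ P a (ph u f) j := by
        unfold P
        refine le_trans ?_ (ENNReal.le_tsum 0)
        simp
      rw [hph]
      refine le_trans ?_ h2
      rw [List.length_cons, pow_succ', mul_assoc]
      exact mul_le_mul' (B6_P hj (by omega) (by omega)) h1

theorem count_Zw {αs : List (List ℕ)} (h : ∀ α ∈ αs, W23 α) : (Zw αs).count 0 = αs.length := by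
  induction αs with
  | nil => simp [Zw]
  | cons α αs ih =>
    rw [Zw_cons, List.count_append, List.count_cons_self,
      ih fun β hβ => h β (List.mem_cons_of_mem _ hβ), List.length_cons]
    have h1 : α.count 0 = 0 := by
      rw [List.count_eq_zero]
      intro h0
      have := h α List.mem_cons_self 0 h0
      omega
    omega

theorem S_lower {v u : List ℕ} (hv : W23 v) (hu : W023 u) {K : ℕ} (hK : 1 + u.count 0 ≤ K) :
    (((K : ℝ) ^ 6)⁻¹) ^ u.length ≤ S (v ++ u) := by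
  have h1 := ph_lower hu (fun _ => 1) (le_refl 1) hK
  rw [mul_one] at h1
  have h2 : (((K : ℝ≥0∞) ^ 6)⁻¹) ^ u.length ≤ ph (v ++ u) (fun _ => 1) 1 := by
    rw [ph_append]
    exact h1.trans (ph_begin' hv _)
  have h3 := ENNReal.toReal_mono (ph_fin (hv.to0.append hu) (le_refl 1)).ne h2
  rw [ENNReal.toReal_pow, ENNReal.toReal_inv, ENNReal.toReal_pow, ENNReal.toReal_natCast] at h3
  exact h3

end Pool.Agent.HF
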