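import Pool.Agent.LibHF31.B6

/-!
[HF B7] the words `tw c F r`: every star sum is at most `2 / (k + 1)` times the preceding one.

PLAN.  `tw_dom` (unfold `tw`, four cases):
`r + 1 ≤ |c|`: `c.take (r+1) = c.take r ++ [a]`, `ph (c.take (r+1)) 1 = ph (c.take r) (P a 1)`, `P a 1 q ≤ 2 * q⁻¹ * 1 ≤ 2 * l⁻¹ * 1` for `q ≥ l` (`P_le`), `ph_le_smul`;
`r = |c|`: the same with `c.take |c| = c` and `a = 2`;  `r = |c| + 1`: `P 3 1 q ≤ q⁻¹ * P 2 1 q` (`P3_le`);
`r = |c| + 2`: `F.take 0 = []`, `Q 1 q ≤ 2 * q⁻¹ * P 3 1 q` (`Q_le`);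
`r ≥ |c| + 3`, `s = r - |c| - 3`, `s + 1 ≤ |F|`: `F.take (s+1) = F.take s ++ [a]`, the same as in the first case under `ph (c ++ 0 :: F.take s)`.
`S_dom`: `ph (v ++ Zw αs ++ t) 1 = ph (v ++ Zw αs) (ph t 1)`, `count 0 (v ++ Zw αs) = αs.length` (`v` has no `0`), `ph_le_smul0` with `j = 1`, levels `l ≥ 1 + αs.length`:
`2 * l⁻¹ ≤ 2 * (αs.length + 1)⁻¹`; then `toReal` (`ph_fin`).
-/

set_option autoImplicit false

namespace Pool.Agent.HF

open scoped ENNReal
open Finset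

private theorem B7_count {u : List ℕ} (hu : W23 u) : u.count 0 = 0 := by
  refine List.count_eq_zero.2 fun h => ?_
  rcases hu 0 h with h | h <;> omega

private theorem B7_op {a : ℕ} (ha : a = 2 ∨ a = 3) : op a = P a := by
  unfold op
  rw [if_neg (by omega)]

private theorem B7_ext {a : ℕ} (ha : a = 2 ∨ a = 3) (u : List ℕ) {l : ℕ} (hl : 1 ≤ l) :
    ph (u ++ [a]) (fun _ => 1) l ≤ 2 * (l : ℝ≥0∞)⁻¹ * ph u (fun _ => 1) l := by
  rw [ph_append]
  refine ph_le_smul u fun q hq => ?_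
  show op a (fun _ => 1) q ≤ 2 * (l : ℝ≥0∞)⁻¹ * 1
  rw [B7_op ha]
  refine (P_le (n := a) (by omega) (hl.trans hq) (B := 1) fun _ _ => le_rfl).trans ?_
  have h1 : (q : ℝ≥0∞)⁻¹ ≤ (l : ℝ≥0∞)⁻¹ := ENNReal.inv_le_inv.2 (by exact_mod_cast hq)
  gcongr

theorem W023_tw {c F : List ℕ} (hc : W23 c) (hF : W23 F) (r : ℕ) : W023 (tw c F r) := by
  unfold tw
  split_ifs
  · exact (hc.take r).to0
  · exact (hc.append (W23_nil.cons2)).to0
  · exact (hc.append (W23_nil.cons3)).to0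
  · exact hc.to0.append ((hF.take _).to0.cons0)

theorem count_tw_le {c F : List ℕ} (hc : W23 c) (hF : W23 F) (r : ℕ) : (tw c F r).count 0 ≤ 1 := by
  unfold tw
  split_ifs
  · rw [B7_count (hc.take r)]
    exact Nat.zero_le _
  · rw [B7_count (hc.append (W23_nil.cons2))]
    exact Nat.zero_le _
  · rw [B7_count (hc.append (W23_nil.cons3))]
    exact Nat.zero_le _
  · rw [List.count_append, List.count_cons_self, B7_count hc, B7_count (hF.take _)]

theorem length_tw_le (c F : List ℕ) (r : ℕ) : (tw c F r).length ≤ c.length + 1 + r := by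
  unfold tw
  split_ifs
  · rw [List.length_take]
    omega
  · rw [List.length_append, List.length_singleton]
    omega
  · rw [List.length_append, List.length_singleton]
    omega
  · rw [List.length_append, List.length_cons, List.length_take]
    omega

theorem tw_dom {c F : List ℕ} (hc : W23 c) (hF : W23 F) {r : ℕ}
    (hr : r + 1 ≤ c.length + 3 + F.length) {l : ℕ} (hl : 1 ≤ l) :
    ph (tw c F (r + 1)) (fun _ => 1) l ≤ 2 * (l : ℝ≥0∞)⁻¹ * ph (tw c F r) (fun _ => 1) l := by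
  rcases Nat.lt_or_ge r c.length with h1 | h1
  · have e1 : tw c F r = c.take r := by
      unfold tw
      rw [if_pos h1.le]
    have e2 : tw c F (r + 1) = c.take r ++ [(c)[r]] := by
      unfold tw
      rw [if_pos (Nat.succ_le_of_lt h1), List.take_append_getElem]
    rw [e1, e2]
    exact B7_ext (hc _ (List.getElem_mem h1)) _ hl
  rcases Nat.eq_or_lt_of_le h1 with h2 | h2
  · have e1 : tw c F r = c := by
      unfold tw
      rw [if_pos h2.ge, ← h2, List.take_length]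
    have e2 : tw c F (r + 1) = c ++ [2] := by
      unfold tw
      rw [if_neg (by omega), if_pos (by omega)]
    rw [e1, e2]
    exact B7_ext (Or.inl rfl) _ hl
  rcases Nat.eq_or_lt_of_le (Nat.succ_le_of_lt h2) with h3 | h3
  · have e1 : tw c F r = c ++ [2] := by
      unfold tw
      rw [if_neg (by omega), if_pos (by omega)]
    have e2 : tw c F (r + 1) = c ++ [3] := by
      unfold tw
      rw [if_neg (by omega), if_neg (by omega), if_pos (by omega)]
    rw [e1, e2, ph_append, ph_append]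
    refine ph_le_smul c fun q hq => ?_
    show op 3 (fun _ => 1) q ≤ 2 * (l : ℝ≥0∞)⁻¹ * op 2 (fun _ => 1) q
    rw [B7_op (Or.inr rfl), B7_op (Or.inl rfl)]
    refine (P3_le _ q (hl.trans hq)).trans ?_
    have h4 : (q : ℝ≥0∞)⁻¹ ≤ 2 * (l : ℝ≥0∞)⁻¹ := by
      have h5 : (q : ℝ≥0∞)⁻¹ ≤ (l : ℝ≥0∞)⁻¹ := ENNReal.inv_le_inv.2 (by exact_mod_cast hq)
      exact h5.trans (le_mul_of_one_le_left zero_le (by norm_num))
    gcongr
  rcases Nat.eq_or_lt_of_le (Nat.succ_le_of_lt h3) with h4 | h4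
  · have e1 : tw c F r = c ++ [3] := by
      unfold tw
      rw [if_neg (by omega), if_neg (by omega), if_pos (by omega)]
    have e2 : tw c F (r + 1) = c ++ [0] := by
      unfold tw
      rw [if_neg (by omega), if_neg (by omega), if_neg (by omega),
        show r + 1 - c.length - 3 = 0 by omega, List.take_zero]
    rw [e1, e2, ph_append, ph_append]
    refine ph_le_smul c fun q hq => ?_
    show op 0 (fun _ => 1) q ≤ 2 * (l : ℝ≥0∞)⁻¹ * op 3 (fun _ => 1) q
    rw [B7_op (Or.inr rfl)]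
    show Q (fun _ => 1) q ≤ _
    refine (Q_le (fun _ _ _ => le_rfl) (hl.trans hq)).trans ?_
    have h5 : (q : ℝ≥0∞)⁻¹ ≤ (l : ℝ≥0∞)⁻¹ := ENNReal.inv_le_inv.2 (by exact_mod_cast hq)
    gcongr
  · obtain ⟨s, hs⟩ : ∃ s, s = r - c.length - 3 := ⟨_, rfl⟩
    have hsF : s < F.length := by omega
    have e1 : tw c F r = c ++ 0 :: F.take s := by
      unfold tw
      rw [if_neg (by omega), if_neg (by omega), if_neg (by omega), ← hs]
    have e2 : tw c F (r + 1) = (c ++ 0 :: F.take s) ++ [F[s]] := by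
      unfold tw
      rw [if_neg (by omega), if_neg (by omega), if_neg (by omega),
        show r + 1 - c.length - 3 = s + 1 by omega, ← List.take_append_getElem hsF]
      simp
    rw [e1, e2]
    exact B7_ext (hF _ (List.getElem_mem hsF)) _ hl

theorem S_dom {v c F : List ℕ} {αs : List (List ℕ)} (hv : W23 v) (hα : ∀ α ∈ αs, W23 α)
    (hc : W23 c) (hF : W23 F) {r : ℕ} (hr : r + 1 ≤ c.length + 3 + F.length) :
    S (v ++ Zw αs ++ tw c F (r + 1)) ≤ 2 / ((αs.length : ℝ) + 1) * S (v ++ Zw αs ++ tw c F r) := by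
  have hcount : (v ++ Zw αs).count 0 = αs.length := by
    rw [List.count_append, B7_count hv, count_Zw hα, zero_add]
  have key : ph (v ++ Zw αs ++ tw c F (r + 1)) (fun _ => 1) 1 ≤
      2 * ((αs.length + 1 : ℕ) : ℝ≥0∞)⁻¹ * ph (v ++ Zw αs ++ tw c F r) (fun _ => 1) 1 := by
    rw [ph_append (v ++ Zw αs), ph_append (v ++ Zw αs)]
    refine ph_le_smul0 (v ++ Zw αs) fun l hl => ?_
    rw [hcount] at hl
    refine (tw_dom hc hF hr (l := l) (by omega)).trans ?_
    have h5 : (l : ℝ≥0∞)⁻¹ ≤ ((αs.length + 1 : ℕ) : ℝ≥0∞)⁻¹ :=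
      ENNReal.inv_le_inv.2 (by exact_mod_cast (by omega : αs.length + 1 ≤ l))
    gcongr
  have hfin : ph (v ++ Zw αs ++ tw c F r) (fun _ => 1) 1 < ⊤ :=
    ph_fin ((hv.to0.append (W023_Zw hα)).append (W023_tw hc hF r)) le_rfl
  have hn : ((αs.length + 1 : ℕ) : ℝ≥0∞)⁻¹ ≠ ⊤ := by
    rw [ENNReal.inv_ne_top]
    exact Nat.cast_ne_zero.2 (Nat.succ_ne_zero _)
  have h2 : (2 : ℝ≥0∞) * ((αs.length + 1 : ℕ) : ℝ≥0∞)⁻¹ ≠ ⊤ := ENNReal.mul_ne_top (by norm_num) hn
  have h3 := ENNReal.toReal_mono (ENNReal.mul_ne_top h2 hfin.ne) key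
  rw [ENNReal.toReal_mul, ENNReal.toReal_mul, ENNReal.toReal_inv, ENNReal.toReal_natCast] at h3
  have h4 : (ENNReal.toReal 2) * ((αs.length + 1 : ℕ) : ℝ)⁻¹ = 2 / ((αs.length : ℝ) + 1) := by
    rw [ENNReal.toReal_ofNat]
    push_cast
    rw [div_eq_mul_inv]
  rw [h4] at h3
  exact h3

end Pool.Agent.HF
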