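import Mathlib

/-!
[HF B8] only Mathlib: the first nonzero coefficient wins.

PLAN.  Suppose not; let `r₀ ≤ R`, `r₀ < M` be the least index with `e r₀ ≠ 0` (`Nat.find`).  Then `c (r₀ + t) ≤ q^t c r₀` for `r₀ + t < M`, so
`‖∑_{r₀ < r < M} e r c r‖ ≤ ∑_{t ≥ 1} B q^t c r₀ ≤ 2 B q c r₀ ≤ (δ/2) c r₀` (`q ≤ 1/2`; finite geometric sum `∑_{t=1}^{T} q^t ≤ 2 q`), and
`‖∑_{r<M}‖ ≥ δ c r₀ - (δ/2) c r₀ = (δ/2) c r₀ ≥ (δ/2) κ > η`.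
-/

set_option autoImplicit false

namespace Pool.Agent.HF

open Finset

theorem first_wins (e : ℕ → ℂ) (c : ℕ → ℝ) (M R : ℕ) (δ B q κ η : ℝ) (hδ : 0 < δ) (hq0 : 0 ≤ q)
    (hq : q ≤ 1 / 2) (hB : 4 * B * q ≤ δ) (hc0 : ∀ r, 0 ≤ c r)
    (hc : ∀ r, r + 1 < M → c (r + 1) ≤ q * c r) (he : ∀ r, ‖e r‖ ≤ B)
    (hd : ∀ r, e r = 0 ∨ δ ≤ ‖e r‖) (hκ : ∀ r, r ≤ R → r < M → κ ≤ c r)
    (hη : ‖∑ r ∈ range M, e r * (c r : ℂ)‖ ≤ η) (hηκ : 2 * η < δ * κ) :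
    ∀ r, r ≤ R → r < M → e r = 0 := by
  classical
  by_contra hcon
  push Not at hcon
  have hex : ∃ r, r ≤ R ∧ r < M ∧ e r ≠ 0 := by
    obtain ⟨r, h1, h2, h3⟩ := hcon
    exact ⟨r, h1, h2, h3⟩
  obtain ⟨r₀, ⟨h1, h2, h3⟩, hmin⟩ : ∃ r₀, (r₀ ≤ R ∧ r₀ < M ∧ e r₀ ≠ 0) ∧
      ∀ r < r₀, ¬ (r ≤ R ∧ r < M ∧ e r ≠ 0) :=
    ⟨Nat.find hex, Nat.find_spec hex, fun r hr => Nat.find_min hex hr⟩
  have h0 : ∀ r < r₀, e r = 0 := by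
    intro r hr
    by_contra h
    exact hmin r hr ⟨by omega, by omega, h⟩
  have hB0 : 0 ≤ B := (norm_nonneg _).trans (he 0)
  have hgeo : ∀ t, r₀ + t < M → c (r₀ + t) ≤ q ^ t * c r₀ := by
    intro t
    induction t with
    | zero =>
      intro _
      rw [add_zero, pow_zero, one_mul]
    | succ t ih =>
      intro ht
      calc c (r₀ + (t + 1)) ≤ q * c (r₀ + t) := hc (r₀ + t) ht
        _ ≤ q * (q ^ t * c r₀) := mul_le_mul_of_nonneg_left (ih (by omega)) hq0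
        _ = q ^ (t + 1) * c r₀ := by ring
  obtain ⟨T, hT⟩ : ∃ T, M = r₀ + 1 + T := ⟨M - (r₀ + 1), by omega⟩
  have hsum : ∑ r ∈ range M, e r * (c r : ℂ) = e r₀ * (c r₀ : ℂ) +
      ∑ t ∈ range T, e (r₀ + 1 + t) * (c (r₀ + 1 + t) : ℂ) := by
    rw [hT, Finset.sum_range_add, Finset.sum_range_succ,
      Finset.sum_eq_zero fun r hr => by rw [h0 r (Finset.mem_range.1 hr), zero_mul], zero_add]
  have hg : ∀ T : ℕ, ∑ t ∈ range T, q ^ t ≤ 2 := by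
    intro T
    have h4 : ∑ t ∈ range T, q ^ t ≤ ∑ t ∈ range T, (1 / 2 : ℝ) ^ t :=
      Finset.sum_le_sum fun t _ => pow_le_pow_left₀ hq0 hq t
    have h5 : ∑ t ∈ range T, (1 / 2 : ℝ) ^ t = 2 - 2 * (1 / 2 : ℝ) ^ T := by
      rw [geom_sum_eq (by norm_num)]
      ring
    have h6 : (0 : ℝ) < (1 / 2 : ℝ) ^ T := by positivity
    linarith
  have htail : ‖∑ t ∈ range T, e (r₀ + 1 + t) * (c (r₀ + 1 + t) : ℂ)‖ ≤ δ / 2 * c r₀ := by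
    calc ‖∑ t ∈ range T, e (r₀ + 1 + t) * (c (r₀ + 1 + t) : ℂ)‖
        ≤ ∑ t ∈ range T, ‖e (r₀ + 1 + t) * (c (r₀ + 1 + t) : ℂ)‖ := norm_sum_le _ _
      _ ≤ ∑ t ∈ range T, B * q * c r₀ * q ^ t := by
          refine Finset.sum_le_sum fun t ht => ?_
          rw [norm_mul, Complex.norm_real, Real.norm_eq_abs, abs_of_nonneg (hc0 _)]
          have h4 : c (r₀ + 1 + t) ≤ q ^ (t + 1) * c r₀ := by
            have h5 := hgeo (t + 1) (by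
              have := Finset.mem_range.1 ht
              omega)
            rwa [show r₀ + (t + 1) = r₀ + 1 + t by omega] at h5
          calc ‖e (r₀ + 1 + t)‖ * c (r₀ + 1 + t) ≤ B * (q ^ (t + 1) * c r₀) :=
                mul_le_mul (he _) h4 (hc0 _) hB0
            _ = B * q * c r₀ * q ^ t := by ring
      _ = B * q * c r₀ * ∑ t ∈ range T, q ^ t := by rw [Finset.mul_sum]
      _ ≤ B * q * c r₀ * 2 :=
          mul_le_mul_of_nonneg_left (hg T) (mul_nonneg (mul_nonneg hB0 hq0) (hc0 _))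
      _ ≤ δ / 2 * c r₀ := by nlinarith [hc0 r₀]
  have hlow : δ * c r₀ ≤ ‖e r₀ * (c r₀ : ℂ)‖ := by
    rw [norm_mul, Complex.norm_real, Real.norm_eq_abs, abs_of_nonneg (hc0 _)]
    exact mul_le_mul_of_nonneg_right ((hd r₀).resolve_left h3) (hc0 _)
  have hk := hκ r₀ h1 h2
  rw [hsum] at hη
  have h4 : ‖e r₀ * (c r₀ : ℂ)‖ ≤ ‖e r₀ * (c r₀ : ℂ) +
      ∑ t ∈ range T, e (r₀ + 1 + t) * (c (r₀ + 1 + t) : ℂ)‖ +
      ‖∑ t ∈ range T, e (r₀ + 1 + t) * (c (r₀ + 1 + t) : ℂ)‖ := by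
    have h5 := norm_sub_le (e r₀ * (c r₀ : ℂ) +
      ∑ t ∈ range T, e (r₀ + 1 + t) * (c (r₀ + 1 + t) : ℂ))
      (∑ t ∈ range T, e (r₀ + 1 + t) * (c (r₀ + 1 + t) : ℂ))
    rwa [add_sub_cancel_right] at h5
  have h5 : δ * κ ≤ δ * c r₀ := mul_le_mul_of_nonneg_left hk hδ.le
  linarith

end Pool.Agent.HF
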