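import Pool.Agent.LibHF31.Defs

/-!
Definitions for the blocks B and C (operators and core) of the board HF (MP_c2d7b4_nt).

THE PROOF.  `x u` = derivative of `ζ(u)` (an arbitrary function here), `x u = 0` for all arcs `u` longer than `m`.
`EE x m u = ∑_{n<m} (-1)^n x (first n+1 letters of u)`.  The derived cyclic identity `CI x Y` says `DD x m L = Y (sum of L)`.
Take the mixed difference of it over the sites (`[3,2]` minus `[2,3]`): the right side disappears, and the left side is, up to an
exponentially small error, `∑_r ce r * S (F₂ ++ Zw αs ++ tw c F r)`, where the words `tw c F r` (prefixes of the word read from `m`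
letters before the last site; letter `0` = commutator) have star sums that decrease by the factor `2 / (k + 1)` at least, because the
`k` commutators in `Zw αs` raise the level to `k + 1`.  So the first nonzero coefficient would win: all coefficients vanish.
-/

set_option autoImplicit false

namespace Pool.Agent.HF

open scoped ENNReal
open Finset

/-- Words in the letters `2`, `3`. -/
def W23 (w : List ℕ) : Prop := ∀ a ∈ w, a = 2 ∨ a = 3

/-- Words in the letters `0`, `2`, `3`. -/
def W023 (w : List ℕ) : Prop := ∀ a ∈ w, a = 0 ∨ a = 2 ∨ a = 3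

/-- A site. -/
def site (e : Bool) : List ℕ := if e then [2, 3] else [3, 2]

/-- The word with the sites `es` and the blocks `bs`. -/
def wd (es : List Bool) (bs : List (List ℕ)) : List ℕ :=
  (List.zipWith (fun e β => site e ++ β) es bs).flatten

/-- Commutators instead of the sites. -/
def Zw (αs : List (List ℕ)) : List ℕ := (αs.map fun α => 0 :: α).flatten

/-- The mixed difference of `F`: site `[3, 2]` minus site `[2, 3]`, at every site. -/
noncomputable def mix : List (List ℕ) → (List ℕ → ℂ) → ℂ
  | [], F => F []
  | α :: αs, F => mix αs (fun w => F ([3, 2] ++ α ++ w)) - mix αs (fun w => F ([2, 3] ++ α ++ w))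

/-- The local sum. -/
noncomputable def EE (x : List ℕ → ℂ) (m : ℕ) (u : List ℕ) : ℂ :=
  ∑ n ∈ range m, (-1) ^ n * x (u.take (n + 1))

/-- The arcs of length at most `m` starting at the position `i`. -/
noncomputable def Di (x : List ℕ → ℂ) (m : ℕ) (L : List ℕ) (i : ℕ) : ℂ :=
  ∑ n ∈ range m, (-1) ^ n * (x ((L.rotate i).take (n + 1)) * (S ((L.rotate i).drop (n + 1)) : ℂ))

/-- The left side of the derived cyclic identity. -/
noncomputable def DD (x : List ℕ → ℂ) (m : ℕ) (L : List ℕ) : ℂ := ∑ i ∈ range L.length, Di x m L i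

/-- The `r`-th word of the comparison. -/
def tw (c F : List ℕ) (r : ℕ) : List ℕ :=
  if r ≤ c.length then c.take r else if r = c.length + 1 then c ++ [2]
  else if r = c.length + 2 then c ++ [3] else c ++ 0 :: F.take (r - c.length - 3)

/-- The `r`-th coefficient. -/
noncomputable def ce (x : List ℕ → ℂ) (m : ℕ) (c F : List ℕ) (r : ℕ) : ℂ :=
  if r ≤ c.length then EE x m (c.drop r ++ 3 :: 2 :: F) - EE x m (c.drop r ++ 2 :: 3 :: F)
  else if r = c.length + 1 then - EE x m (3 :: F)
  else if r = c.length + 2 then EE x m (2 :: F) else EE x m (F.drop (r - c.length - 3))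

/-- The derived cyclic identity. -/
def CI (x : List ℕ → ℂ) (Y : ℕ → ℂ) : Prop :=
  ∀ L : List ℕ, L ≠ [] → W23 L →
    ∑ i ∈ range L.length, ∑ n ∈ range L.length, (-1 : ℂ) ^ n *
      (x (arc L i (n + 1)) * (S (arc L (i + n + 1) (L.length - n - 1)) : ℂ)) = Y L.sum

/-- `x` vanishes on all arcs longer than `m`. -/
def Good (x : List ℕ → ℂ) (m : ℕ) (L : List ℕ) : Prop :=
  ∀ i n, m < n → n ≤ L.length → x (arc L i n) = 0

theorem W23.append {u v : List ℕ} (hu : W23 u) (hv : W23 v) : W23 (u ++ v) := by
  intro a ha
  rcases List.mem_append.1 ha with h | h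
  · exact hu a h
  · exact hv a h

theorem W023.append {u v : List ℕ} (hu : W023 u) (hv : W023 v) : W023 (u ++ v) := by
  intro a ha
  rcases List.mem_append.1 ha with h | h
  · exact hu a h
  · exact hv a h

theorem W23.to0 {u : List ℕ} (hu : W23 u) : W023 u := fun a ha => Or.inr (hu a ha)

theorem W23.take {u : List ℕ} (hu : W23 u) (n : ℕ) : W23 (u.take n) :=
  fun a ha => hu a (List.mem_of_mem_take ha)

theorem W23.drop {u : List ℕ} (hu : W23 u) (n : ℕ) : W23 (u.drop n) :=
  fun a ha => hu a (List.mem_of_mem_drop ha)

theorem W23.cons2 {u : List ℕ} (hu : W23 u) : W23 (2 :: u) := by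
  intro a ha
  rcases List.mem_cons.1 ha with h | h
  · exact Or.inl h
  · exact hu a h

theorem W23.cons3 {u : List ℕ} (hu : W23 u) : W23 (3 :: u) := by
  intro a ha
  rcases List.mem_cons.1 ha with h | h
  · exact Or.inr h
  · exact hu a h

theorem W023.cons0 {u : List ℕ} (hu : W023 u) : W023 (0 :: u) := by
  intro a ha
  rcases List.mem_cons.1 ha with h | h
  · exact Or.inl h
  · exact hu a h

theorem W23_nil : W23 [] := fun a ha => absurd ha (List.not_mem_nil)

theorem W23_site (e : Bool) : W23 (site e) := by
  intro a ha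
  unfold site at ha
  split_ifs at ha <;> simp at ha <;> tauto

theorem W023_Zw {αs : List (List ℕ)} (h : ∀ α ∈ αs, W23 α) : W023 (Zw αs) := by
  intro a ha
  unfold Zw at ha
  rw [List.mem_flatten] at ha
  obtain ⟨l, hl, hal⟩ := ha
  rw [List.mem_map] at hl
  obtain ⟨α, hα, rfl⟩ := hl
  rcases List.mem_cons.1 hal with h1 | h1
  · exact Or.inl h1
  · exact Or.inr (h α hα a h1)

theorem W23_wd {bs : List (List ℕ)} (h : ∀ β ∈ bs, W23 β) (es : List Bool) : W23 (wd es bs) := by
  induction bs generalizing es with
  | nil =>
    intro a ha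
    simp [wd] at ha
  | cons β bs ih =>
    cases es with
    | nil =>
      intro a ha
      simp [wd] at ha
    | cons e es =>
      have h1 : wd (e :: es) (β :: bs) = site e ++ β ++ wd es bs := by simp [wd]
      rw [h1]
      exact ((W23_site e).append (h β (by simp))).append
        (ih (fun β' hβ' => h β' (by simp [hβ'])) es)

theorem wd_cons (e : Bool) (es : List Bool) (β : List ℕ) (bs : List (List ℕ)) :
    wd (e :: es) (β :: bs) = site e ++ β ++ wd es bs := by simp [wd]

theorem Zw_cons (α : List ℕ) (αs : List (List ℕ)) : Zw (α :: αs) = 0 :: α ++ Zw αs := by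
  simp [Zw]

end Pool.Agent.HF
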