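import Pool.Agent.LibHF31.B5

/-!
[HF C1] the derived cyclic identity for a good word, in terms of rotations.

PLAN.  `arc_rot`, `rest_rot` by `List.ext_getElem` (lengths; `List.getElem_rotate`, `List.getElem_take`, `List.getElem_drop`; entry `t` of `arc L i n` is
`L.getD ((i + t) % L.length) 0 = L[(i + t) % L.length]`).
`DD_eq`: in `hI L` the terms with `n ≥ m` vanish (`Good`, arcs of length `n + 1 > m`), so the inner sum is over `range m` (`Finset.sum_subset`, `m ≤ L.length`).
-/

set_option autoImplicit false

namespace Pool.Agent.HF

open Finset

theorem arc_rot (L : List ℕ) (i n : ℕ) (hn : n ≤ L.length) : arc L i n = (L.rotate i).take n := by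
  refine List.ext_getElem ?_ fun t h1 h2 => ?_
  · rw [List.length_take, List.length_rotate]
    unfold arc
    rw [List.length_map, List.length_range]
    omega
  · have ht : t < n := by
      rw [List.length_take] at h2
      omega
    have h0 : 0 < L.length := by omega
    have e1 : (arc L i n)[t] = L.getD ((i + t) % L.length) 0 := by
      simp only [arc, List.getElem_map, List.getElem_range]
    rw [e1, List.getElem_take, List.getElem_rotate, List.getD_eq_getElem _ _ (Nat.mod_lt _ h0)]
    congr 2
    omega

theorem rest_rot (L : List ℕ) (i n : ℕ) (hn : n ≤ L.length) :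
    arc L (i + n) (L.length - n) = (L.rotate i).drop n := by
  refine List.ext_getElem ?_ fun t h1 h2 => ?_
  · rw [List.length_drop, List.length_rotate]
    unfold arc
    rw [List.length_map, List.length_range]
  · have ht : t < L.length - n := by
      rw [List.length_drop, List.length_rotate] at h2
      exact h2
    have h0 : 0 < L.length := by omega
    have e1 : (arc L (i + n) (L.length - n))[t] = L.getD ((i + n + t) % L.length) 0 := by
      simp only [arc, List.getElem_map, List.getElem_range]
    rw [e1, List.getElem_drop, List.getElem_rotate, List.getD_eq_getElem _ _ (Nat.mod_lt _ h0)]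
    congr 2
    omega

theorem DD_eq {x : List ℕ → ℂ} {Y : ℕ → ℂ} (hI : CI x Y) {L : List ℕ} (h0 : L ≠ []) (hL : W23 L)
    {m : ℕ} (hm : m ≤ L.length) (hg : Good x m L) : DD x m L = Y L.sum := by
  rw [← hI L h0 hL]
  unfold DD Di
  refine Finset.sum_congr rfl fun i _ => ?_
  rw [← Finset.sum_subset (Finset.range_subset_range.2 hm)]
  · refine Finset.sum_congr rfl fun n hn => ?_
    rw [Finset.mem_range] at hn
    rw [arc_rot L i (n + 1) (by omega), add_assoc, Nat.sub_sub, rest_rot L i (n + 1) (by omega)]
  · intro n hn hn'
    rw [Finset.mem_range] at hn hn'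
    rw [hg i (n + 1) (by omega) (by omega), zero_mul, mul_zero]

end Pool.Agent.HF
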