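import Pool.Agent.LibHF31.BDefs

/-!
[HF C7a] finitely many coefficients; an elementary limit.

PLAN.  The set of words in `W23` of length `≤ m` is finite (`List.finite_length_le` over `Fin`/`Bool`, or induction on `m`: the words of length `m + 1` are `2 :: u`, `3 :: u`).  `bound_x`: maximum over it.
`EE x m u` depends only on `u.take m` (`EE_take`: `(u.take m).take (n+1) = u.take (n+1)` for `n < m`), so the values `EE x m u`, `u` in `W23`, form a finite set `A`, and all values of `ce` are in the finite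
set `{a - b} ∪ {-a} ∪ {a}`, `a, b ∈ A`: take `B` = maximal norm and `δ` = the minimal nonzero norm (`Set.Finite` induction or `Finset.exists_min_image`).
`small`: `tendsto_pow_const_mul_const_pow_of_abs_lt_one` (`n^1 r^n → 0`), with `F2.length - m ≥ F1.length - m`, `(2/3)^(ℓ - m) = (2/3)^ℓ (3/2)^m`.
-/

set_option autoImplicit false

namespace Pool.Agent.HF

open Finset

theorem finite_words (m : ℕ) : {u : List ℕ | W23 u ∧ u.length ≤ m}.Finite := by
  induction m with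
  | zero =>
    refine (Set.finite_singleton ([] : List ℕ)).subset ?_
    rintro u ⟨-, hu⟩
    exact List.length_eq_zero_iff.1 (Nat.le_zero.1 hu)
  | succ m ih =>
    refine ((Set.finite_singleton ([] : List ℕ)).union ((ih.image (2 :: ·)).union
      (ih.image (3 :: ·)))).subset ?_
    rintro u ⟨h1, h2⟩
    cases u with
    | nil => exact Or.inl rfl
    | cons a u =>
      have h3 : W23 u := fun b hb => h1 b (List.mem_cons_of_mem a hb)
      have h4 : u.length ≤ m := by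
        rw [List.length_cons] at h2
        omega
      rcases h1 a List.mem_cons_self with rfl | rfl
      · exact Or.inr (Or.inl ⟨u, ⟨h3, h4⟩, rfl⟩)
      · exact Or.inr (Or.inr ⟨u, ⟨h3, h4⟩, rfl⟩)

theorem bound_x (x : List ℕ → ℂ) (m : ℕ) :
    ∃ X : ℝ, 0 ≤ X ∧ ∀ u, W23 u → u.length ≤ m → ‖x u‖ ≤ X := by
  obtain ⟨X, hX⟩ := ((finite_words m).image fun u => ‖x u‖).bddAbove
  refine ⟨max X 0, le_max_right _ _, fun u h1 h2 => le_trans (hX ?_) (le_max_left _ _)⟩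
  exact ⟨u, ⟨h1, h2⟩, rfl⟩

theorem EE_take (x : List ℕ → ℂ) (m : ℕ) (u : List ℕ) : EE x m (u.take m) = EE x m u := by
  unfold EE
  refine Finset.sum_congr rfl fun n hn => ?_
  rw [Finset.mem_range] at hn
  rw [List.take_take, min_eq_left (by omega : n + 1 ≤ m)]

theorem EE_append (x : List ℕ → ℂ) (m : ℕ) {u v : List ℕ} (h : m ≤ u.length) :
    EE x m (u ++ v) = EE x m u := by
  unfold EE
  refine Finset.sum_congr rfl fun n hn => ?_
  rw [Finset.mem_range] at hn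
  rw [List.take_append_of_le_length (by omega : n + 1 ≤ u.length)]

theorem ce_values (x : List ℕ → ℂ) (m : ℕ) :
    ∃ δ B : ℝ, 0 < δ ∧ 0 ≤ B ∧ ∀ c F : List ℕ, W23 c → W23 F → ∀ r,
      ‖ce x m c F r‖ ≤ B ∧ (ce x m c F r = 0 ∨ δ ≤ ‖ce x m c F r‖) := by
  classical
  -- the finite set of the values
  have hA : ({0} ∪ (EE x m '' {u : List ℕ | W23 u ∧ u.length ≤ m})).Finite :=
    (Set.finite_singleton 0).union ((finite_words m).image _)
  have hV : (Set.image2 (fun a b : ℂ => a - b) ({0} ∪ (EE x m '' {u : List ℕ | W23 u ∧ u.length ≤ m}))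
      ({0} ∪ (EE x m '' {u : List ℕ | W23 u ∧ u.length ≤ m}))).Finite := hA.image2 _ hA
  set A : Set ℂ := {0} ∪ (EE x m '' {u : List ℕ | W23 u ∧ u.length ≤ m}) with hAdef
  set V : Set ℂ := Set.image2 (fun a b : ℂ => a - b) A A with hVdef
  have hEE : ∀ u, W23 u → EE x m u ∈ A := by
    intro u hu
    refine Or.inr ⟨u.take m, ⟨hu.take m, ?_⟩, EE_take x m u⟩
    rw [List.length_take]
    exact min_le_left _ _
  have h0A : (0 : ℂ) ∈ A := Or.inl rfl
  have hce : ∀ c F : List ℕ, W23 c → W23 F → ∀ r, ce x m c F r ∈ V := by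
    intro c F hc hF r
    unfold ce
    split_ifs with h1 h2 h3
    · exact ⟨_, hEE _ ((hc.drop r).append hF.cons2.cons3), _, hEE _ ((hc.drop r).append hF.cons3.cons2), rfl⟩
    · exact ⟨0, h0A, _, hEE _ hF.cons3, zero_sub _⟩
    · exact ⟨_, hEE _ hF.cons2, 0, h0A, sub_zero _⟩
    · exact ⟨_, hEE _ (hF.drop _), 0, h0A, sub_zero _⟩
  obtain ⟨B, hB⟩ := (hV.image fun z => ‖z‖).bddAbove
  obtain ⟨δ, hδ0, hδ⟩ : ∃ δ : ℝ, 0 < δ ∧ ∀ z ∈ V, z = 0 ∨ δ ≤ ‖z‖ := by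
    by_cases hne : (V \ {0}).Nonempty
    · obtain ⟨z₀, hz₀, hmin⟩ := Set.exists_min_image (V \ {0}) (fun z => ‖z‖) (hV.sdiff) hne
      refine ⟨‖z₀‖, norm_pos_iff.2 hz₀.2, fun z hz => ?_⟩
      by_cases h0 : z = 0
      · exact Or.inl h0
      · exact Or.inr (hmin z ⟨hz, h0⟩)
    · refine ⟨1, one_pos, fun z hz => Or.inl ?_⟩
      by_contra h0
      exact hne ⟨z, hz, h0⟩
  refine ⟨δ, max B 0, hδ0, le_max_right _ _, fun c F hc hF r => ⟨?_, hδ _ (hce c F hc hF r)⟩⟩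
  exact le_trans (hB ⟨_, hce c F hc hF r, rfl⟩) (le_max_left _ _)

theorem small (m k Λ : ℕ) (X ε : ℝ) (hX : 0 ≤ X) (hε : 0 < ε) :
    ∃ ℓ₀ : ℕ, m ≤ ℓ₀ ∧ ∀ a b : ℕ, ℓ₀ ≤ a → a ≤ b → b ≤ a + 1 → ∀ s : ℕ, s ≤ Λ →
      2 ^ k * ((b + (s + 2 * k) : ℕ) * (m * X * (9 * (2 / 3 : ℝ) ^ a))) +
        2 * ((m + 2 + a : ℕ) * (m * X * (2 * (2 / 3 : ℝ) ^ (b - m)))) < ε := by
  set K : ℝ := 2 ^ k * 9 * (m * X) + 4 * (m * X) * (3 / 2) ^ m with hK
  set D : ℝ := 1 + Λ + 2 * k + m + 2 with hD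
  have hmX : 0 ≤ m * X := by positivity
  have hlim : Filter.Tendsto (fun a : ℕ => K * ((a : ℝ) * (2 / 3 : ℝ) ^ a + D * (2 / 3 : ℝ) ^ a))
      Filter.atTop (nhds (K * (0 + D * 0))) := by
    refine Filter.Tendsto.const_mul K (Filter.Tendsto.add ?_ (Filter.Tendsto.const_mul D ?_))
    · exact tendsto_self_mul_const_pow_of_lt_one (by norm_num) (by norm_num)
    · exact tendsto_pow_atTop_nhds_zero_of_lt_one (by norm_num) (by norm_num)
  rw [mul_zero, add_zero, mul_zero] at hlim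
  obtain ⟨ℓ₁, hℓ₁⟩ := Filter.eventually_atTop.1 (hlim.eventually_lt_const hε)
  refine ⟨max m ℓ₁, le_max_left _ _, fun a b ha hab hba s hs => ?_⟩
  have ha1 : ℓ₁ ≤ a := le_trans (le_max_right _ _) ha
  have ham : m ≤ a := le_trans (le_max_left _ _) ha
  refine lt_of_le_of_lt ?_ (hℓ₁ a ha1)
  have hpa : 0 < (2 / 3 : ℝ) ^ a := by positivity
  have h1 : ((b + (s + 2 * k) : ℕ) : ℝ) ≤ a + D := by
    have h2 : (b : ℝ) ≤ a + 1 := by exact_mod_cast hba
    have h3 : (s : ℝ) ≤ Λ := by exact_mod_cast hs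
    push_cast
    rw [hD]
    have h4 : (0 : ℝ) ≤ m := Nat.cast_nonneg m
    linarith
  have h2 : ((m + 2 + a : ℕ) : ℝ) ≤ a + D := by
    push_cast
    rw [hD]
    have h4 : (0 : ℝ) ≤ Λ := Nat.cast_nonneg Λ
    have h5 : (0 : ℝ) ≤ k := Nat.cast_nonneg k
    linarith
  have h3 : (2 / 3 : ℝ) ^ (b - m) ≤ (3 / 2) ^ m * (2 / 3) ^ a := by
    have h4 : (2 / 3 : ℝ) ^ (b - m) ≤ (2 / 3) ^ (a - m) :=
      pow_le_pow_of_le_one (by norm_num) (by norm_num) (by omega)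
    have h5 : (3 / 2 : ℝ) ^ m * (2 / 3) ^ a = (2 / 3) ^ (a - m) := by
      have h6 : (2 / 3 : ℝ) ^ a = (2 / 3) ^ m * (2 / 3) ^ (a - m) := by
        rw [← pow_add]
        congr 1
        omega
      rw [h6, ← mul_assoc, ← mul_pow]
      norm_num
    rw [h5]
    exact h4
  have hD0 : 0 ≤ (a : ℝ) + D := le_trans (Nat.cast_nonneg _) h1
  calc 2 ^ k * (((b + (s + 2 * k) : ℕ) : ℝ) * (m * X * (9 * (2 / 3 : ℝ) ^ a))) +
        2 * (((m + 2 + a : ℕ) : ℝ) * (m * X * (2 * (2 / 3 : ℝ) ^ (b - m))))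
      ≤ 2 ^ k * ((a + D) * (m * X * (9 * (2 / 3 : ℝ) ^ a))) +
        2 * ((a + D) * (m * X * (2 * ((3 / 2) ^ m * (2 / 3) ^ a)))) := by
        gcongr
    _ = K * ((a : ℝ) * (2 / 3 : ℝ) ^ a + D * (2 / 3 : ℝ) ^ a) := by
        rw [hK]
        ring

end Pool.Agent.HF
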