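import Pool.Agent.LibHF31.C1
import Pool.Agent.LibHF31.C7a

/-!
[HF C10] the end: if all local sums vanish then `Y` is small.

PLAN.  `X` from `bound_x`.  `Y L.sum = DD x m L = ∑_i Di x m L i` (`DD_eq`).  For every `i < L.length`, `L' = L.rotate i`, `n < m`: `L'.drop (n+1) = v ++ L'.drop m` with `v = (L'.drop (n+1)).take (m - n - 1)` in `W23`, so
`|S (L'.drop (n+1)) - S (L'.drop m)| ≤ 2 (2/3)^(|L| - m)` (`S_begin`), and `∑_n (-1)^n x (L'.take (n+1)) * S (L'.drop m) = EE x m L' * S (L'.drop m) = 0`.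
So `‖Y L.sum‖ ≤ |L| m X 2 (2/3)^(|L| - m)`, which is `≤ 1/2` for `|L|` large (`tendsto_pow_const_mul_const_pow_of_abs_lt_one`, or `small`).
-/

set_option autoImplicit false

namespace Pool.Agent.HF

open Finset

theorem final_energy (x : List ℕ → ℂ) (Y : ℕ → ℂ) (hI : CI x Y) (m : ℕ) :
    ∃ r₀ : ℕ, ∀ L : List ℕ, W23 L → r₀ ≤ L.length → Good x m L →
      (∀ i < L.length, EE x m (L.rotate i) = 0) → ‖Y L.sum‖ ≤ 1 / 2 := by
  obtain ⟨X, hX0, hX⟩ := bound_x x m
  obtain ⟨ℓ₀, hmℓ, hℓ⟩ := small m 0 0 X (1 / 2) hX0 (by norm_num)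
  refine ⟨max ℓ₀ 1, fun L hL hlen hg hE => ?_⟩
  have hl1 : ℓ₀ ≤ L.length := le_trans (le_max_left _ _) hlen
  have hl2 : 1 ≤ L.length := le_trans (le_max_right _ _) hlen
  have h0 : L ≠ [] := by
    rintro rfl
    simp at hl2
  have hm : m ≤ L.length := le_trans hmℓ hl1
  rw [← DD_eq hI h0 hL hm hg]
  set η : ℝ := 2 * (2 / 3 : ℝ) ^ (L.length - m) with hη
  have hη0 : 0 ≤ η := by positivity
  have hDi : ∀ i ∈ range L.length, ‖Di x m L i‖ ≤ m * X * η := by
    intro i hi
    rw [Finset.mem_range] at hi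
    set L' := L.rotate i with hL'
    have hlen' : L'.length = L.length := List.length_rotate L i
    have hW : W23 L' := fun a ha => hL a (List.mem_rotate.1 ha)
    have h1 : Di x m L i = ∑ n ∈ range m, (-1 : ℂ) ^ n *
        (x (L'.take (n + 1)) * ((S (L'.drop (n + 1)) - S (L'.drop m) : ℝ) : ℂ)) := by
      have h2 : ∑ n ∈ range m, (-1 : ℂ) ^ n * (x (L'.take (n + 1)) * ((S (L'.drop m) : ℝ) : ℂ)) =
          0 := by
        have h3 := hE i hi
        unfold EE at h3
        rw [← hL'] at h3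
        calc ∑ n ∈ range m, (-1 : ℂ) ^ n * (x (L'.take (n + 1)) * ((S (L'.drop m) : ℝ) : ℂ))
            = (∑ n ∈ range m, (-1 : ℂ) ^ n * x (L'.take (n + 1))) * ((S (L'.drop m) : ℝ) : ℂ) := by
              rw [Finset.sum_mul]
              exact Finset.sum_congr rfl fun n _ => by ring
          _ = 0 := by rw [h3, zero_mul]
      rw [← sub_zero (Di x m L i), ← h2]
      unfold Di
      rw [← Finset.sum_sub_distrib]
      refine Finset.sum_congr rfl fun n _ => ?_
      rw [← hL']
      push_cast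
      ring
    rw [h1]
    refine le_trans (norm_sum_le _ _) ?_
    have h4 : ∀ n ∈ range m, ‖(-1 : ℂ) ^ n *
        (x (L'.take (n + 1)) * ((S (L'.drop (n + 1)) - S (L'.drop m) : ℝ) : ℂ))‖ ≤ X * η := by
      intro n hn
      rw [Finset.mem_range] at hn
      have h5 : L'.drop (n + 1) = (L'.drop (n + 1)).take (m - n - 1) ++ L'.drop m := by
        conv_lhs => rw [← List.take_append_drop (m - n - 1) (L'.drop (n + 1))]
        rw [List.drop_drop]
        congr 2
        omega
      have h6 := S_begin (v := (L'.drop (n + 1)).take (m - n - 1)) (u := L'.drop m)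
        ((hW.drop _).take _) (hW.drop m).to0
      rw [← h5] at h6
      have h7 : (L'.drop m).length = L.length - m := by rw [List.length_drop, hlen']
      rw [h7] at h6
      have h8 : ‖x (L'.take (n + 1))‖ ≤ X := by
        refine hX _ (hW.take _) ?_
        rw [List.length_take]
        have := min_le_left (n + 1) L'.length
        omega
      rw [norm_mul, norm_mul, norm_pow, norm_neg, norm_one, one_pow, one_mul, Complex.norm_real,
        Real.norm_eq_abs, abs_of_nonneg (by linarith)]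
      exact mul_le_mul h8 (by linarith) (by linarith) hX0
    refine le_trans (Finset.sum_le_sum h4) ?_
    rw [Finset.sum_const, Finset.card_range, nsmul_eq_mul, ← mul_assoc]
  have h9 : ‖DD x m L‖ ≤ L.length * (m * X * η) := by
    unfold DD
    refine le_trans (norm_sum_le _ _) (le_trans (Finset.sum_le_sum hDi) ?_)
    rw [Finset.sum_const, Finset.card_range, nsmul_eq_mul]
  refine le_trans h9 ?_
  have h10 := hℓ L.length L.length hl1 le_rfl (Nat.le_succ _) 0 le_rfl
  have h11 : (0 : ℝ) ≤ 2 ^ 0 * ((L.length + (0 + 2 * 0) : ℕ) *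
      (m * X * (9 * (2 / 3 : ℝ) ^ L.length))) := by positivity
  have h12 : (L.length : ℝ) * (m * X * η) ≤ 2 * ((m + 2 + L.length : ℕ) * (m * X * η)) := by
    have h13 : 0 ≤ m * X * η := by positivity
    have h14 : (L.length : ℝ) ≤ ((m + 2 + L.length : ℕ) : ℝ) := by
      push_cast
      have : (0 : ℝ) ≤ m := Nat.cast_nonneg m
      linarith
    have h15 : (L.length : ℝ) * (m * X * η) ≤ (m + 2 + L.length : ℕ) * (m * X * η) :=
      mul_le_mul_of_nonneg_right h14 h13
    have h16 : 0 ≤ ((m + 2 + L.length : ℕ) : ℝ) * (m * X * η) := by positivity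
    linarith
  linarith

end Pool.Agent.HF
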