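import Pool.Agent.LibHF31.B6

/-!
[HF C2] the mixed difference.

PLAN.  All by induction on `αs`, with the function generalised.  `mix_congr`: `wd (e :: es) (α :: αs) = site e ++ α ++ wd es αs` (`wd_cons`), `site false = [3, 2]`, `site true = [2, 3]`.
`mix_S`: induction hypothesis with `u ++ [3, 2] ++ α` and `u ++ [2, 3] ++ α` in place of `u`; then `S_comm` with `u` and `α ++ Zw αs ++ v` (`Zw_cons`, `W023_Zw`).
-/

set_option autoImplicit false

namespace Pool.Agent.HF

open Finset

theorem mix_sub (αs : List (List ℕ)) (F G : List ℕ → ℂ) :
    mix αs (fun w => F w - G w) = mix αs F - mix αs G := by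
  induction αs generalizing F G with
  | nil => simp [mix]
  | cons α αs ih =>
    simp only [mix]
    rw [ih, ih]
    ring

theorem mix_zero (αs : List (List ℕ)) : mix αs (fun _ => 0) = 0 := by
  induction αs with
  | nil => simp [mix]
  | cons α αs ih =>
    simp only [mix]
    rw [ih]
    ring

theorem mix_add (αs : List (List ℕ)) (F G : List ℕ → ℂ) :
    mix αs (fun w => F w + G w) = mix αs F + mix αs G := by
  induction αs generalizing F G with
  | nil => simp [mix]
  | cons α αs ih =>
    simp only [mix]
    rw [ih, ih]
    ring

theorem mix_mul (αs : List (List ℕ)) (a : ℂ) (F : List ℕ → ℂ) :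
    mix αs (fun w => a * F w) = a * mix αs F := by
  induction αs generalizing F with
  | nil => simp [mix]
  | cons α αs ih =>
    simp only [mix]
    rw [ih, ih]
    ring

theorem mix_sum {κ : Type} (αs : List (List ℕ)) (s : Finset κ) (F : κ → List ℕ → ℂ) :
    mix αs (fun w => ∑ i ∈ s, F i w) = ∑ i ∈ s, mix αs (F i) := by
  classical
  induction s using Finset.induction_on with
  | empty => simp [mix_zero]
  | insert a s ha ih =>
    simp only [Finset.sum_insert ha]
    rw [mix_add, ih]

theorem mix_congr (αs : List (List ℕ)) {F G : List ℕ → ℂ}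
    (h : ∀ es : List Bool, es.length = αs.length → F (wd es αs) = G (wd es αs)) :
    mix αs F = mix αs G := by
  induction αs generalizing F G with
  | nil =>
    have := h [] rfl
    simpa [mix, wd] using this
  | cons α αs ih =>
    simp only [mix]
    have h1 : mix αs (fun w => F ([3, 2] ++ α ++ w)) = mix αs (fun w => G ([3, 2] ++ α ++ w)) := by
      apply ih
      intro es hes
      have h2 := h (false :: es) (by simp [hes])
      rw [wd_cons] at h2
      simpa [site] using h2
    have h3 : mix αs (fun w => F ([2, 3] ++ α ++ w)) = mix αs (fun w => G ([2, 3] ++ α ++ w)) := by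
      apply ih
      intro es hes
      have h2 := h (true :: es) (by simp [hes])
      rw [wd_cons] at h2
      simpa [site] using h2
    rw [h1, h3]

theorem mix_norm (αs : List (List ℕ)) {F : List ℕ → ℂ} {B : ℝ}
    (h : ∀ es : List Bool, es.length = αs.length → ‖F (wd es αs)‖ ≤ B) :
    ‖mix αs F‖ ≤ 2 ^ αs.length * B := by
  induction αs generalizing F with
  | nil =>
    have := h [] rfl
    simpa [mix, wd] using this
  | cons α αs ih =>
    simp only [mix]
    have h1 : ‖mix αs (fun w => F ([3, 2] ++ α ++ w))‖ ≤ 2 ^ αs.length * B := by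
      apply ih
      intro es hes
      have h2 := h (false :: es) (by simp [hes])
      rw [wd_cons] at h2
      simpa [site] using h2
    have h3 : ‖mix αs (fun w => F ([2, 3] ++ α ++ w))‖ ≤ 2 ^ αs.length * B := by
      apply ih
      intro es hes
      have h2 := h (true :: es) (by simp [hes])
      rw [wd_cons] at h2
      simpa [site] using h2
    refine (norm_sub_le _ _).trans ?_
    rw [List.length_cons, pow_succ]
    linarith

private theorem C2_W023_append {u v : List ℕ} (hu : W023 u) (hv : W023 v) : W023 (u ++ v) := by
  intro a ha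
  rcases List.mem_append.1 ha with h | h
  · exact hu a h
  · exact hv a h

private theorem C2_W023_of_W23 {u : List ℕ} (hu : W23 u) : W023 u :=
  fun a ha => Or.inr (hu a ha)

theorem mix_S {u v : List ℕ} {αs : List (List ℕ)} (hu : W023 u) (hv : W023 v)
    (hα : ∀ α ∈ αs, W23 α) :
    mix αs (fun w => (S (u ++ w ++ v) : ℂ)) = (S (u ++ Zw αs ++ v) : ℂ) := by
  induction αs generalizing u with
  | nil => simp [mix, Zw]
  | cons α αs ih =>
    have hα1 : W23 α := hα α (by simp)
    have hα2 : ∀ β ∈ αs, W23 β := fun β hβ => hα β (by simp [hβ])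
    have hs : ∀ e : Bool, W023 (site e) := fun e => C2_W023_of_W23 (W23_site e)
    simp only [mix]
    have h1 : mix αs (fun w => (S (u ++ ([3, 2] ++ α ++ w) ++ v) : ℂ)) =
        (S ((u ++ ([3, 2] ++ α)) ++ Zw αs ++ v) : ℂ) := by
      rw [← ih (u := u ++ ([3, 2] ++ α))
        (C2_W023_append hu (C2_W023_append (hs false) (C2_W023_of_W23 hα1))) hα2]
      congr 1
      funext w
      simp [List.append_assoc]
    have h2 : mix αs (fun w => (S (u ++ ([2, 3] ++ α ++ w) ++ v) : ℂ)) =
        (S ((u ++ ([2, 3] ++ α)) ++ Zw αs ++ v) : ℂ) := by
      rw [← ih (u := u ++ ([2, 3] ++ α))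
        (C2_W023_append hu (C2_W023_append (hs true) (C2_W023_of_W23 hα1))) hα2]
      congr 1
      funext w
      simp [List.append_assoc]
    rw [h1, h2]
    have hv' : W023 (α ++ (Zw αs ++ v)) :=
      C2_W023_append (C2_W023_of_W23 hα1) (C2_W023_append (W023_Zw hα2) hv)
    have h3 := S_comm hu hv'
    have e1 : (u ++ ([3, 2] ++ α)) ++ Zw αs ++ v = u ++ 3 :: 2 :: (α ++ (Zw αs ++ v)) := by
      simp [List.append_assoc]
    have e2 : (u ++ ([2, 3] ++ α)) ++ Zw αs ++ v = u ++ 2 :: 3 :: (α ++ (Zw αs ++ v)) := by
      simp [List.append_assoc]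
    have e3 : u ++ Zw (α :: αs) ++ v = u ++ 0 :: (α ++ (Zw αs ++ v)) := by
      rw [Zw_cons]
      simp [List.append_assoc]
    rw [e1, e2, e3, h3]
    push_cast
    ring

theorem length_wd {es : List Bool} {αs : List (List ℕ)} (h : es.length = αs.length) :
    (wd es αs).length = αs.flatten.length + 2 * αs.length := by
  induction αs generalizing es with
  | nil => simp [wd]
  | cons α αs ih =>
    cases es with
    | nil => simp at h
    | cons e es =>
      have h' : es.length = αs.length := by simpa using h
      rw [wd_cons, List.length_append, List.length_append, ih h']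
      have : (site e).length = 2 := by cases e <;> simp [site]
      rw [this]
      simp only [List.flatten_cons, List.length_append, List.length_cons]
      ring

theorem sum_wd {es : List Bool} {αs : List (List ℕ)} (h : es.length = αs.length) :
    (wd es αs).sum = 5 * αs.length + αs.flatten.sum := by
  induction αs generalizing es with
  | nil => simp [wd]
  | cons α αs ih =>
    cases es with
    | nil => simp at h
    | cons e es =>
      have h' : es.length = αs.length := by simpa using h
      rw [wd_cons, List.sum_append, List.sum_append, ih h']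
      have : (site e).sum = 5 := by cases e <;> simp [site]
      rw [this]
      simp only [List.flatten_cons, List.sum_append, List.length_cons]
      ring

end Pool.Agent.HF
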