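import Pool.Agent.LibHF31.C2

/-!
[HF C3] the arcs that start after the first half of the gap: negligible.

PLAN.  `L_p = c ++ p ++ F1 ++ F2 ++ w`, `i = |c| + 2 + |F1| + i'`, `H = F2 ++ w`.  `List.rotate_eq_drop_append_take`: `L_p.rotate i = H.drop i' ++ c ++ p ++ F1 ++ H.take i'`.
Put `V = H.drop i' ++ c`, `|V| ≥ m`.  For `n < m`: `(L_p.rotate i).take (n+1) = V.take (n+1)` (the same for both `p`, and in `W23`, of length `n + 1 ≤ m`), and
`(L_p.rotate i).drop (n+1) = V.drop (n+1) ++ p ++ F1 ++ H.take i'`.  So the difference is `∑_n (-1)^n x(V.take (n+1)) * S (V.drop (n+1) ++ 0 :: (F1 ++ H.take i'))` (`S_comm`), and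
`S_zero_le` bounds `S` by `9 (2/3)^(|F1| + i') ≤ 9 (2/3)^|F1|`.
-/

set_option autoImplicit false

namespace Pool.Agent.HF

open Finset

theorem C3_rot {c p F1 F2 w : List ℕ} (hp : p.length = 2) {i : ℕ}
    (hi : c.length + 2 + F1.length ≤ i)
    (hi' : i < c.length + 2 + F1.length + F2.length + w.length) :
    (c ++ p ++ F1 ++ F2 ++ w).rotate i =
      ((F2 ++ w).drop (i - (c.length + 2 + F1.length)) ++ c) ++
        (p ++ (F1 ++ (F2 ++ w).take (i - (c.length + 2 + F1.length)))) := by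
  have hl : (c ++ p ++ F1 ++ F2 ++ w).length =
      c.length + 2 + F1.length + F2.length + w.length := by
    simp [hp]
    omega
  have hl1 : (c ++ p ++ F1).length = c.length + 2 + F1.length := by
    simp [hp]
    omega
  rw [List.rotate_eq_drop_append_take (by omega)]
  have h1 : c ++ p ++ F1 ++ F2 ++ w = (c ++ p ++ F1) ++ (F2 ++ w) := by simp
  rw [h1, List.drop_append, List.take_append, hl1, List.drop_eq_nil_of_le (by omega),
    List.take_of_length_le (by omega)]
  simp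

theorem C3_term {x : List ℕ → ℂ} {m : ℕ} {V T : List ℕ} (hm : m ≤ V.length) (p : List ℕ)
    {L : List ℕ} {i : ℕ} (h : L.rotate i = V ++ (p ++ T)) :
    Di x m L i = ∑ n ∈ range m,
      (-1) ^ n * (x (V.take (n + 1)) * (S (V.drop (n + 1) ++ (p ++ T)) : ℂ)) := by
  unfold Di
  refine Finset.sum_congr rfl fun n hn => ?_
  have hn' : n + 1 ≤ V.length := by
    have := Finset.mem_range.1 hn
    omega
  rw [h, List.take_append_of_le_length hn', List.drop_append_of_le_length hn']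

theorem rangeII {x : List ℕ → ℂ} {m : ℕ} {X : ℝ} (hX : ∀ u, W23 u → u.length ≤ m → ‖x u‖ ≤ X)
    {c F1 F2 w : List ℕ} (hc : W23 c) (h1 : W23 F1) (h2 : W23 F2) (hw : W23 w)
    (hcm : m ≤ c.length) {i : ℕ} (hi : c.length + 2 + F1.length ≤ i)
    (hi' : i < c.length + 2 + F1.length + F2.length + w.length) :
    ‖Di x m (c ++ [3, 2] ++ F1 ++ F2 ++ w) i - Di x m (c ++ [2, 3] ++ F1 ++ F2 ++ w) i‖ ≤
      m * X * (9 * (2 / 3 : ℝ) ^ F1.length) := by
  set i' := i - (c.length + 2 + F1.length) with hi0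
  set V := (F2 ++ w).drop i' ++ c with hV
  set T := F1 ++ (F2 ++ w).take i' with hT
  have hVm : m ≤ V.length := by
    rw [hV, List.length_append]
    omega
  have hVW : W23 V := ((h2.append hw).drop i').append hc
  have hTW : W23 T := h1.append ((h2.append hw).take i')
  rw [C3_term (x := x) hVm [3, 2] (C3_rot (by rfl) hi hi'),
    C3_term (x := x) hVm [2, 3] (C3_rot (by rfl) hi hi'), ← Finset.sum_sub_distrib]
  refine (norm_sum_le _ _).trans ?_
  have hb : ∀ n ∈ range m, ‖(-1 : ℂ) ^ n * (x (V.take (n + 1)) *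
      (S (V.drop (n + 1) ++ ([3, 2] ++ T)) : ℂ)) - (-1) ^ n * (x (V.take (n + 1)) *
      (S (V.drop (n + 1) ++ ([2, 3] ++ T)) : ℂ))‖ ≤ X * (9 * (2 / 3 : ℝ) ^ F1.length) := by
    intro n hn
    have hn' := Finset.mem_range.1 hn
    have hc1 : S (V.drop (n + 1) ++ ([3, 2] ++ T)) =
        S (V.drop (n + 1) ++ ([2, 3] ++ T)) + S (V.drop (n + 1) ++ 0 :: T) :=
      S_comm (hVW.drop _).to0 hTW.to0
    rw [hc1]
    have h3 : (-1 : ℂ) ^ n * (x (V.take (n + 1)) * (((S (V.drop (n + 1) ++ ([2, 3] ++ T)) +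
        S (V.drop (n + 1) ++ 0 :: T) : ℝ)) : ℂ)) - (-1) ^ n * (x (V.take (n + 1)) *
        (S (V.drop (n + 1) ++ ([2, 3] ++ T)) : ℂ)) =
        (-1) ^ n * (x (V.take (n + 1)) * (S (V.drop (n + 1) ++ 0 :: T) : ℂ)) := by
      push_cast
      ring
    rw [h3, norm_mul, norm_pow, norm_neg, norm_one, one_pow, one_mul, norm_mul]
    have h4 : ‖x (V.take (n + 1))‖ ≤ X := by
      apply hX _ (hVW.take _)
      rw [List.length_take]
      omega
    have h5 : ‖((S (V.drop (n + 1) ++ 0 :: T) : ℝ) : ℂ)‖ ≤ 9 * (2 / 3 : ℝ) ^ F1.length := by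
      rw [Complex.norm_real, Real.norm_of_nonneg (S_nonneg _)]
      refine (S_zero_le (hVW.drop _) hTW.to0).trans ?_
      have h6 : (2 / 3 : ℝ) ^ T.length ≤ (2 / 3 : ℝ) ^ F1.length := by
        apply pow_le_pow_of_le_one (by norm_num) (by norm_num)
        rw [hT, List.length_append]
        omega
      linarith
    exact mul_le_mul h4 h5 (norm_nonneg _) ((norm_nonneg _).trans h4)
  refine (Finset.sum_le_sum hb).trans ?_
  rw [Finset.sum_const, Finset.card_range, nsmul_eq_mul, mul_assoc]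

end Pool.Agent.HF
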