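import Pool.Agent.LibHF31.C2

/-!
[HF C4] the arcs that start before the middle of the gap.

PLAN.  `V = c ++ p ++ F1 ++ F2`, `L = V ++ w`.  For `n < m`, `i + n + 1 ≤ |V|`: `L.rotate i = V.drop i ++ w ++ V.take i`, `(L.rotate i).take (n+1) = (V.drop i).take (n+1)`,
`(L.rotate i).drop (n+1) = V.drop (i+n+1) ++ w ++ V.take i`.  `mix_sum`, `mix_mul`, `mix_S`:
`mix αs (Di ..) = ∑_{n<m} (-1)^n x ((V.drop i).take (n+1)) * S (V.drop (i+n+1) ++ Zw αs ++ V.take i)`.  Since `i + n + 1 ≤ |c| + 2 + |F1| + m`,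
`V.drop (i+n+1) = v ++ F2.drop m` with `v` in `W23` (`v = (c ++ p ++ F1 ++ F2.take m).drop (i+n+1)`), so `S_begin` with
`u = F2.drop m ++ Zw αs ++ V.take i` (length `≥ |F2| - m`) gives `|S (v ++ u) - S u| ≤ 2 (2/3)^(|F2| - m)`.
-/

set_option autoImplicit false

namespace Pool.Agent.HF

open Finset

theorem C4_Di {x : List ℕ → ℂ} {m : ℕ} {V : List ℕ} {i : ℕ} (hi : i + m ≤ V.length)
    (w : List ℕ) : Di x m (V ++ w) i = ∑ n ∈ range m,
      (-1) ^ n * (x ((V.drop i).take (n + 1)) * (S (V.drop (i + n + 1) ++ w ++ V.take i) : ℂ)) := by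
  unfold Di
  have h0 : (V ++ w).rotate i = V.drop i ++ (w ++ V.take i) := by
    rw [List.rotate_eq_drop_append_take (by rw [List.length_append]; omega),
      List.drop_append_of_le_length (by omega), List.take_append_of_le_length (by omega),
      List.append_assoc]
  refine Finset.sum_congr rfl fun n hn => ?_
  have hn' := Finset.mem_range.1 hn
  have hl : n + 1 ≤ (V.drop i).length := by
    rw [List.length_drop]
    omega
  rw [h0, List.take_append_of_le_length hl, List.drop_append_of_le_length hl, List.drop_drop,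
    ← List.append_assoc, ← add_assoc]

theorem rangeI {x : List ℕ → ℂ} {m : ℕ} {X : ℝ} (hX : ∀ u, W23 u → u.length ≤ m → ‖x u‖ ≤ X)
    {c F1 F2 p : List ℕ} {αs : List (List ℕ)} (hc : W23 c) (h1 : W23 F1) (h2 : W23 F2)
    (hp : W23 p) (hα : ∀ α ∈ αs, W23 α) (hp2 : p.length = 2) (hm : m ≤ F2.length) {i : ℕ}
    (hi : i < c.length + 2 + F1.length) :
    ‖mix αs (fun w => Di x m (c ++ p ++ F1 ++ F2 ++ w) i) -
      EE x m ((c ++ p ++ F1 ++ F2).drop i) *
        (S (F2.drop m ++ Zw αs ++ (c ++ p ++ F1 ++ F2).take i) : ℂ)‖ ≤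
      m * X * (2 * (2 / 3 : ℝ) ^ (F2.length - m)) := by
  set V := c ++ p ++ F1 ++ F2 with hV
  have hVl : V.length = c.length + 2 + F1.length + F2.length := by
    rw [hV]
    simp only [List.length_append, hp2]
  have hVW : W23 V := ((hc.append hp).append h1).append h2
  have hDi : (fun w => Di x m (V ++ w) i) = fun w => ∑ n ∈ range m,
      ((-1) ^ n * x ((V.drop i).take (n + 1))) * (S (V.drop (i + n + 1) ++ w ++ V.take i) : ℂ) := by
    funext w
    rw [C4_Di (by omega)]
    refine Finset.sum_congr rfl fun n _ => ?_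
    ring
  rw [hDi, mix_sum]
  have hterm : ∀ n ∈ range m, mix αs (fun w => ((-1) ^ n * x ((V.drop i).take (n + 1))) *
      (S (V.drop (i + n + 1) ++ w ++ V.take i) : ℂ)) =
      ((-1) ^ n * x ((V.drop i).take (n + 1))) *
        (S (V.drop (i + n + 1) ++ Zw αs ++ V.take i) : ℂ) := by
    intro n _
    rw [mix_mul, mix_S (hVW.drop _).to0 (hVW.take _).to0 hα]
  rw [Finset.sum_congr rfl hterm]
  unfold EE
  rw [Finset.sum_mul, ← Finset.sum_sub_distrib]
  refine (norm_sum_le _ _).trans ?_
  have hb : ∀ n ∈ range m, ‖((-1 : ℂ) ^ n * x ((V.drop i).take (n + 1))) *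
        (S (V.drop (i + n + 1) ++ Zw αs ++ V.take i) : ℂ) -
      (-1 : ℂ) ^ n * x ((V.drop i).take (n + 1)) *
        (S (F2.drop m ++ Zw αs ++ V.take i) : ℂ)‖ ≤
      X * (2 * (2 / 3 : ℝ) ^ (F2.length - m)) := by
    intro n hn
    have hn' := Finset.mem_range.1 hn
    have h3 : V.drop (i + n + 1) = (c ++ p ++ F1 ++ F2.take m).drop (i + n + 1) ++ F2.drop m := by
      have h4 : V = (c ++ p ++ F1 ++ F2.take m) ++ F2.drop m := by
        rw [hV]
        simp only [List.append_assoc, List.take_append_drop]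
      have h5 : (c ++ p ++ F1 ++ F2.take m).length = c.length + 2 + F1.length + m := by
        simp only [List.length_append, hp2, List.length_take]
        omega
      conv_lhs => rw [h4]
      rw [List.drop_append_of_le_length (by omega)]
    set v := (c ++ p ++ F1 ++ F2.take m).drop (i + n + 1) with hv
    set u := F2.drop m ++ Zw αs ++ V.take i with hu
    have hvW : W23 v := (((hc.append hp).append h1).append (h2.take m)).drop _
    have huW : W023 u := ((h2.drop m).to0.append (W023_Zw hα)).append (hVW.take _).to0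
    have h6 : V.drop (i + n + 1) ++ Zw αs ++ V.take i = v ++ u := by
      rw [h3, hu]
      simp only [List.append_assoc]
    rw [h6, ← mul_sub, norm_mul, norm_mul, norm_pow, norm_neg, norm_one, one_pow, one_mul]
    have h7 : ‖x ((V.drop i).take (n + 1))‖ ≤ X := by
      apply hX _ ((hVW.drop _).take _)
      rw [List.length_take]
      omega
    have h8 : ‖((S (v ++ u) : ℝ) : ℂ) - ((S u : ℝ) : ℂ)‖ ≤
        2 * (2 / 3 : ℝ) ^ (F2.length - m) := by
      rw [← Complex.ofReal_sub, Complex.norm_real, Real.norm_eq_abs]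
      obtain ⟨h9, h10⟩ := S_begin hvW huW
      rw [abs_of_nonneg (by linarith)]
      have h11 : (2 / 3 : ℝ) ^ u.length ≤ (2 / 3 : ℝ) ^ (F2.length - m) := by
        apply pow_le_pow_of_le_one (by norm_num) (by norm_num)
        rw [hu]
        simp only [List.length_append, List.length_drop]
        omega
      linarith
    exact mul_le_mul h7 h8 (norm_nonneg _) ((norm_nonneg _).trans h7)
  refine (Finset.sum_le_sum hb).trans ?_
  rw [Finset.sum_const, Finset.card_range, nsmul_eq_mul, mul_assoc]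

end Pool.Agent.HF
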