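import Pool.Agent.LibHF31.C1
import Pool.Agent.LibHF31.C3
import Pool.Agent.LibHF31.C4
import Pool.Agent.LibHF31.C5

/-!
[HF C6] the main estimate.

PLAN.  For every `es` (`es.length = αs.length`), `w = wd es αs`, `L_p = c ++ p ++ F1 ++ F2 ++ w`: `DD x m L_32 = Y (sum) = DD x m L_23` (`DD_eq`, the two sums agree, `site false = [3,2]`,
`site true = [2,3]`).  So `0 = mix αs (fun w => DD L_32 - DD L_23)`.  `DD = ∑_{i < |L|}`, `|L| = N₁ + N₂`, `N₁ = |c| + 2 + |F1|`, `N₂ = |F2| + |w|`, `|w| = αs.flatten.length + 2 αs.length` (`length_wd`)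
does not depend on `es`; so (first `mix_congr` to replace `range L.length` by `range (N₁ + N₂)`)
`0 = ∑_{i<N₁} (mix Di32 - mix Di23) + mix (∑_{N₁ ≤ i < N₁+N₂} (Di32 - Di23))` (`mix_sub`, `mix_sum`, `mix_add`).
Second part: `mix_norm` with `rangeII` (`N₂` terms).  First part: `rangeI` twice for every `i < N₁` and `regroup` with `u = F2.drop m ++ Zw αs`.
-/

set_option autoImplicit false

namespace Pool.Agent.HF

open Finset

theorem main_est {x : List ℕ → ℂ} {Y : ℕ → ℂ} (hI : CI x Y) {m : ℕ} {X : ℝ}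
    (hX : ∀ u, W23 u → u.length ≤ m → ‖x u‖ ≤ X) {c F1 F2 : List ℕ} {αs : List (List ℕ)}
    (hc : W23 c) (h1 : W23 F1) (h2 : W23 F2) (hα : ∀ α ∈ αs, W23 α) (hcm : c.length = m)
    (hm : m ≤ F2.length)
    (hg : ∀ (e : Bool) (es : List Bool), es.length = αs.length →
      Good x m (c ++ site e ++ F1 ++ F2 ++ wd es αs)) :
    ‖∑ r ∈ range (c.length + 3 + F1.length),
      ce x m c (F1 ++ F2) r * (S (F2.drop m ++ Zw αs ++ tw c (F1 ++ F2) r) : ℂ)‖ ≤
      2 ^ αs.length * ((F2.length + (αs.flatten.length + 2 * αs.length) : ℕ) *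
        (m * X * (9 * (2 / 3 : ℝ) ^ F1.length))) +
      2 * ((c.length + 2 + F1.length : ℕ) * (m * X * (2 * (2 / 3 : ℝ) ^ (F2.length - m)))) := by
  have hp32 : W23 [3, 2] := W23_site false
  have hp23 : W23 [2, 3] := W23_site true
  obtain ⟨N₁, hN₁⟩ : ∃ N, N = c.length + 2 + F1.length := ⟨_, rfl⟩
  obtain ⟨N₂, hN₂⟩ : ∃ N, N = F2.length + (αs.flatten.length + 2 * αs.length) := ⟨_, rfl⟩
  obtain ⟨A, hA⟩ : ∃ A : ℕ → List ℕ → ℂ, A = fun i w =>
    Di x m (c ++ [3, 2] ++ F1 ++ F2 ++ w) i - Di x m (c ++ [2, 3] ++ F1 ++ F2 ++ w) i := ⟨_, rfl⟩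
  have hzero : ∑ i ∈ range (N₁ + N₂), mix αs (A i) = 0 := by
    rw [← mix_sum, ← mix_zero αs]
    refine mix_congr αs fun es hes => ?_
    have hw := W23_wd hα es
    have hlw := length_wd hes
    have key : ∀ p : List ℕ, p.length = 2 → W23 p → p ≠ [] →
        Good x m (c ++ p ++ F1 ++ F2 ++ wd es αs) →
        ∑ i ∈ range (N₁ + N₂), Di x m (c ++ p ++ F1 ++ F2 ++ wd es αs) i =
          Y (c ++ p ++ F1 ++ F2 ++ wd es αs).sum := by
      intro p hp hpw hp0 hgp
      have hlen : (c ++ p ++ F1 ++ F2 ++ wd es αs).length = N₁ + N₂ := by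
        simp only [List.length_append, hp, hlw, hN₁, hN₂]; ring
      have := DD_eq hI (L := c ++ p ++ F1 ++ F2 ++ wd es αs) (by
          intro h
          simp only [List.append_eq_nil_iff] at h
          exact hp0 h.1.1.1.2)
        ((((hc.append hpw).append h1).append h2).append hw) (m := m) (by rw [hlen, hN₂]; omega) hgp
      rw [← this]
      unfold DD
      rw [hlen]
    have k1 := key [3, 2] rfl hp32 (by simp) (hg false es hes)
    have k2 := key [2, 3] rfl hp23 (by simp) (hg true es hes)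
    have hs : (c ++ [3, 2] ++ F1 ++ F2 ++ wd es αs).sum =
        (c ++ [2, 3] ++ F1 ++ F2 ++ wd es αs).sum := by
      simp only [List.sum_append, List.sum_cons, List.sum_nil]
      omega
    show ∑ i ∈ range (N₁ + N₂), A i (wd es αs) = 0
    rw [hA]
    simp only
    rw [Finset.sum_sub_distrib, k1, k2, hs, sub_self]
  rw [Finset.sum_range_add] at hzero
  have hII : ‖∑ i ∈ range N₂, mix αs (A (N₁ + i))‖ ≤
      2 ^ αs.length * (N₂ * (m * X * (9 * (2 / 3 : ℝ) ^ F1.length))) := by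
    have h3 : ∀ i ∈ range N₂, ‖mix αs (A (N₁ + i))‖ ≤
        2 ^ αs.length * (m * X * (9 * (2 / 3 : ℝ) ^ F1.length)) := by
      intro i hi
      rw [Finset.mem_range] at hi
      refine mix_norm αs fun es hes => ?_
      rw [hA]
      refine rangeII hX hc h1 h2 (W23_wd hα es) hcm.ge (by omega) ?_
      rw [length_wd hes]
      omega
    refine (norm_sum_le_of_le _ h3).trans ?_
    rw [Finset.sum_const, Finset.card_range, nsmul_eq_mul]
    apply le_of_eq
    ring
  have hI' : ‖∑ i ∈ range N₁, mix αs (A i) -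
      ∑ r ∈ range (c.length + 3 + F1.length),
      ce x m c (F1 ++ F2) r * (S (F2.drop m ++ Zw αs ++ tw c (F1 ++ F2) r) : ℂ)‖ ≤
      2 * (N₁ * (m * X * (2 * (2 / 3 : ℝ) ^ (F2.length - m)))) := by
    have hu : W023 (F2.drop m ++ Zw αs) := ((h2.drop m).to0).append (W023_Zw hα)
    rw [← regroup x m hc h1 h2 hu, ← hN₁, ← Finset.sum_sub_distrib]
    have h4 : ∀ i ∈ range N₁, ‖mix αs (A i) -
        (EE x m ((c ++ [3, 2] ++ F1 ++ F2).drop i) *
          (S (F2.drop m ++ Zw αs ++ (c ++ [3, 2] ++ F1 ++ F2).take i) : ℂ) -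
        EE x m ((c ++ [2, 3] ++ F1 ++ F2).drop i) *
          (S (F2.drop m ++ Zw αs ++ (c ++ [2, 3] ++ F1 ++ F2).take i) : ℂ))‖ ≤
        2 * (m * X * (2 * (2 / 3 : ℝ) ^ (F2.length - m))) := by
      intro i hi
      rw [Finset.mem_range, hN₁] at hi
      have a1 := rangeI hX (p := [3, 2]) hc h1 h2 hp32 hα rfl hm hi
      have a2 := rangeI hX (p := [2, 3]) hc h1 h2 hp23 hα rfl hm hi
      have a3 : mix αs (A i) = mix αs (fun w => Di x m (c ++ [3, 2] ++ F1 ++ F2 ++ w) i) -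
          mix αs (fun w => Di x m (c ++ [2, 3] ++ F1 ++ F2 ++ w) i) := by
        rw [hA, ← mix_sub]
      rw [a3]
      have a4 := norm_sub_le
        (mix αs (fun w => Di x m (c ++ [3, 2] ++ F1 ++ F2 ++ w) i) -
          EE x m ((c ++ [3, 2] ++ F1 ++ F2).drop i) *
            (S (F2.drop m ++ Zw αs ++ (c ++ [3, 2] ++ F1 ++ F2).take i) : ℂ))
        (mix αs (fun w => Di x m (c ++ [2, 3] ++ F1 ++ F2 ++ w) i) -
          EE x m ((c ++ [2, 3] ++ F1 ++ F2).drop i) *
            (S (F2.drop m ++ Zw αs ++ (c ++ [2, 3] ++ F1 ++ F2).take i) : ℂ))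
      refine le_trans (le_of_eq ?_) (a4.trans ?_)
      · congr 1; ring
      · linarith
    refine (norm_sum_le_of_le _ h4).trans ?_
    rw [Finset.sum_const, Finset.card_range, nsmul_eq_mul]
    apply le_of_eq
    ring
  have hfin : ∑ r ∈ range (c.length + 3 + F1.length),
      ce x m c (F1 ++ F2) r * (S (F2.drop m ++ Zw αs ++ tw c (F1 ++ F2) r) : ℂ) =
      - (∑ i ∈ range N₂, mix αs (A (N₁ + i))) -
      (∑ i ∈ range N₁, mix αs (A i) -
      ∑ r ∈ range (c.length + 3 + F1.length),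
      ce x m c (F1 ++ F2) r * (S (F2.drop m ++ Zw αs ++ tw c (F1 ++ F2) r) : ℂ)) := by
    linear_combination hzero
  rw [hfin, ← hN₁, ← hN₂]
  refine (norm_sub_le _ _).trans ?_
  rw [norm_neg]
  exact add_le_add hII hI'

end Pool.Agent.HF
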