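import Pool.Agent.LibHF31.C7
import Pool.Agent.LibHF31.AM

/-!
[HF C8] the local sums vanish everywhere in a good circular word.
-/

set_option autoImplicit false

namespace Pool.Agent.HF

open Finset

theorem C8_wd_append {es₁ es₂ : List Bool} {bs₁ bs₂ : List (List ℕ)} (h : es₁.length = bs₁.length) :
    wd (es₁ ++ es₂) (bs₁ ++ bs₂) = wd es₁ bs₁ ++ wd es₂ bs₂ := by
  induction es₁ generalizing bs₁ with
  | nil =>
    have : bs₁ = [] := List.length_eq_zero_iff.1 h.symm
    subst this
    simp [wd]
  | cons e es₁ ih =>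
    cases bs₁ with
    | nil => simp at h
    | cons β bs₁ =>
      rw [List.cons_append, List.cons_append, wd_cons, wd_cons, ih (by simpa using h)]
      simp

theorem C8_wd_single (e : Bool) (β : List ℕ) : wd [e] [β] = site e ++ β := by
  simp [wd]

theorem C8_site_length (e : Bool) : (site e).length = 2 := by
  unfold site
  split_ifs <;> rfl

theorem C8_rotate_one {g : ℕ} (hg : 2 ≤ g) {es : List Bool} {bs : List (List ℕ)}
    (hl : es.length = bs.length) (hb : ∀ β ∈ bs, β.length = g - 2) :
    (wd es bs).rotate g = wd (es.rotate 1) (bs.rotate 1) := by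
  cases es with
  | nil =>
    have : bs = [] := List.length_eq_zero_iff.1 hl.symm
    subst this
    simp [wd]
  | cons e es =>
    cases bs with
    | nil => simp at hl
    | cons β bs =>
      have h1 : (site e ++ β).length = g := by
        rw [List.length_append, C8_site_length, hb β (by simp)]
        omega
      rw [wd_cons]
      have h2 := List.rotate_append_length_eq (site e ++ β) (wd es bs)
      rw [h1] at h2
      rw [h2, List.rotate_cons_succ, List.rotate_cons_succ, List.rotate_zero, List.rotate_zero,
        C8_wd_append (by simpa using hl), C8_wd_single]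

theorem wd_rotate {g : ℕ} (hg : 2 ≤ g) (q : ℕ) {es : List Bool} {bs : List (List ℕ)}
    (hl : es.length = bs.length) (hb : ∀ β ∈ bs, β.length = g - 2) :
    (wd es bs).rotate (q * g) = wd (es.rotate q) (bs.rotate q) := by
  induction q with
  | zero => simp
  | succ q ih =>
    have h1 : (q + 1) * g = q * g + g := by ring
    rw [h1, ← List.rotate_rotate, ih, C8_rotate_one hg (by simpa using hl), List.rotate_rotate,
      List.rotate_rotate]
    intro β hβ
    exact hb β (List.mem_rotate.1 hβ)

theorem good_rotate {x : List ℕ → ℂ} {m : ℕ} {L : List ℕ} (h : Good x m L) (t : ℕ) :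
    Good x m (L.rotate t) := by
  intro i n hmn hn
  rw [arc_rotate]
  exact h (i + t) n hmn (by simpa using hn)

theorem C8_first (x : List ℕ → ℂ) (m g k ℓ₀ : ℕ) (hg : m + 2 ≤ g) (hk : 1 ≤ k)
    (hs : ∀ (c F1 F2 : List ℕ) (αs : List (List ℕ)),
      W23 c → W23 F1 → W23 F2 → (∀ α ∈ αs, W23 α) → c.length = m → αs.length = k →
      αs.flatten.length ≤ k * g → ℓ₀ ≤ F1.length → F1.length ≤ F2.length →
      F2.length ≤ F1.length + 1 →
      (∀ (e : Bool) (es : List Bool), es.length = k →
        Good x m (c ++ site e ++ F1 ++ F2 ++ wd es αs)) →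
      EE x m (3 :: (F1 ++ F2)) = 0 ∧ EE x m (2 :: (F1 ++ F2)) = 0 ∧
        ∀ r ≤ g, EE x m ((F1 ++ F2).drop r) = 0)
    (b : ℕ) (hb : k + ℓ₀ + 3 ≤ b) (bs : List (List ℕ)) (hbl : bs.length = b)
    (hbs : ∀ β ∈ bs, β.length = g - 2 ∧ W23 β)
    (hgood : ∀ es : List Bool, es.length = b → Good x m (wd es bs))
    (es : List Bool) (hes : es.length = b) (i : ℕ) (hi1 : 1 ≤ i) (hig : i ≤ g) :
    EE x m ((wd es bs).rotate i) = 0 := by
  -- decompose the blocks
  obtain ⟨β, bs', rfl⟩ : ∃ β bs', bs = β :: bs' := by
    cases bs with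
    | nil => simp at hbl; omega
    | cons β bs' => exact ⟨β, bs', rfl⟩
  obtain ⟨bs'', βl, rfl⟩ : ∃ bs'' βl, bs' = bs'' ++ [βl] := by
    rcases List.eq_nil_or_concat bs' with h | ⟨l, a, h⟩
    · subst h; simp at hbl; omega
    · exact ⟨l, a, by simpa using h⟩
  obtain ⟨e, es', rfl⟩ : ∃ e es', es = e :: es' := by
    cases es with
    | nil => simp at hes; omega
    | cons e es' => exact ⟨e, es', rfl⟩
  simp only [List.length_cons, List.length_append, List.length_nil] at hbl hes
  obtain ⟨B1, B2, rfl, hB1, hB2⟩ : ∃ B1 B2, bs'' = B1 ++ B2 ∧ B1.length = b - 1 - k ∧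
      B2.length = k - 1 := by
    refine ⟨bs''.take (b - 1 - k), bs''.drop (b - 1 - k), (List.take_append_drop _ _).symm, ?_, ?_⟩
    · rw [List.length_take]; omega
    · rw [List.length_drop]; omega
  obtain ⟨es1, es2, rfl, he1, he2⟩ : ∃ es1 es2, es' = es1 ++ es2 ∧ es1.length = b - 1 - k ∧
      es2.length = k := by
    refine ⟨es'.take (b - 1 - k), es'.drop (b - 1 - k), (List.take_append_drop _ _).symm, ?_, ?_⟩
    · rw [List.length_take]; omega
    · rw [List.length_drop]; omega
  have hβ := hbs β (by simp)
  have hβl := hbs βl (by simp)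
  have hB1' : ∀ α ∈ B1, α.length = g - 2 ∧ W23 α := fun α hα => hbs α (by simp [hα])
  have hB2' : ∀ α ∈ B2, α.length = g - 2 ∧ W23 α := fun α hα => hbs α (by simp [hα])
  set F : List ℕ := β ++ wd es1 B1 with hF
  set αs : List (List ℕ) := B2 ++ [βl.take (g - 2 - m)] with hαs
  set c : List ℕ := βl.drop (g - 2 - m) with hc
  -- the word
  have hw : ∀ e0 : Bool, ∀ es3 : List Bool, es3.length = k →
      wd (e0 :: (es1 ++ es3)) (β :: (B1 ++ B2 ++ [βl])) =
        site e0 ++ F ++ wd es3 αs ++ c := by
    intro e0 es3 h3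
    obtain ⟨es4, e4, rfl⟩ : ∃ es4 e4, es3 = es4 ++ [e4] := by
      rcases List.eq_nil_or_concat es3 with h | ⟨l, a, h⟩
      · subst h; simp at h3; omega
      · exact ⟨l, a, by simpa using h⟩
    have h4 : es4.length = B2.length := by
      simp only [List.length_append, List.length_cons, List.length_nil] at h3
      omega
    rw [wd_cons, List.append_assoc B1, C8_wd_append (by omega), C8_wd_append h4, C8_wd_single,
      hαs, C8_wd_append h4, C8_wd_single, hF, hc]
    simp only [List.append_assoc, List.take_append_drop]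
  have hFW : W23 F := hβ.2.append (W23_wd (fun α hα => (hB1' α hα).2) _)
  have hflat : ∀ (B : List (List ℕ)), (∀ α ∈ B, α.length = g - 2 ∧ W23 α) →
      B.flatten.length = B.length * (g - 2) := by
    intro B hB
    induction B with
    | nil => simp
    | cons a B ih =>
      rw [List.flatten_cons, List.length_append, (hB a (by simp)).1,
        ih (fun α hα => hB α (by simp [hα])), List.length_cons]
      ring
  have hFlen : F.length = (b - k) * g - 2 := by
    rw [hF, List.length_append, hβ.1, length_wd (by omega), hflat B1 hB1', hB1]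
    obtain ⟨d, hd⟩ : ∃ d, b = d + 1 + k := ⟨b - 1 - k, by omega⟩
    obtain ⟨g', rfl⟩ : ∃ g', g = g' + 2 := ⟨g - 2, by omega⟩
    subst hd
    have e1 : d + 1 + k - 1 - k = d := by omega
    have e2 : d + 1 + k - k = d + 1 := by omega
    have e3 : g' + 2 - 2 = g' := by omega
    rw [e1, e2, e3]
    have : (d + 1) * (g' + 2) - 2 = d * g' + g' + 2 * d := by
      have : (d + 1) * (g' + 2) = d * g' + g' + 2 * d + 2 := by ring
      omega
    rw [this]
    ring
  have hFbig : (ℓ₀ + 3) * g - 2 ≤ F.length := by
    rw [hFlen]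
    have : (ℓ₀ + 3) * g ≤ (b - k) * g := Nat.mul_le_mul_right _ (by omega)
    omega
  have hFbig' : ℓ₀ * 2 + g + m ≤ F.length := by
    have : (ℓ₀ + 3) * g = ℓ₀ * g + 3 * g := by ring
    have h2 : ℓ₀ * 2 ≤ ℓ₀ * g := Nat.mul_le_mul_left _ (by omega)
    omega
  have hαl : αs.length = k := by
    rw [hαs]
    simp only [List.length_append, List.length_cons, List.length_nil]
    omega
  have hαW : ∀ α ∈ αs, W23 α := by
    intro α hα
    rw [hαs, List.mem_append] at hα
    rcases hα with h | h
    · exact (hB2' α h).2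
    · rw [List.mem_singleton] at h
      rw [h]
      exact hβl.2.take _
  have hαf : αs.flatten.length ≤ k * g := by
    rw [hαs, List.flatten_append, List.length_append, hflat B2 hB2', hB2]
    simp only [List.flatten_cons, List.flatten_nil, List.append_nil, List.length_take]
    rw [hβl.1]
    obtain ⟨k', rfl⟩ : ∃ k', k = k' + 1 := ⟨k - 1, by omega⟩
    have e1 : k' + 1 - 1 = k' := by omega
    rw [e1]
    have h1 : k' * (g - 2) ≤ k' * g := Nat.mul_le_mul_left _ (by omega)
    have h2 : (k' + 1) * g = k' * g + g := by ring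
    have h3 : min (g - 2 - m) (g - 2) ≤ g := by omega
    omega
  have hcl : c.length = m := by
    rw [hc, List.length_drop, hβl.1]
    omega
  have hcW : W23 c := hβl.2.drop _
  have key := hs c (F.take (F.length / 2)) (F.drop (F.length / 2)) αs hcW (hFW.take _)
    (hFW.drop _) hαW hcl hαl hαf (by rw [List.length_take]; omega)
    (by rw [List.length_take, List.length_drop]; omega)
    (by rw [List.length_take, List.length_drop]; omega) (by
      intro e0 es3 h3
      have h5 := hw e0 es3 h3
      have h6 : c ++ site e0 ++ F.take (F.length / 2) ++ F.drop (F.length / 2) ++ wd es3 αs =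
          (wd (e0 :: (es1 ++ es3)) (β :: (B1 ++ B2 ++ [βl]))).rotate
            (site e0 ++ F ++ wd es3 αs).length := by
        rw [h5, List.rotate_append_length_eq]
        simp only [List.append_assoc]
        rw [← List.append_assoc (List.take _ _), List.take_append_drop]
      rw [h6]
      refine good_rotate (hgood _ ?_) _
      simp only [List.length_cons, List.length_append]
      omega)
  rw [List.take_append_drop] at key
  obtain ⟨k3, k2, k0⟩ := key
  rw [hw e es2 he2]
  by_cases h1 : i = 1
  · subst h1
    cases e with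
    | true =>
      have h2 : (site true ++ F ++ wd es2 αs ++ c).rotate 1 =
          (3 :: F) ++ (wd es2 αs ++ c ++ [2]) := by
        simp [site, List.rotate_cons_succ]
      rw [h2, EE_append x m (by simp only [List.length_cons]; omega)]
      exact k3
    | false =>
      have h2 : (site false ++ F ++ wd es2 αs ++ c).rotate 1 =
          (2 :: F) ++ (wd es2 αs ++ c ++ [3]) := by
        simp [site, List.rotate_cons_succ]
      rw [h2, EE_append x m (by simp only [List.length_cons]; omega)]
      exact k2
  · obtain ⟨r, rfl⟩ : ∃ r, i = 2 + r := ⟨i - 2, by omega⟩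
    have h2 : (site e ++ F ++ wd es2 αs ++ c).rotate (2 + r) =
        F.drop r ++ (wd es2 αs ++ c ++ (site e ++ F.take r)) := by
      rw [← List.rotate_rotate]
      have h3 := List.rotate_append_length_eq (site e) (F ++ wd es2 αs ++ c)
      rw [C8_site_length] at h3
      have h4 : site e ++ F ++ wd es2 αs ++ c = site e ++ (F ++ wd es2 αs ++ c) := by
        simp only [List.append_assoc]
      rw [h4, h3]
      have h5 : F ++ wd es2 αs ++ c ++ site e = F.take r ++ (F.drop r ++ (wd es2 αs ++ c ++ site e)) := by
        rw [← List.append_assoc (List.take r F), List.take_append_drop]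
        simp only [List.append_assoc]
      have h6 := List.rotate_append_length_eq (F.take r) (F.drop r ++ (wd es2 αs ++ c ++ site e))
      have h7 : (F.take r).length = r := by
        rw [List.length_take]
        omega
      rw [h7] at h6
      rw [h5, h6]
      simp only [List.append_assoc]
    rw [h2, EE_append x m (by rw [List.length_drop]; omega)]
    exact k0 r (by omega)

theorem all_zero (x : List ℕ → ℂ) (Y : ℕ → ℂ) (hI : CI x Y) (m g : ℕ) (hg : m + 2 ≤ g) :
    ∃ b₀ : ℕ, ∀ b, b₀ ≤ b → ∀ bs : List (List ℕ), bs.length = b →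
      (∀ β ∈ bs, β.length = g - 2 ∧ W23 β) →
      (∀ es : List Bool, es.length = b → Good x m (wd es bs)) →
      ∀ es : List Bool, es.length = b → ∀ i, EE x m ((wd es bs).rotate i) = 0 := by
  obtain ⟨k, hk, hs⟩ := site_lemma x Y hI m
  obtain ⟨ℓ₀, hs'⟩ := hs (k * g) g
  refine ⟨k + ℓ₀ + 3, ?_⟩
  intro b hb bs hbl hbs hgood es hes i
  have hb0 : ∀ β ∈ bs, β.length = g - 2 := fun β hβ => (hbs β hβ).1
  have hlen : (wd es bs).length = b * g := by
    have hflat : ∀ (B : List (List ℕ)), (∀ α ∈ B, α.length = g - 2) →
        B.flatten.length = B.length * (g - 2) := by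
      intro B hB
      induction B with
      | nil => simp
      | cons a B ih =>
        rw [List.flatten_cons, List.length_append, hB a (by simp),
          ih (fun α hα => hB α (by simp [hα])), List.length_cons]
        ring
    rw [length_wd (by omega), hflat bs hb0, hbl]
    obtain ⟨g', rfl⟩ : ∃ g', g = g' + 2 := ⟨g - 2, by omega⟩
    have e3 : g' + 2 - 2 = g' := by omega
    rw [e3]
    ring
  -- reduce to an index between 1 and the length
  obtain ⟨i', hi1, hi2, hi3⟩ : ∃ i', 1 ≤ i' ∧ i' ≤ b * g ∧
      (wd es bs).rotate i = (wd es bs).rotate i' := by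
    by_cases h0 : i % (b * g) = 0
    · refine ⟨b * g, Nat.mul_pos (by omega) (by omega), le_rfl, ?_⟩
      rw [← List.rotate_mod, hlen, h0, List.rotate_zero, ← hlen, List.rotate_length]
    · refine ⟨i % (b * g), by omega, (Nat.mod_lt _ (Nat.mul_pos (by omega) (by omega))).le, ?_⟩
      rw [← List.rotate_mod, hlen]
  rw [hi3]
  obtain ⟨q, t, hqt, ht, hq⟩ : ∃ q t, i' = q * g + (t + 1) ∧ t < g ∧ q < b := by
    refine ⟨(i' - 1) / g, (i' - 1) % g, ?_, Nat.mod_lt _ (by omega), ?_⟩
    · have := Nat.div_add_mod (i' - 1) g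
      rw [mul_comm] at this
      omega
    · rw [Nat.div_lt_iff_lt_mul (by omega)]
      omega
  rw [hqt, ← List.rotate_rotate, wd_rotate (by omega) q (by omega) hb0]
  refine C8_first x m g k ℓ₀ hg hk hs' b hb (bs.rotate q) (by simpa using hbl) ?_ ?_
    (es.rotate q) (by simpa using hes) (t + 1) (by omega) (by omega)
  · intro β hβ
    exact hbs β (List.mem_rotate.1 hβ)
  · intro es3 h3
    have h4 : es3 = (es3.rotate (b - q)).rotate q := by
      rw [List.rotate_rotate, Nat.sub_add_cancel hq.le, ← h3, List.rotate_length]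
    rw [h4, ← wd_rotate (g := g) (by omega) q (by rw [List.length_rotate]; omega) hb0]
    exact good_rotate (hgood _ (by rw [List.length_rotate]; exact h3)) _

end Pool.Agent.HF
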