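import Pool.Agent.LibHF31.BDefs

/-!
[HF C9] merging blocks: `h` blocks of period `G` become one block of period `h * G` (the sites inside are fixed).
-/

set_option autoImplicit false

namespace Pool.Agent.HF

open Finset

theorem C9_wd_append {es₁ es₂ : List Bool} {bs₁ bs₂ : List (List ℕ)} (h : es₁.length = bs₁.length) :
    wd (es₁ ++ es₂) (bs₁ ++ bs₂) = wd es₁ bs₁ ++ wd es₂ bs₂ := by
  induction es₁ generalizing bs₁ with
  | nil =>
    have : bs₁ = [] := List.length_eq_zero_iff.1 h.symm
    subst this
    simp [wd]
  | cons e es₁ ih =>
    cases bs₁ with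
    | nil => simp at h
    | cons β bs₁ =>
      rw [List.cons_append, List.cons_append, wd_cons, wd_cons, ih (by simpa using h)]
      simp

theorem C9_len {G : ℕ} (hG : 2 ≤ G) {t : List (List ℕ)} (ht : ∀ β ∈ t, β.length = G - 2) :
    (wd (List.replicate t.length true) t).length = t.length * G ∧
      (wd (List.replicate t.length true) t).sum = 5 * t.length + t.flatten.sum := by
  induction t with
  | nil => simp [wd]
  | cons β t ih =>
    obtain ⟨ih1, ih2⟩ := ih fun b hb => ht b (by simp [hb])
    have hs : (site true).length = 2 := rfl
    have hs2 : (site true).sum = 5 := rfl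
    rw [List.length_cons, List.replicate_succ, wd_cons, List.length_append, List.length_append, hs,
      ih1, ht β (by simp), List.sum_append, List.sum_append, hs2, ih2, List.flatten_cons,
      List.sum_append]
    constructor
    · have : 2 + (G - 2) = G := by omega
      rw [this]
      ring
    · ring

theorem merge (h G : ℕ) (hh : 1 ≤ h) (hG : 2 ≤ G) (b : ℕ) (bs : List (List ℕ))
    (hb : bs.length = h * b) (hbs : ∀ β ∈ bs, β.length = G - 2 ∧ W23 β) :
    ∃ bs' : List (List ℕ), bs'.length = b ∧ (∀ β ∈ bs', β.length = h * G - 2 ∧ W23 β) ∧
      5 * b + bs'.flatten.sum = 5 * (h * b) + bs.flatten.sum ∧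
      ∀ es' : List Bool, es'.length = b → ∃ es : List Bool, es.length = h * b ∧
        wd es' bs' = wd es bs := by
  induction b generalizing bs with
  | zero =>
    have : bs = [] := List.length_eq_zero_iff.1 (by simpa using hb)
    subst this
    refine ⟨[], rfl, by simp, by simp, ?_⟩
    intro es' he'
    exact ⟨[], by simp, by simp [wd]⟩
  | succ b ih =>
    have hb' : bs.length = h + h * b := by rw [hb]; ring
    obtain ⟨ch, rest, rfl, hch, hrest⟩ : ∃ ch rest, bs = ch ++ rest ∧ ch.length = h ∧
        rest.length = h * b := by
      refine ⟨bs.take h, bs.drop h, (List.take_append_drop _ _).symm, ?_, ?_⟩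
      · rw [List.length_take]; omega
      · rw [List.length_drop]; omega
    obtain ⟨β, t, rfl⟩ : ∃ β t, ch = β :: t := by
      cases ch with
      | nil => simp at hch; omega
      | cons β t => exact ⟨β, t, rfl⟩
    have ht : t.length = h - 1 := by
      simp only [List.length_cons] at hch
      omega
    obtain ⟨bs'', h1, h2, h3, h4⟩ := ih rest hrest (fun a ha => hbs a (by simp [ha]))
    have hβ := hbs β (by simp)
    have htt : ∀ a ∈ t, a.length = G - 2 ∧ W23 a := fun a ha => hbs a (by simp [ha])
    obtain ⟨l1, l2⟩ := C9_len hG (t := t) (fun a ha => (htt a ha).1)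
    refine ⟨(β ++ wd (List.replicate t.length true) t) :: bs'', by simp [h1], ?_, ?_, ?_⟩
    · intro a ha
      rcases List.mem_cons.1 ha with h5 | h5
      · subst h5
        constructor
        · rw [List.length_append, hβ.1, l1, ht]
          obtain ⟨h', rfl⟩ : ∃ h', h = h' + 1 := ⟨h - 1, by omega⟩
          have e1 : h' + 1 - 1 = h' := by omega
          rw [e1]
          have e2 : (h' + 1) * G = h' * G + G := by ring
          omega
        · exact hβ.2.append (W23_wd (fun a ha => (htt a ha).2) _)
      · exact h2 a h5
    · rw [List.flatten_cons, List.sum_append, List.sum_append, l2, ht, List.flatten_append,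
        List.sum_append, List.flatten_cons, List.sum_append]
      obtain ⟨h', rfl⟩ : ∃ h', h = h' + 1 := ⟨h - 1, by omega⟩
      have e1 : h' + 1 - 1 = h' := by omega
      rw [e1]
      have e2 : 5 * ((h' + 1) * (b + 1)) = 5 * ((h' + 1) * b) + 5 * h' + 5 := by ring
      omega
    · intro es' he'
      cases es' with
      | nil => simp at he'
      | cons e es' =>
        obtain ⟨es, h5, h6⟩ := h4 es' (by simpa using he')
        refine ⟨(e :: List.replicate t.length true) ++ es, ?_, ?_⟩
        · rw [List.length_append, List.length_cons, List.length_replicate, h5, ht]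
          have e2 : h * (b + 1) = h * b + h := by ring
          omega
        · rw [wd_cons, C9_wd_append (by simp), wd_cons, h6]
          simp only [List.append_assoc]

end Pool.Agent.HF
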