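import Pool.Agent.LibHF31.C8
import Pool.Agent.LibHF31.C9
import Pool.Agent.LibHF31.C10

/-! [HF Core] the core theorem. -/

set_option autoImplicit false

namespace Pool.Agent.HF

open Finset

theorem core (x : List ℕ → ℂ) (Y : ℕ → ℂ) (hI : CI x Y) (m G : ℕ) (hG : 4 ≤ G) :
    ∃ B₀ : ℕ, 1 ≤ B₀ ∧ ∀ bs : List (List ℕ), bs.length = B₀ →
      (∀ β ∈ bs, β.length = G - 2 ∧ W23 β) →
      (∀ es : List Bool, es.length = B₀ → ∀ i n, m < n → n ≤ B₀ * G →
        x (arc (wd es bs) i n) = 0) →
      ‖Y (5 * B₀ + bs.flatten.sum)‖ ≤ 1 / 2 := by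
  obtain ⟨b₀, hb₀⟩ := all_zero x Y hI m ((m + 2) * G) (by nlinarith)
  obtain ⟨r₀, hr₀⟩ := final_energy x Y hI m
  set b : ℕ := b₀ + r₀ + 1 with hb
  refine ⟨(m + 2) * b, Nat.mul_pos (by omega) (by omega), ?_⟩
  intro bs hl hbs hg
  obtain ⟨bs', hl', hbs', hsum, hes⟩ := merge (m + 2) G (by omega) (by omega) b bs hl hbs
  have hgood : ∀ es' : List Bool, es'.length = b → Good x m (wd es' bs') := by
    intro es' he'
    obtain ⟨es, he, heq⟩ := hes es' he'
    intro i n hmn hn
    rw [heq] at hn ⊢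
    refine hg es he i n hmn (hn.trans ?_)
    rw [length_wd (he.trans hl.symm)]
    have h1 : bs.flatten.length = bs.length * (G - 2) := by
      rw [List.length_flatten]
      have h2 : List.map List.length bs = List.replicate bs.length (G - 2) := by
        rw [List.eq_replicate_iff]
        refine ⟨by simp, ?_⟩
        intro a ha
        rw [List.mem_map] at ha
        obtain ⟨β, hβ, rfl⟩ := ha
        exact (hbs β hβ).1
      rw [h2, List.sum_replicate, smul_eq_mul]
    rw [h1, hl]
    obtain ⟨G', rfl⟩ : ∃ G', G = G' + 2 := ⟨G - 2, by omega⟩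
    have h3 : G' + 2 - 2 = G' := by omega
    rw [h3]
    nlinarith
  have hw : W23 (wd (List.replicate b true) bs') :=
    W23_wd (fun β hβ => (hbs' β hβ).2) _
  have hlen : (wd (List.replicate b true) bs').length = bs'.flatten.length + 2 * bs'.length :=
    length_wd (by simp [hl'])
  have hz := hb₀ b (by omega) bs' hl' hbs' hgood (List.replicate b true) (by simp)
  have h4 := hr₀ (wd (List.replicate b true) bs') hw (by rw [hlen, hl']; omega)
    (hgood _ (by simp)) (fun i _ => hz i)
  rw [sum_wd (by simp [hl']), hl', hsum] at h4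
  exact h4

end Pool.Agent.HF
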