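import Mathlib
import Pool.Agent.LibHB89.Stmt
import Pool.Agent.LibHB89.Defs

/-!
Common definitions for the board HF (MP_c2d7b4_nt: transcendental Hoffman elements, full growth).

A word is a `List ℕ`.  Letters are `2` and `3` (or any `n ≥ 2`); the letter `0` stands for the
commutator `Q = P 3 ∘ P 2 - P 2 ∘ P 3`.
-/

set_option autoImplicit false

namespace Pool.Agent.HF

open scoped ENNReal
open Finset

/-- `(P n f) j = ∑_{l ≥ j} l ^ (-n) f l`. -/
noncomputable def P (n : ℕ) (f : ℕ → ℝ≥0∞) (j : ℕ) : ℝ≥0∞ :=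
  ∑' i : ℕ, (((j + i : ℕ) : ℝ≥0∞) ^ n)⁻¹ * f (j + i)

/-- `(Q f) j = ∑_{j ≤ k < l} (l - k) (k l) ^ (-3) f l`. -/
noncomputable def Q (f : ℕ → ℝ≥0∞) (j : ℕ) : ℝ≥0∞ :=
  ∑' i : ℕ, ∑' h : ℕ, ((h + 1 : ℕ) : ℝ≥0∞) *
    ((((j + i : ℕ) : ℝ≥0∞) ^ 3)⁻¹ * ((((j + i + h + 1 : ℕ) : ℝ≥0∞) ^ 3)⁻¹ * f (j + i + h + 1)))

/-- The operator of a letter; the letter `0` is the commutator. -/
noncomputable def op (n : ℕ) : (ℕ → ℝ≥0∞) → ℕ → ℝ≥0∞ := if n = 0 then Q else P n

/-- The operator of a word (the head of the word is applied last, i.e. at the lowest level). -/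
noncomputable def ph (u : List ℕ) (f : ℕ → ℝ≥0∞) : ℕ → ℝ≥0∞ := u.foldr op f

/-- The star sum `S(u) = ∑_{1 ≤ k₁ ≤ ⋯ ≤ k_s} ∏ k_i ^ (-u_i)`. -/
noncomputable def S (u : List ℕ) : ℝ := (ph u (fun _ => 1) 1).toReal

/-- The multiple zeta value `ζ(w)`, by the series of the problem (same as in the statement). -/
noncomputable def zt (w : List ℕ) : ℝ := Pool.HB89.mzv w

/-- The arc of length `n` starting at position `i` of the circular word `L`. -/
def arc (L : List ℕ) (i n : ℕ) : List ℕ :=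
  (List.range n).map (fun j => L.getD ((i + j) % L.length) 0)

/-- `seg x i j = [x i, …, x (j-1)]`. -/
def seg (x : ℕ → ℕ) (i j : ℕ) : List ℕ := (List.range (j - i)).map (fun t => x (i + t))

end Pool.Agent.HF
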