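import Mathlib

set_option autoImplicit false

namespace Pool.Agent.HF

open Finset

/-- **A derivation with `D x = 1` for a transcendental `x`** (characteristic 0). Plan. Take a transcendence basis of `L / K`
containing `x`: an index type `ι` with a point `i0` and an algebraically independent family `b : ι → L` with `b i0 = x` and `L`
algebraic over `Algebra.adjoin K (range b)` (`exists_isTranscendenceBasis_superset`-type lemmas for the algebraically
independent set `{x}`). On `MvPolynomial ι K` take `MvPolynomial.pderiv i0`. `L` is formally étale over
`MvPolynomial ι K` (via `aeval b`): over the fraction field `F` by `Algebra.FormallyEtale.of_isSeparable` (algebraic,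
characteristic 0), `F` over the polynomials by `Algebra.FormallyEtale.of_isLocalization`, then
`Algebra.FormallyEtale.comp`; so `KaehlerDifferential.tensorKaehlerEquivOfFormallyEtale` gives
`L ⊗ Ω[MvPolynomial ι K⁄K] ≃ Ω[L⁄K]`, and the linear form on `Ω[MvPolynomial ι K⁄K]` with `d (X j) ↦ δ_{j, i0}` (the one of the
derivation `pderiv i0` composed with `MvPolynomial ι K → L`) gives the derivation. Alternative without Kähler
differentials: Zorn on pairs (intermediate field, derivation into `L`), extending by one algebraic element (value
`-P^D(a)/P'(a)`) or by one transcendental element (`Polynomial` / `RatFunc` derivations). -/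
theorem exists_der (K L : Type) [Field K] [Field L] [Algebra K L] [CharZero K] (x : L) (hx : Transcendental K x) :
    ∃ D : Derivation K L L, D x = 1 := by
  classical
  have hind : AlgebraicIndepOn K id ({x} : Set L) := by
    have h0 : AlgebraicIndependent K (fun i : ({x} : Set L) => (i : L)) := by
      rw [algebraicIndependent_unique_type_iff]
      exact hx
    exact h0
  obtain ⟨t, ht, hb⟩ := exists_isTranscendenceBasis_superset hind
  let i0 : t := ⟨x, ht rfl⟩
  let A := MvPolynomial t K
  let _ : Algebra A L := (MvPolynomial.aeval ((↑) : t → L)).toRingHom.toAlgebra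
  have hmap : ∀ P : A, algebraMap A L P = MvPolynomial.aeval ((↑) : t → L) P := fun _ => rfl
  have _ : IsScalarTower K A L := IsScalarTower.of_algebraMap_eq fun c => by
    rw [hmap, MvPolynomial.algebraMap_eq, MvPolynomial.aeval_C]
  have hinj : Function.Injective (algebraMap A L) := hb.1
  have _ : FaithfulSMul A L := (faithfulSMul_iff_algebraMap_injective A L).2 hinj
  have halg : Algebra.IsAlgebraic (Algebra.adjoin K (Set.range ((↑) : t → L))) L := hb.isAlgebraic
  have halg2 : Algebra.IsAlgebraic A L := by
    refine Algebra.IsAlgebraic.of_ringHom_of_comp_eq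
      (f := ((MvPolynomial.aeval ((↑) : t → L)).codRestrict
        (Algebra.adjoin K (Set.range ((↑) : t → L))) fun P => by
          rw [Algebra.adjoin_range_eq_range_aeval]; exact ⟨P, rfl⟩).toRingHom)
      (g := RingHom.id L) ?_ Function.injective_id ?_
    · rintro ⟨y, hy⟩
      have hy' := hy
      rw [Algebra.adjoin_range_eq_range_aeval] at hy'
      obtain ⟨P, hP⟩ := hy'
      exact ⟨P, Subtype.ext hP⟩
    · ext P <;> rfl
  let _ : Algebra (FractionRing A) L := FractionRing.liftAlgebra A L
  have _ : IsScalarTower A (FractionRing A) L := FractionRing.isScalarTower_liftAlgebra A L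
  have halg3 : Algebra.IsAlgebraic (FractionRing A) L :=
    (IsFractionRing.comap_isAlgebraic_iff (A := A) (K := FractionRing A) (C := L)).1 halg2
  have _ : CharZero (FractionRing A) :=
    charZero_of_injective_algebraMap (IsFractionRing.injective A (FractionRing A))
  have h1 : Algebra.FormallyEtale A (FractionRing A) :=
    Algebra.FormallyEtale.of_isLocalization (nonZeroDivisors A)
  have h2 : Algebra.FormallyEtale (FractionRing A) L :=
    Algebra.FormallyEtale.of_isSeparable (FractionRing A) L
  have h3 : Algebra.FormallyEtale A L := Algebra.FormallyEtale.comp A (FractionRing A) L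
  let d₀ : Derivation K A L := (Algebra.linearMap A L).compDer (MvPolynomial.pderiv i0)
  let φ := (d₀.liftKaehlerDifferential.liftBaseChange L).comp
    (KaehlerDifferential.tensorKaehlerEquivOfFormallyEtale K A L).symm.toLinearMap
  refine ⟨φ.compDer (KaehlerDifferential.D K L), ?_⟩
  have hx' : x = algebraMap A L (MvPolynomial.X i0) := by
    rw [hmap, MvPolynomial.aeval_X]
  change φ (KaehlerDifferential.D K L x) = 1
  rw [hx']
  change (d₀.liftKaehlerDifferential.liftBaseChange L)
    ((KaehlerDifferential.tensorKaehlerEquivOfFormallyEtale K A L).symm
      (KaehlerDifferential.D K L (algebraMap A L (MvPolynomial.X i0)))) = 1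
  rw [KaehlerDifferential.tensorKaehlerEquivOfFormallyEtale_symm_D_algebraMap,
    LinearMap.liftBaseChange_tmul, one_smul, Derivation.liftKaehlerDifferential_comp_D]
  change algebraMap A L (MvPolynomial.pderiv i0 (MvPolynomial.X i0)) = 1
  rw [MvPolynomial.pderiv_X_self, map_one]

end Pool.Agent.HF
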