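import Mathlib

set_option autoImplicit false

namespace Pool.Agent.HF

open Finset

/-- Plan: for the minimal polynomial `P` of `x`: `0 = D (P x) = P'(x) * D x` (`Derivation.map_aeval`), `P'(x) ≠ 0` by
separability (`minpoly` irreducible, characteristic 0) or by the degree. -/
theorem der_alg (K L : Type) [Field K] [Field L] [Algebra K L] [CharZero K] (D : Derivation K L L) (x : L)
    (hx : IsAlgebraic K x) : D x = 0 := by
  have h1 := D.map_aeval (minpoly K x) x
  rw [minpoly.aeval, map_zero] at h1
  have h2 : Polynomial.aeval x (Polynomial.derivative (minpoly K x)) ≠ 0 :=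
    (minpoly.irreducible hx.isIntegral).separable.aeval_derivative_ne_zero (minpoly.aeval K x)
  exact (smul_eq_zero.1 h1.symm).resolve_left h2

end Pool.Agent.HF
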