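import Pool.Agent.LibHF31.EDefs
import Pool.Agent.LibHB89.A1
import Pool.Agent.LibHB89.A2

set_option autoImplicit false

namespace Pool.Agent.HF

open Finset

/-- Plan: `zt [N] = Pool.HB89.mzv [N]` is the sum over `k : Fin 1 → ℕ` (strictly antitone, positive) of `(k 0 ^ N)⁻¹`: reindex
(`Equiv.funUnique`, or `Pool.HB89.mzv_eq_co` with `co [N] k = (k^N)⁻¹` for `k ≥ 1`). -/
theorem zt_singleton (N : ℕ) (hN : 2 ≤ N) : HasSum (fun k : ℕ => (1 : ℝ) / (k : ℝ) ^ N) (zt [N]) := by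
  have hsum : Summable fun k : ℕ => (1 : ℝ) / (k : ℝ) ^ N :=
    Real.summable_one_div_nat_pow.2 (by omega)
  have hco : ∀ k : ℕ, Pool.HB89.co [N] k = ENNReal.ofReal ((1 : ℝ) / (k : ℝ) ^ N) := by
    intro k
    by_cases hk : k = 0
    · subst hk
      rw [Nat.cast_zero, zero_pow (by omega : N ≠ 0), div_zero, ENNReal.ofReal_zero]
      unfold Pool.HB89.co
      rw [if_pos rfl]
    · have h1 : ∑ j ∈ range k, Pool.HB89.co [] j = 1 := by
        have h2 : ∀ j ∈ range k, Pool.HB89.co [] j = if j = 0 then 1 else 0 := by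
          intro j _
          unfold Pool.HB89.co
          rfl
        rw [Finset.sum_congr rfl h2, Finset.sum_ite_eq' (range k) 0 (fun _ => (1 : ENNReal)),
          if_pos (Finset.mem_range.2 (Nat.pos_of_ne_zero hk))]
      have h3 : Pool.HB89.co [N] k =
          if k = 0 then 0 else ((k : ENNReal) ^ N)⁻¹ * ∑ j ∈ range k, Pool.HB89.co [] j := rfl
      rw [h3, if_neg hk, h1, mul_one, one_div,
        ENNReal.ofReal_inv_of_pos (pow_pos (by exact_mod_cast Nat.pos_of_ne_zero hk) N),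
        ENNReal.ofReal_pow (Nat.cast_nonneg k), ENNReal.ofReal_natCast]
  have hz : zt [N] = ∑' k : ℕ, (1 : ℝ) / (k : ℝ) ^ N := by
    unfold zt
    rw [Pool.HB89.mzv_eq_co, tsum_congr hco, ← ENNReal.ofReal_tsum_of_nonneg _ hsum,
      ENNReal.toReal_ofReal]
    · exact tsum_nonneg fun k => by positivity
    · intro k; positivity
  rw [hz]
  exact hsum.hasSum

/-- Plan: `N = 2 k`, `k ≠ 0`; `hasSum_zeta_nat` (uniqueness of sums with `zt_singleton`): `zt [N] = r * π ^ N` with `r` rational;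
in `ℂ`: `d (r * π^N) = r * N * π^(N-1) = (N / π) * zt [N]` (`Derivation.leibniz`, `Derivation.leibniz_pow`; `d` kills the
rationals: `Derivation.map_natCast`, `Derivation.map_intCast`, and `d (r) = 0` from `d (n * r) = 0`). `zt [N] ≥ 1` (the term
`k = 1`), `N / π ≥ 2 / 4`, in fact `2 / π > 1/2` as `π < 4`. -/
theorem val_gt (d : Derivation ℤ ℂ ℂ) (hd : d ((Real.pi : ℝ) : ℂ) = 1) (N : ℕ) (hN : 2 ≤ N) (he : Even N) :
    1 / 2 < ‖d (zt [N] : ℂ)‖ := by
  obtain ⟨k, hk⟩ := he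
  have hk2 : N = 2 * k := by omega
  have hk0 : k ≠ 0 := by omega
  have h1 := zt_singleton N hN
  have h2 := hasSum_zeta_nat hk0
  rw [← hk2] at h2
  have h3 := h1.unique h2
  set r : ℚ := (-1) ^ (k + 1) * 2 ^ (N - 1) * bernoulli N / N.factorial with hr
  have h4 : zt [N] = (r : ℝ) * Real.pi ^ N := by
    rw [h3, hr]
    push_cast
    ring
  have hd0 : d ((r : ℚ) : ℂ) = 0 := by
    have e1 : ((r.den : ℕ) : ℂ) * ((r : ℚ) : ℂ) = ((r.num : ℤ) : ℂ) := by
      rw [mul_comm]
      exact_mod_cast Rat.mul_den_eq_num r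
    have e2 := congrArg d e1
    rw [Derivation.leibniz, Derivation.map_natCast, Derivation.map_intCast, smul_zero, add_zero,
      smul_eq_mul, mul_eq_zero] at e2
    exact e2.resolve_left (by exact_mod_cast r.den_ne_zero)
  have h5 : d (zt [N] : ℂ) = (r : ℂ) * (N * ((Real.pi : ℝ) : ℂ) ^ (N - 1)) := by
    have e3 : (zt [N] : ℂ) = (r : ℂ) * ((Real.pi : ℝ) : ℂ) ^ N := by
      rw [h4]; push_cast; rfl
    rw [e3, Derivation.leibniz, hd0, smul_zero, add_zero, Derivation.leibniz_pow, hd]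
    simp only [smul_eq_mul, nsmul_eq_mul, mul_one]
  have h6 : 1 ≤ zt [N] := by
    have e4 := le_hasSum h1 1 fun j _ => by positivity
    simpa using e4
  have hpi : 0 < Real.pi := Real.pi_pos
  have h7 : ‖d (zt [N] : ℂ)‖ = N / Real.pi * zt [N] := by
    have e5 : d (zt [N] : ℂ) = ((N / Real.pi * zt [N] : ℝ) : ℂ) := by
      rw [h5, h4]
      have hN1 : N = (N - 1) + 1 := by omega
      have e6 : Real.pi ^ N = Real.pi ^ (N - 1) * Real.pi := by
        conv_lhs => rw [hN1, pow_succ]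
      rw [e6]
      push_cast
      have hpi' : ((Real.pi : ℝ) : ℂ) ≠ 0 := by exact_mod_cast hpi.ne'
      field_simp
    rw [e5, Complex.norm_real, Real.norm_of_nonneg (by positivity)]
  rw [h7]
  have h8 : (2 : ℝ) ≤ N := by exact_mod_cast hN
  have h9 : 1 / 2 < (N : ℝ) / Real.pi := by
    rw [lt_div_iff₀ hpi]
    have := Real.pi_lt_four
    linarith
  nlinarith

end Pool.Agent.HF
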