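import Pool.Agent.LibHF31.EDefs

set_option autoImplicit false

namespace Pool.Agent.HF

open Finset

private theorem e4_sub (N : ℕ) (hN : 2 ≤ N) :
    hoff N ⊆ (List.cons 2) '' hoff (N - 2) ∪ (List.cons 3) '' (if 3 ≤ N then hoff (N - 3) else ∅) := by
  intro w hw
  obtain ⟨h1, h2⟩ := hw
  cases w with
  | nil => simp at h2; omega
  | cons x w =>
    rw [List.sum_cons] at h2
    rcases h1 x (List.mem_cons_self) with rfl | rfl
    · left
      exact ⟨w, ⟨fun y hy => h1 y (List.mem_cons_of_mem _ hy), by omega⟩, rfl⟩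
    · right
      rw [if_pos (by omega)]
      exact ⟨w, ⟨fun y hy => h1 y (List.mem_cons_of_mem _ hy), by omega⟩, rfl⟩

private theorem e4_small (N : ℕ) (hN : N < 2) : hoff N ⊆ {[]} := by
  intro w hw
  obtain ⟨h1, h2⟩ := hw
  cases w with
  | nil => rfl
  | cons x w =>
    rw [List.sum_cons] at h2
    rcases h1 x (List.mem_cons_self) with rfl | rfl <;> omega

/-- Plan: the words of weight `N` have length at most `N`: `List.finite_length_le`-type argument, or strong induction on `N` with
`hoff N ⊆ {[]} ∪ (2 :: ·) '' hoff (N-2) ∪ (3 :: ·) '' hoff (N-3)`. -/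
theorem hoff_finite (N : ℕ) : (hoff N).Finite := by
  induction N using Nat.strong_induction_on with
  | _ N ih =>
    by_cases hN : N < 2
    · exact (Set.finite_singleton _).subset (e4_small N hN)
    · refine (Set.Finite.union ((ih (N - 2) (by omega)).image _) (Set.Finite.image _ ?_)).subset
        (e4_sub N (by omega))
      split_ifs with h
      · exact ih (N - 3) (by omega)
      · exact Set.finite_empty

/-- Plan: strong induction on `N`: `hoff 0 = {[]}`, `hoff 1 = ∅`, `hoff 2 = {[2]}`, and for `N ≥ 3`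
`hoff N ⊆ (2 :: ·) '' hoff (N-2) ∪ (3 :: ·) '' hoff (N-3)`, so the number is at most `θ^(N-2) + θ^(N-3) = θ^(N-3) (θ + 1) = θ^N`. -/
theorem hoff_card_le (θ : ℝ) (hθ : 1 < θ) (hθ3 : θ ^ 3 = θ + 1) (N : ℕ) : ((hoff N).ncard : ℝ) ≤ θ ^ N := by
  induction N using Nat.strong_induction_on with
  | _ N ih =>
    by_cases hN : N < 2
    · have h1 : (hoff N).ncard ≤ 1 := by
        rw [← Set.ncard_singleton ([] : List ℕ)]
        exact Set.ncard_le_ncard (e4_small N hN) (Set.finite_singleton _)
      have h2 : ((hoff N).ncard : ℝ) ≤ 1 := by exact_mod_cast h1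
      exact h2.trans (one_le_pow₀ hθ.le)
    · have h0 := e4_sub N (by omega)
      by_cases h3 : 3 ≤ N
      · rw [if_pos h3] at h0
        have h1 : (hoff N).ncard ≤ (hoff (N - 2)).ncard + (hoff (N - 3)).ncard :=
          calc (hoff N).ncard ≤ ((List.cons 2) '' hoff (N - 2) ∪ (List.cons 3) '' hoff (N - 3)).ncard :=
                Set.ncard_le_ncard h0 (((hoff_finite _).image _).union ((hoff_finite _).image _))
            _ ≤ ((List.cons 2) '' hoff (N - 2)).ncard + ((List.cons 3) '' hoff (N - 3)).ncard :=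
                Set.ncard_union_le _ _
            _ ≤ _ := add_le_add (Set.ncard_image_le (hoff_finite _)) (Set.ncard_image_le (hoff_finite _))
        have h2 : ((hoff N).ncard : ℝ) ≤ (hoff (N - 2)).ncard + (hoff (N - 3)).ncard := by
          exact_mod_cast h1
        have h4 := ih (N - 2) (by omega)
        have h5 := ih (N - 3) (by omega)
        have h6 : θ ^ (N - 2) = θ ^ (N - 3) * θ := by
          rw [← pow_succ]; congr 1; omega
        have h7 : θ ^ N = θ ^ (N - 3) * θ ^ 3 := by
          rw [← pow_add]; congr 1; omega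
        rw [h7, hθ3]
        rw [h6] at h4
        linarith
      · have hN2 : N = 2 := by omega
        subst hN2
        rw [if_neg h3, Set.image_empty, Set.union_empty] at h0
        have h1 : (hoff 2).ncard ≤ (hoff 0).ncard :=
          (Set.ncard_le_ncard h0 ((hoff_finite _).image _)).trans (Set.ncard_image_le (hoff_finite _))
        have h4 := ih 0 (by omega)
        rw [pow_zero] at h4
        have h2 : ((hoff 2).ncard : ℝ) ≤ (hoff 0).ncard := by exact_mod_cast h1
        exact (h2.trans h4).trans (one_le_pow₀ hθ.le)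

/-- Plan: `N = 2k`: the word `2…2`; `N = 2k + 3`: the word `3 2…2`. -/
theorem one_le_hoff (N : ℕ) (hN : 2 ≤ N) : 1 ≤ (hoff N).ncard := by
  have h1 : (hoff N).Nonempty := by
    rcases Nat.even_or_odd N with ⟨k, hk⟩ | ⟨k, hk⟩
    · refine ⟨List.replicate k 2, fun x hx => Or.inl (List.eq_of_mem_replicate hx), ?_⟩
      rw [List.sum_replicate, smul_eq_mul]; omega
    · refine ⟨3 :: List.replicate (k - 1) 2, fun x hx => ?_, ?_⟩
      · rcases List.mem_cons.1 hx with rfl | hx
        · exact Or.inr rfl
        · exact Or.inl (List.eq_of_mem_replicate hx)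
      · rw [List.sum_cons, List.sum_replicate, smul_eq_mul]; omega
  exact (Set.ncard_pos (hoff_finite N)).2 h1

/-- Plan: intermediate value theorem for `x^3 - x - 1` on `[1, 2]`. -/
theorem exists_theta : ∃ θ : ℝ, 1 < θ ∧ θ ^ 3 = θ + 1 := by
  have hc : ContinuousOn (fun x : ℝ => x ^ 3 - x) (Set.Icc 1 2) := by fun_prop
  have h1 := intermediate_value_Icc (by norm_num : (1 : ℝ) ≤ 2) hc
  have h2 : (1 : ℝ) ∈ Set.Icc ((fun x : ℝ => x ^ 3 - x) 1) ((fun x : ℝ => x ^ 3 - x) 2) := by
    constructor <;> norm_num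
  obtain ⟨θ, hθ, h3⟩ := h1 h2
  simp only at h3
  refine ⟨θ, lt_of_le_of_ne hθ.1 ?_, by linarith⟩
  rintro rfl
  norm_num at h3

end Pool.Agent.HF
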