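import Pool.Agent.LibHF31.E4

set_option autoImplicit false

namespace Pool.Agent.HF

open Finset

private theorem e5_count (w : List ℕ) (hw : ∀ x ∈ w, x = 2 ∨ x = 3) :
    2 * w.count 2 + 3 * w.count 3 = w.sum := by
  induction w with
  | nil => simp
  | cons a w ih =>
    have h1 := ih (fun x hx => hw x (List.mem_cons_of_mem _ hx))
    rcases hw a (List.mem_cons_self) with h | h
    · subst h
      simp
      omega
    · subst h
      simp
      omega

private theorem e5_term (θ : ℝ) (hθ : 1 < θ) (ρ : ℝ) (hρ : 1 < ρ) (w : List ℕ) (hw : ∀ x ∈ w, x = 2 ∨ x = 3) :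
    (ρ * (θ ^ 2)⁻¹) ^ (w.count 2) * (ρ * (θ ^ 3)⁻¹) ^ (w.count 3) ≤
      ρ ^ ((w.sum : ℝ) / 2) * (θ ^ w.sum)⁻¹ := by
  have h1 := e5_count w hw
  have hρ0 : 0 < ρ := by linarith
  have hθ0 : 0 < θ := by linarith
  have h2 : (ρ * (θ ^ 2)⁻¹) ^ (w.count 2) * (ρ * (θ ^ 3)⁻¹) ^ (w.count 3) =
      ρ ^ (w.count 2 + w.count 3) * (θ ^ w.sum)⁻¹ := by
    rw [← h1, mul_pow, mul_pow, inv_pow, inv_pow, pow_add, pow_add, pow_mul, pow_mul, mul_inv]
    ring
  rw [h2]
  apply mul_le_mul_of_nonneg_right _ (by positivity)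
  rw [← Real.rpow_natCast]
  apply Real.rpow_le_rpow_of_exponent_le hρ.le
  rw [← h1]
  push_cast
  have : (0:ℝ) ≤ (w.count 3 : ℝ) := by positivity
  linarith

/-- **Weights.** If from some weight on there are at most `θ^((1-ε) N)` words of weight `N` in `T`, then the master sum with
`a = ρ θ^(-2)`, `b = ρ θ^(-3)` converges for `ρ < θ^(2ε)`. Plan: all terms are nonnegative, so it suffices to bound the sums
over finite sets of words (`summable_of_sum_le`), or use `summable_sigma_of_nonneg` for the fibres of `w ↦ w.sum` (each fibre is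
finite, `hoff_finite`). For a word of weight `N`: `2 * count 2 + 3 * count 3 = N`, so the term is
`ρ^(length) * θ^(-N) ≤ ρ^(N/2) θ^(-N)` (`length = count 2 + count 3 ≤ N / 2`, `ρ > 1`; use `ρ^(N/2 : ℝ)`), and the fibre has at most
`θ^((1-ε) N)` elements for `N ≥ N0`: the fibre sum is at most `(ρ^(1/2) θ^(-ε))^N`, a convergent geometric series. -/
theorem summable_of_count (θ : ℝ) (hθ : 1 < θ) (T : Set (List ℕ)) (ε ρ : ℝ) (hρ : 1 < ρ) (hρε : ρ < θ ^ (2 * ε))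
    (N0 : ℕ) (h : ∀ N, N0 ≤ N → ((hoffT T N).ncard : ℝ) ≤ θ ^ ((1 - ε) * N)) :
    Summable fun w : {w : List ℕ // (∀ x ∈ w, x = 2 ∨ x = 3) ∧ w ∈ T} =>
      (ρ * (θ ^ 2)⁻¹) ^ (w.1.count 2) * (ρ * (θ ^ 3)⁻¹) ^ (w.1.count 3) := by
  classical
  have hρ0 : 0 < ρ := by linarith
  have hθ0 : 0 < θ := by linarith
  set F : ℕ → ℝ := fun N => ((hoffT T N).ncard : ℝ) * (ρ ^ ((N : ℝ) / 2) * (θ ^ N)⁻¹) with hF
  have hF0 : ∀ N, 0 ≤ F N := fun N => by rw [hF]; positivity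
  -- the fibre sums are summable
  set r : ℝ := ρ ^ ((1 : ℝ) / 2) * θ ^ (-ε) with hr
  have hr0 : 0 < r := by rw [hr]; positivity
  have hr1 : r < 1 := by
    have h1 : ρ ^ ((1 : ℝ) / 2) < θ ^ ε := by
      have h2 : (θ ^ (2 * ε)) ^ ((1 : ℝ) / 2) = θ ^ ε := by
        rw [← Real.rpow_mul hθ0.le]
        congr 1
        ring
      rw [← h2]
      exact Real.rpow_lt_rpow hρ0.le hρε (by norm_num)
    rw [hr, Real.rpow_neg hθ0.le]
    have h3 : 0 < θ ^ ε := by positivity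
    rw [← div_eq_mul_inv, div_lt_one h3]
    exact h1
  have hFle : ∀ N, N0 ≤ N → F N ≤ r ^ N := by
    intro N hN
    have h1 : r ^ N = θ ^ ((1 - ε) * N) * (ρ ^ ((N : ℝ) / 2) * (θ ^ N)⁻¹) := by
      rw [hr, mul_pow, ← Real.rpow_natCast, ← Real.rpow_natCast, ← Real.rpow_natCast, ← Real.rpow_mul hρ0.le,
        ← Real.rpow_mul hθ0.le, ← Real.rpow_neg hθ0.le]
      have h2 : (1 : ℝ) / 2 * (N : ℝ) = (N : ℝ) / 2 := by ring
      rw [h2]
      have h3 : θ ^ (-ε * (N : ℝ)) = θ ^ ((1 - ε) * (N : ℝ)) * θ ^ (-(N : ℝ)) := by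
        rw [← Real.rpow_add hθ0]
        congr 1
        ring
      rw [h3]
      ring
    rw [h1, hF]
    exact mul_le_mul_of_nonneg_right (h N hN) (by positivity)
  have hFs : Summable F := by
    have h1 : Summable (fun N => r ^ N) := summable_geometric_of_lt_one hr0.le hr1
    have h2 : Summable (fun N => F (N + N0)) := by
      refine Summable.of_nonneg_of_le (fun N => hF0 _) (fun N => hFle (N + N0) (by omega)) ?_
      exact (summable_nat_add_iff N0).2 h1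
    exact (summable_nat_add_iff N0).1 h2
  refine summable_of_sum_le (c := ∑' N, F N) (fun w => by positivity) ?_
  intro s
  -- group by weight
  have h1 : ∑ w ∈ s, (ρ * (θ ^ 2)⁻¹) ^ (w.1.count 2) * (ρ * (θ ^ 3)⁻¹) ^ (w.1.count 3) ≤
      ∑ w ∈ s, ρ ^ ((w.1.sum : ℝ) / 2) * (θ ^ w.1.sum)⁻¹ :=
    sum_le_sum (fun w _ => e5_term θ hθ ρ hρ w.1 w.2.1)
  refine h1.trans ?_
  have h2 : ∑ w ∈ s, ρ ^ ((w.1.sum : ℝ) / 2) * (θ ^ w.1.sum)⁻¹ =
      ∑ N ∈ s.image (fun w => w.1.sum), ∑ w ∈ s.filter (fun w => w.1.sum = N),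
        ρ ^ ((w.1.sum : ℝ) / 2) * (θ ^ w.1.sum)⁻¹ := by
    rw [sum_fiberwise_of_maps_to (fun w hw => mem_image_of_mem _ hw)]
  rw [h2]
  have h3 : ∀ N ∈ s.image (fun w => w.1.sum), ∑ w ∈ s.filter (fun w => w.1.sum = N),
      ρ ^ ((w.1.sum : ℝ) / 2) * (θ ^ w.1.sum)⁻¹ ≤ F N := by
    intro N _
    have h4 : ∑ w ∈ s.filter (fun w => w.1.sum = N), ρ ^ ((w.1.sum : ℝ) / 2) * (θ ^ w.1.sum)⁻¹ =
        ∑ w ∈ s.filter (fun w => w.1.sum = N), ρ ^ ((N : ℝ) / 2) * (θ ^ N)⁻¹ := by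
      refine sum_congr rfl fun w hw => ?_
      rw [(mem_filter.1 hw).2]
    rw [h4, sum_const, nsmul_eq_mul, hF]
    apply mul_le_mul_of_nonneg_right _ (by positivity)
    have hfin : (hoffT T N).Finite := (hoff_finite N).subset (fun w hw => ⟨hw.1, hw.2.1⟩)
    have h5 : (s.filter (fun w => w.1.sum = N)).card ≤ (hoffT T N).ncard := by
      rw [← card_image_of_injective _ (Subtype.val_injective), ← Set.ncard_coe_finset]
      apply Set.ncard_le_ncard _ hfin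
      intro w hw
      rw [mem_coe, mem_image] at hw
      obtain ⟨v, hv, rfl⟩ := hw
      exact ⟨v.2.1, (mem_filter.1 hv).2, v.2.2⟩
    exact_mod_cast h5
  exact (sum_le_sum h3).trans (hFs.sum_le_tsum _ (fun N _ => hF0 N))

end Pool.Agent.HF
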