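import Pool.Agent.LibHF31.E5

set_option autoImplicit false

namespace Pool.Agent.HF

open Finset

/-- **From the master form to weights.** Plan: `θ` from `exists_theta`; `ε' = min ε (1/2)`; suppose the contrary: for all
`N ≥ N0` (and `N ≥ 2`), `#(hoffT T N) < (#hoff N)^(1 - ε) ≤ (#hoff N)^(1 - ε') ≤ θ^((1 - ε') N)` (`one_le_hoff`, `hoff_card_le`,
`Real.rpow_le_rpow`, `Real.rpow_le_rpow_of_exponent_le`). Take `ρ = (1 + min …)`, any `ρ` with `1 < ρ < θ^(2 ε')`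
(`Real.one_lt_rpow`), and `a = ρ θ^(-2)`, `b = ρ θ^(-3)`: `a + b = ρ` because `θ^(-2) + θ^(-3) = (θ + 1) / θ^3 = 1`. Contradiction
with `summable_of_count`. -/
theorem weights_of_master (T : Set (List ℕ))
    (hT : ∀ a b : ℝ, 0 < a → 0 < b → 1 < a + b →
      ¬ Summable fun w : {w : List ℕ // (∀ x ∈ w, x = 2 ∨ x = 3) ∧ w ∈ T} => a ^ (w.1.count 2) * b ^ (w.1.count 3))
    (ε : ℝ) (hε : 0 < ε) (N0 : ℕ) :
    ∃ N, N0 ≤ N ∧ ((hoff N).ncard : ℝ) ^ (1 - ε) ≤ ((hoffT T N).ncard : ℝ) := by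
  obtain ⟨θ, hθ, hθ3⟩ := exists_theta
  have hθ0 : 0 < θ := by linarith
  by_contra hcon
  push Not at hcon
  set ε' : ℝ := min ε (1 / 2) with hε'
  have h1 : 0 < ε' := lt_min hε (by norm_num)
  have h2 : ε' ≤ ε := min_le_left _ _
  have h3 : ε' ≤ 1 / 2 := min_le_right _ _
  obtain ⟨ρ, hρ1, hρ2⟩ := exists_between (Real.one_lt_rpow hθ (by linarith : 0 < 2 * ε'))
  have hρ0 : 0 < ρ := by linarith
  refine hT (ρ * (θ ^ 2)⁻¹) (ρ * (θ ^ 3)⁻¹) (by positivity) (by positivity) ?_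
    (summable_of_count θ hθ T ε' ρ hρ1 hρ2 (max N0 2) fun N hN => ?_)
  · have h4 : (θ ^ 2)⁻¹ + (θ ^ 3)⁻¹ = 1 := by
      have h5 : θ ^ 3 ≠ 0 := by positivity
      have h6 : θ ^ 2 ≠ 0 := by positivity
      have h7 : (θ ^ 2)⁻¹ = θ * (θ ^ 3)⁻¹ := by
        field_simp
      rw [h7, ← add_one_mul, ← hθ3, mul_inv_cancel₀ h5]
    rw [← mul_add, h4, mul_one]
    exact hρ1
  · have hN0 : N0 ≤ N := le_trans (le_max_left _ _) hN
    have hN2 : 2 ≤ N := le_trans (le_max_right _ _) hN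
    have h4 : (1 : ℝ) ≤ ((hoff N).ncard : ℝ) := by exact_mod_cast one_le_hoff N hN2
    calc ((hoffT T N).ncard : ℝ) ≤ ((hoff N).ncard : ℝ) ^ (1 - ε) := (hcon N hN0).le
      _ ≤ ((hoff N).ncard : ℝ) ^ (1 - ε') := Real.rpow_le_rpow_of_exponent_le h4 (by linarith)
      _ ≤ (θ ^ N) ^ (1 - ε') :=
          Real.rpow_le_rpow (by linarith) (hoff_card_le θ hθ hθ3 N) (by linarith)
      _ = θ ^ ((1 - ε') * N) := by
          rw [← Real.rpow_natCast, ← Real.rpow_mul hθ0.le, mul_comm]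

end Pool.Agent.HF
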