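import Pool.Agent.LibHF31.A9
import Pool.Agent.LibHF31.Core
import Pool.Agent.LibHF31.E1
import Pool.Agent.LibHF31.E2
import Pool.Agent.LibHF31.E3
import Pool.Agent.LibHF31.E6
import Pool.Agent.LibHF97.Blocks

set_option autoImplicit false

namespace Pool.Agent.HF

open Finset

/-- The transcendental words. -/
def TK (K : IntermediateField ℚ ℂ) : Set (List ℕ) := {w | Transcendental K ((zt w : ℝ) : ℂ)}

/-- **Master form.** -/
theorem master (K : IntermediateField ℚ ℂ) (hK : Transcendental K ((Real.pi : ℝ) : ℂ)) (a b : ℝ) (ha : 0 < a) (hb : 0 < b)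
    (hab : 1 < a + b) :
    ¬ Summable fun w : {w : List ℕ // (∀ x ∈ w, x = 2 ∨ x = 3) ∧ w ∈ TK K} =>
      a ^ (w.1.count 2) * b ^ (w.1.count 3) := by
  intro hS
  obtain ⟨D, hD⟩ := exists_der K ℂ ((Real.pi : ℝ) : ℂ) hK
  have hzero : ∀ w : List ℕ, w ∉ TK K → D ((zt w : ℝ) : ℂ) = 0 := by
    intro w hw
    have h1 : IsAlgebraic K ((zt w : ℝ) : ℂ) := by
      by_contra h
      exact hw h
    exact der_alg K ℂ D _ h1
  have hCI : CI (fun w => D.restrictScalars ℤ ((zt w : ℝ) : ℂ)) (fun N => D.restrictScalars ℤ ((zt [N] : ℝ) : ℂ)) := by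
    intro L hL hW
    exact cyclic (D.restrictScalars ℤ) L hL (fun x hx => by
      rcases hW x hx with h | h <;> omega)
  obtain ⟨G, m, hG, hcirc⟩ := HF97.circles_blocks ha hb hab (TK K) hS
  obtain ⟨B0, hB0, hcore⟩ := core _ _ hCI m G hG
  obtain ⟨bs, hbs1, hbs2, heven, harc⟩ := hcirc B0 hB0
  have h1 := hcore bs hbs1 hbs2 (fun es hes i n hn1 hn2 => hzero _ (harc es hes i n hn1 hn2))
  have h2 := val_gt (D.restrictScalars ℤ) hD (5 * B0 + bs.flatten.sum) (by omega) heven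
  exact absurd h1 (not_le.2 h2)

end Pool.Agent.HF
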