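import Pool.Agent.LibHF31.Defs

/-!
Block E of the board HF (MP_c2d7b4_nt): derivation, values, master form, weights.
-/

set_option autoImplicit false

namespace Pool.Agent.HF

open Finset

/-- The words of weight `N` in the letters `2`, `3`, in the set `T`. -/
def hoffT (T : Set (List ℕ)) (N : ℕ) : Set (List ℕ) := {w | (∀ x ∈ w, x = 2 ∨ x = 3) ∧ w.sum = N ∧ w ∈ T}

/-- The words of weight `N` in the letters `2`, `3`. -/
def hoff (N : ℕ) : Set (List ℕ) := {w | (∀ x ∈ w, x = 2 ∨ x = 3) ∧ w.sum = N}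

end Pool.Agent.HF
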